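import Mathlib

/-!
# The chessboard estimate, abstract form
-/

open Finset

namespace Pool.Agent.T2H01.YM

set_option linter.unusedSectionVars false

noncomputable section

section one

variable {m : ℕ} [NeZero m] {α : Type*}

/-- the left half pasted with its reflection -/
def rpp (τ : ZMod (2 * m) → α) : ZMod (2 * m) → α := fun x => if x.val < m then τ x else τ (-1 - x)

/-- the right half pasted with its reflection -/
def rpm (τ : ZMod (2 * m) → α) : ZMod (2 * m) → α := fun x => if x.val < m then τ (-1 - x) else τ x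

lemma cross (x : ZMod (2 * m)) (h : ¬(x.val < m ↔ (x + 1).val < m)) : -1 - x = x + 1 := by
  have hm : 0 < m := Nat.pos_of_ne_zero (NeZero.ne m)
  have h0 : x.val < 2 * m := ZMod.val_lt x
  have h1 : (x + 1).val = if x.val + 1 = 2 * m then 0 else x.val + 1 := by
    have h1 : x + 1 = ((x.val + 1 : ℕ) : ZMod (2 * m)) := by
      push_cast
      rw [ZMod.natCast_zmod_val]
    split_ifs with h
    · rw [h1, h, ZMod.natCast_self, ZMod.val_zero]
    · rw [h1, ZMod.val_natCast_of_lt (by omega)]
  have h2 : x.val = m - 1 ∨ x.val = 2 * m - 1 := by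
    rw [h1] at h
    by_contra hc
    apply h
    split_ifs <;> omega
  have h3 : (2 : ZMod (2 * m)) * x + 2 = 0 := by
    have e : (2 : ZMod (2 * m)) * x + 2 = ((2 * x.val + 2 : ℕ) : ZMod (2 * m)) := by
      push_cast
      rw [ZMod.natCast_zmod_val]
    rw [e]
    rcases h2 with h2 | h2
    · rw [h2]
      have : 2 * (m - 1) + 2 = 2 * m := by omega
      rw [this, ZMod.natCast_self]
    · rw [h2]
      have : 2 * (2 * m - 1) + 2 = 2 * m + 2 * m := by omega
      rw [this, Nat.cast_add, ZMod.natCast_self, add_zero]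
  linear_combination -h3

lemma refl_succ (x : ZMod (2 * m)) (h : -1 - x = x + 1) : -1 - (x + 1) = x := by
  linear_combination h

variable [DecidableEq α]

/-- number of equal neighbours -/
def nb (τ : ZMod (2 * m) → α) : ℕ := ∑ x, if τ x = τ (x + 1) then 1 else 0

lemma nb_shift (τ : ZMod (2 * m) → α) (a : ZMod (2 * m)) : nb (fun x => τ (x + a)) = nb τ := by
  unfold nb
  rw [← Equiv.sum_comp (Equiv.addRight a) fun x => if τ x = τ (x + 1) then 1 else 0]
  refine Finset.sum_congr rfl fun x _ => ?_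
  have e1 : Equiv.addRight a x = x + a := rfl
  rw [e1, add_right_comm x a 1]

lemma nb_refl (τ : ZMod (2 * m) → α) :
    ∑ x, (if τ (-1 - x) = τ (-1 - (x + 1)) then 1 else 0) = nb τ := by
  unfold nb
  rw [← Equiv.sum_comp (Equiv.subLeft (-1 - 1 : ZMod (2 * m))) fun x =>
    if τ x = τ (x + 1) then 1 else 0]
  refine Finset.sum_congr rfl fun x _ => ?_
  have e1 : Equiv.subLeft (-1 - 1 : ZMod (2 * m)) x = -1 - 1 - x := rfl
  have e2 : (-1 - (x + 1) : ZMod (2 * m)) = -1 - 1 - x := by ring
  have e3 : (-1 - 1 - x + 1 : ZMod (2 * m)) = -1 - x := by ring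
  rw [e1, e2, e3]
  by_cases h : τ (-1 - x) = τ (-1 - 1 - x)
  · rw [if_pos h, if_pos h.symm]
  · rw [if_neg h, if_neg (fun h' => h h'.symm)]

lemma nb_pt (τ : ZMod (2 * m) → α) (x : ZMod (2 * m)) :
    (if τ x = τ (x + 1) then 1 else 0) + (if τ (-1 - x) = τ (-1 - (x + 1)) then 1 else 0) ≤
      (if rpp τ x = rpp τ (x + 1) then 1 else 0) + (if rpm τ x = rpm τ (x + 1) then 1 else 0) ∧
    (¬(x.val < m ↔ (x + 1).val < m) → (if rpp τ x = rpp τ (x + 1) then 1 else 0) +
      (if rpm τ x = rpm τ (x + 1) then 1 else 0) = 2) := by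
  by_cases h : (x.val < m ↔ (x + 1).val < m)
  · refine ⟨le_of_eq ?_, fun h' => absurd h h'⟩
    by_cases hx : x.val < m
    · have hx' := h.1 hx
      unfold rpp rpm
      simp only [hx, hx', if_true]
    · have hx' : ¬(x + 1).val < m := fun h' => hx (h.2 h')
      unfold rpp rpm
      simp only [hx, hx', if_false]
      rw [add_comm]
  · have e1 := cross x h
    have e2 := refl_succ x e1
    have e3 : (if rpp τ x = rpp τ (x + 1) then 1 else 0) +
        (if rpm τ x = rpm τ (x + 1) then 1 else 0) = 2 := by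
      have e4 : rpp τ x = rpp τ (x + 1) := by
        unfold rpp
        rw [e1, e2]
        by_cases hx : x.val < m
        · have hx' : ¬(x + 1).val < m := fun h' => h ⟨fun _ => h', fun _ => hx⟩
          rw [if_pos hx, if_neg hx']
        · have hx' : (x + 1).val < m := by
            by_contra h'
            exact h ⟨fun h'' => absurd h'' hx, fun h'' => absurd h'' h'⟩
          rw [if_neg hx, if_pos hx']
      have e5 : rpm τ x = rpm τ (x + 1) := by
        unfold rpm
        rw [e1, e2]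
        by_cases hx : x.val < m
        · have hx' : ¬(x + 1).val < m := fun h' => h ⟨fun _ => h', fun _ => hx⟩
          rw [if_pos hx, if_neg hx']
        · have hx' : (x + 1).val < m := by
            by_contra h'
            exact h ⟨fun h'' => absurd h'' hx, fun h'' => absurd h'' h'⟩
          rw [if_neg hx, if_pos hx']
      rw [if_pos e4, if_pos e5]
    refine ⟨?_, fun _ => e3⟩
    rw [e3]
    split_ifs <;> omega

lemma nb_le (τ : ZMod (2 * m) → α) (h : τ (-1) ≠ τ 0) : 2 * nb τ < nb (rpp τ) + nb (rpm τ) := by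
  have hm : 0 < m := Nat.pos_of_ne_zero (NeZero.ne m)
  have e : 2 * nb τ = ∑ x, ((if τ x = τ (x + 1) then 1 else 0) +
      (if τ (-1 - x) = τ (-1 - (x + 1)) then 1 else 0)) := by
    rw [Finset.sum_add_distrib, nb_refl, two_mul]
    rfl
  have e' : nb (rpp τ) + nb (rpm τ) = ∑ x, ((if rpp τ x = rpp τ (x + 1) then 1 else 0) +
      (if rpm τ x = rpm τ (x + 1) then 1 else 0)) := by
    rw [Finset.sum_add_distrib]
    rfl
  rw [e, e']
  refine Finset.sum_lt_sum (fun x _ => (nb_pt τ x).1) ⟨-1, Finset.mem_univ _, ?_⟩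
  have hcr : ¬((-1 : ZMod (2 * m)).val < m ↔ (-1 + 1 : ZMod (2 * m)).val < m) := by
    have h1 : (-1 : ZMod (2 * m)).val = 2 * m - 1 := by
      have h2 : (-1 : ZMod (2 * m)) = ((2 * m - 1 : ℕ) : ZMod (2 * m)) := by
        rw [Nat.cast_sub (by omega), ZMod.natCast_self]
        simp
      rw [h2, ZMod.val_natCast_of_lt (by omega)]
    rw [h1, neg_add_cancel, ZMod.val_zero]
    intro h3
    have := h3.2 hm
    omega
  rw [(nb_pt τ (-1)).2 hcr]
  have e1 : (-1 - -1 : ZMod (2 * m)) = 0 := by ring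
  have e2 : (-1 - (-1 + 1) : ZMod (2 * m)) = -1 := by ring
  rw [e1, e2, neg_add_cancel, if_neg h, if_neg h.symm]
  norm_num

lemma const_of_shift (τ : ZMod (2 * m) → α) (h : ∀ a, τ (a - 1) = τ a) : ∀ x, τ x = τ 0 := by
  have h1 : ∀ k : ℕ, τ (k : ZMod (2 * m)) = τ 0 := by
    intro k
    induction k with
    | zero => simp
    | succ k ih =>
      have h2 := h ((k + 1 : ℕ) : ZMod (2 * m))
      rw [← h2]
      push_cast
      rw [add_sub_cancel_right, ih]
  intro x
  have := h1 x.val
  rwa [ZMod.natCast_zmod_val] at this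

omit [DecidableEq α] in
lemma sum_paste (g : α → ℝ) (τ : ZMod (2 * m) → α) :
    ∑ x, g (rpp τ x) + ∑ x, g (rpm τ x) = 2 * ∑ x, g (τ x) := by
  have h1 : ∑ x, g (τ (-1 - x)) = ∑ x, g (τ x) :=
    Equiv.sum_comp (Equiv.subLeft (-1 : ZMod (2 * m))) fun x => g (τ x)
  have h2 : ∀ x, g (rpp τ x) + g (rpm τ x) = g (τ x) + g (τ (-1 - x)) := by
    intro x
    unfold rpp rpm
    split_ifs
    · rfl
    · rw [add_comm]
  rw [← Finset.sum_add_distrib, Finset.sum_congr rfl fun x _ => h2 x, Finset.sum_add_distrib, h1]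
  ring

/-- finitely many colours -/
lemma chess_fin [Finite α] (Φ : (ZMod (2 * m) → α) → ℝ)
    (h : ∀ τ, 2 * Φ τ ≤ Φ (rpp τ) + Φ (rpm τ)) (ht : ∀ τ a, Φ (fun x => τ (x + a)) = Φ τ)
    (τ : ZMod (2 * m) → α) : (2 * m : ℕ) * Φ τ ≤ ∑ x, Φ (fun _ => τ x) := by
  have hm : 0 < m := Nat.pos_of_ne_zero (NeZero.ne m)
  have := Fintype.ofFinite α
  have : Nonempty (ZMod (2 * m) → α) := ⟨τ⟩
  obtain ⟨Ψ, hΨ⟩ : ∃ Ψ : (ZMod (2 * m) → α) → ℝ, Ψ = fun τ =>
    (2 * m : ℕ) * Φ τ - ∑ x, Φ (fun _ => τ x) := ⟨_, rfl⟩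
  have hΨ1 : ∀ τ, 2 * Ψ τ ≤ Ψ (rpp τ) + Ψ (rpm τ) := by
    intro τ
    have h1 := sum_paste (fun c => Φ (fun _ => c)) τ
    have h2 := mul_le_mul_of_nonneg_left (h τ) (Nat.cast_nonneg (2 * m) : (0 : ℝ) ≤ (2 * m : ℕ))
    rw [hΨ]
    simp only at h1 ⊢
    linarith
  have hΨ2 : ∀ τ a, Ψ (fun x => τ (x + a)) = Ψ τ := by
    intro τ a
    rw [hΨ]
    simp only
    rw [ht]
    congr 1
    exact Equiv.sum_comp (Equiv.addRight a) fun x => Φ (fun _ => τ x)
  obtain ⟨τ₀, hτ₀⟩ := Finite.exists_max Ψ
  obtain ⟨τ₁, h1m, h1⟩ : ∃ τ₁ ∈ (Finset.univ.filter fun σ => Ψ σ = Ψ τ₀),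
      ∀ σ ∈ (Finset.univ.filter fun σ => Ψ σ = Ψ τ₀), nb σ ≤ nb τ₁ :=
    Finset.exists_max_image _ _ ⟨τ₀, by simp⟩
  rw [Finset.mem_filter] at h1m
  have hM : Ψ τ₁ = Ψ τ₀ := h1m.2
  have hconst : ∀ a, τ₁ (a - 1) = τ₁ a := by
    intro a
    by_contra hne
    obtain ⟨σ, hσ⟩ : ∃ σ : ZMod (2 * m) → α, σ = fun x => τ₁ (x + a) := ⟨_, rfl⟩
    have e1 : Ψ σ = Ψ τ₀ := by rw [hσ, hΨ2, hM]
    have e2 : nb σ = nb τ₁ := by rw [hσ, nb_shift]
    have e3 : σ (-1) ≠ σ 0 := by
      rw [hσ]
      simp only [zero_add]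
      have : (-1 + a : ZMod (2 * m)) = a - 1 := by ring
      rw [this]
      exact hne
    have e4 := nb_le σ e3
    have e5 := hΨ1 σ
    have e6 := hτ₀ (rpp σ)
    have e7 := hτ₀ (rpm σ)
    have e8 : Ψ (rpp σ) = Ψ τ₀ := by linarith
    have e9 : Ψ (rpm σ) = Ψ τ₀ := by linarith
    have e10 := h1 (rpp σ) (by simp [e8])
    have e11 := h1 (rpm σ) (by simp [e9])
    omega
  have hc := const_of_shift τ₁ hconst
  have h0 : Ψ τ₁ = 0 := by
    have : τ₁ = fun _ => τ₁ 0 := funext hc
    rw [this, hΨ]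
    simp only [Finset.sum_const, Finset.card_univ, ZMod.card, nsmul_eq_mul]
    ring
  have h2 := hτ₀ τ
  rw [← hM, h0, hΨ] at h2
  simp only at h2
  linarith

omit [DecidableEq α] in
/-- the one dimensional chessboard estimate -/
theorem chess_one (Φ : (ZMod (2 * m) → α) → ℝ)
    (h : ∀ τ, 2 * Φ τ ≤ Φ (rpp τ) + Φ (rpm τ)) (ht : ∀ τ a, Φ (fun x => τ (x + a)) = Φ τ)
    (τ : ZMod (2 * m) → α) : (2 * m : ℕ) * Φ τ ≤ ∑ x, Φ (fun _ => τ x) := by
  have h1 := chess_fin (α := ZMod (2 * m)) (fun σ => Φ (τ ∘ σ)) (fun σ => by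
    have e1 : τ ∘ rpp σ = rpp (τ ∘ σ) := by
      funext x
      unfold rpp
      simp only [Function.comp]
      split_ifs <;> rfl
    have e2 : τ ∘ rpm σ = rpm (τ ∘ σ) := by
      funext x
      unfold rpm
      simp only [Function.comp]
      split_ifs <;> rfl
    rw [e1, e2]
    exact h _) (fun σ a => ht (τ ∘ σ) a) id
  exact h1

end one

section many

variable {d m : ℕ} [NeZero m]

/-- pasting of couplings -/
def cpp (i : Fin d) (h : (Fin d → ZMod (2 * m)) → ℝ) (x : Fin d → ZMod (2 * m)) : ℝ :=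
  if (x i).val < m then h x else h (Function.update x i (-1 - x i))

/-- pasting of couplings -/
def cpm (i : Fin d) (h : (Fin d → ZMod (2 * m)) → ℝ) (x : Fin d → ZMod (2 * m)) : ℝ :=
  if (x i).val < m then h (Function.update x i (-1 - x i)) else h x

lemma chess_coord (Φ : ((Fin d → ZMod (2 * m)) → ℝ) → ℝ)
    (h : ∀ i g, 2 * Φ g ≤ Φ (cpp i g) + Φ (cpm i g)) (ht : ∀ g z, Φ (fun x => g (x + z)) = Φ g)
    (i : Fin d) (g : (Fin d → ZMod (2 * m)) → ℝ) :
    (2 * m : ℕ) * Φ g ≤ ∑ c, Φ (fun x => g (Function.update x i c)) := by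
  have h1 := chess_one (fun τ : ZMod (2 * m) → ZMod (2 * m) =>
    Φ (fun x => g (Function.update x i (τ (x i))))) (fun τ => by
      have e1 : (fun x => g (Function.update x i (rpp τ (x i)))) =
          cpp i fun x => g (Function.update x i (τ (x i))) := by
        funext x
        unfold rpp cpp
        split_ifs
        · rfl
        · simp
      have e2 : (fun x => g (Function.update x i (rpm τ (x i)))) =
          cpm i fun x => g (Function.update x i (τ (x i))) := by
        funext x
        unfold rpm cpm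
        split_ifs
        · simp
        · rfl
      rw [e1, e2]
      exact h i _) (fun τ a => by
      have e3 := ht (fun x => g (Function.update x i (τ (x i)))) (Pi.single i a)
      rw [← e3]
      congr 1
      funext x
      have e4 : (x + Pi.single i a : Fin d → ZMod (2 * m)) i = x i + a := by simp
      simp only [e4]
      congr 1
      funext k
      by_cases hk : k = i
      · subst hk; simp
      · simp [hk]) id
  simp only [id] at h1
  have e5 : (fun x : Fin d → ZMod (2 * m) => g (Function.update x i (x i))) = g := by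
    funext x
    rw [Function.update_eq_self]
  rwa [e5] at h1

/-- the chessboard estimate -/
theorem chess (Φ : ((Fin d → ZMod (2 * m)) → ℝ) → ℝ)
    (h : ∀ i g, 2 * Φ g ≤ Φ (cpp i g) + Φ (cpm i g)) (ht : ∀ g z, Φ (fun x => g (x + z)) = Φ g)
    (g : (Fin d → ZMod (2 * m)) → ℝ) :
    ((2 * m : ℕ) : ℝ) ^ d * Φ g ≤ ∑ x, Φ (fun _ => g x) := by
  classical
  have hm : 0 < m := Nat.pos_of_ne_zero (NeZero.ne m)
  have key : ∀ S : Finset (Fin d), ((2 * m : ℕ) : ℝ) ^ d * Φ g ≤
      ∑ y : Fin d → ZMod (2 * m), Φ (fun x => g (S.piecewise y x)) := by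
    intro S
    induction S using Finset.induction_on with
    | empty =>
      simp only [Finset.piecewise_empty, Finset.sum_const, Finset.card_univ, nsmul_eq_mul]
      rw [Fintype.card_pi]
      simp [ZMod.card]
    | insert i S hi ih =>
      refine ih.trans ?_
      have h1 : ∀ y : Fin d → ZMod (2 * m), ((2 * m : ℕ) : ℝ) * Φ (fun x => g (S.piecewise y x)) ≤
          ∑ c, Φ (fun x => g ((insert i S).piecewise (Function.update y i c) x)) := by
        intro y
        refine (chess_coord Φ h ht i _).trans (le_of_eq ?_)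
        refine Finset.sum_congr rfl fun c _ => ?_
        congr 1
        funext x
        congr 1
        funext k
        by_cases hk : k = i
        · subst hk
          simp [Finset.piecewise, hi]
        · by_cases hkS : k ∈ S
          · simp [Finset.piecewise, hk, hkS]
          · simp [Finset.piecewise, hk, hkS]
      have h2 := Finset.sum_le_sum fun y (_ : y ∈ (Finset.univ : Finset (Fin d → ZMod (2 * m)))) =>
        h1 y
      rw [← Finset.mul_sum] at h2
      have h3 : ∑ y : Fin d → ZMod (2 * m), ∑ c,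
          Φ (fun x => g ((insert i S).piecewise (Function.update y i c) x)) =
          ((2 * m : ℕ) : ℝ) * ∑ y : Fin d → ZMod (2 * m),
            Φ (fun x => g ((insert i S).piecewise y x)) := by
        obtain ⟨F, hF⟩ : ∃ F : (Fin d → ZMod (2 * m)) → ℝ, F = fun y =>
          Φ (fun x => g ((insert i S).piecewise y x)) := ⟨_, rfl⟩
        have h4 : ∀ y c, Φ (fun x => g ((insert i S).piecewise (Function.update y i c) x)) =
            F (Function.update y i c) := fun y c => by rw [hF]
        have h5 : ∀ y, Φ (fun x => g ((insert i S).piecewise y x)) = F y := fun y => by rw [hF]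
        simp only [h4, h5]
        have h6 : ∀ y : Fin d → ZMod (2 * m), ∑ c, F (Function.update y i c) =
            ∑ c, F (y + Pi.single i c) := by
          intro y
          rw [← Equiv.sum_comp (Equiv.addLeft (y i)) fun c => F (Function.update y i c)]
          refine Finset.sum_congr rfl fun c _ => ?_
          congr 1
          funext k
          by_cases hk : k = i
          · subst hk; simp
          · simp [hk]
        rw [Finset.sum_congr rfl fun y _ => h6 y, Finset.sum_comm]
        have h7 : ∀ c : ZMod (2 * m), ∑ y : Fin d → ZMod (2 * m), F (y + Pi.single i c) =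
            ∑ y, F y := fun c => Equiv.sum_comp
            (Equiv.addRight (Pi.single i c : Fin d → ZMod (2 * m))) F
        rw [Finset.sum_congr rfl fun c _ => h7 c, Finset.sum_const, Finset.card_univ, ZMod.card,
          nsmul_eq_mul]
      rw [h3] at h2
      exact le_of_mul_le_mul_left h2 (by positivity)
  have h1 := key Finset.univ
  simpa [Finset.piecewise_univ] using h1

end many

end

end Pool.Agent.T2H01.YM
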