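import Mathlib
import Pool.Agent.TH618.YM.SiteRP

/-!
# The energies of the unit cubes of the periodic lattice
-/

open MeasureTheory Matrix Filter
open scoped Matrix.Norms.Frobenius ContDiff Topology
open Pool.Agent.H906R3.YM hiding Pl
open Pool.Agent.W793.YM Pool.Agent.TH618.YM

namespace Pool.Agent.T2H01.YM

set_option linter.unusedSectionVars false
set_option linter.unusedVariables false

noncomputable section

variable {G : Type*} [Group G] [TopologicalSpace G] [IsTopologicalGroup G] [CompactSpace G]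
  [SecondCountableTopology G] [MeasurableSpace G] [BorelSpace G] {N n : ℕ} {L : LD G N n}

section general

variable {d l : ℕ}

/-- a vertex of the unit cube -/
def on (S : Finset (Fin d)) : Fin d → ZMod l := fun k => if k ∈ S then 1 else 0

variable (L) in
/-- the energy of the cube at `x` -/
def ce (U : Ed d l → G) (x : Fin d → ZMod l) : ℝ :=
  (1 / 2) ^ (d - 2) * ∑ i, ∑ j, if i < j then
    ∑ S ∈ (({i, j} : Finset (Fin d))ᶜ).powerset, we L (plqT U (x + on S) i j) else 0

lemma ce_congr_terms {U V : Ed d l → G} {x x' : Fin d → ZMod l}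
    (h : ∀ i j, i < j → ∑ S ∈ (({i, j} : Finset (Fin d))ᶜ).powerset, we L (plqT U (x + on S) i j) =
      ∑ S ∈ (({i, j} : Finset (Fin d))ᶜ).powerset, we L (plqT V (x' + on S) i j)) :
    ce L U x = ce L V x' := by
  unfold ce
  congr 1
  refine Finset.sum_congr rfl fun i _ => Finset.sum_congr rfl fun j _ => ?_
  split_ifs with hij
  · exact h i j hij
  · rfl

/-- a general reflection -/
lemma ce_refl (i0 : Fin d) {U V : Ed d l → G} {x x' : Fin d → ZMod l}
    (hA : ∀ (S : Finset (Fin d)) (i j : Fin d), i ≠ i0 → j ≠ i0 →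
      we L (plqT V (x + on S) i j) = we L (plqT U (x' + on (symmDiff S {i0})) i j))
    (hB : ∀ (S : Finset (Fin d)) (k : Fin d), k ≠ i0 → i0 ∉ S →
      we L (plqT V (x + on S) i0 k) = we L (plqT U (x' + on S) i0 k)) :
    ce L V x = ce L U x' := by
  refine ce_congr_terms fun i j hij => ?_
  have hmem : ∀ S : Finset (Fin d), S ∈ (({i, j} : Finset (Fin d))ᶜ).powerset ↔ i ∉ S ∧ j ∉ S := by
    intro S
    rw [Finset.mem_powerset]
    constructor
    · intro h
      exact ⟨fun hi => by simpa using h hi, fun hj => by simpa using h hj⟩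
    · rintro ⟨h1, h2⟩ k hk
      simp only [Finset.mem_compl, Finset.mem_insert, Finset.mem_singleton, not_or]
      exact ⟨fun h => h1 (h ▸ hk), fun h => h2 (h ▸ hk)⟩
  by_cases hi : i = i0
  · subst hi
    refine Finset.sum_congr rfl fun S hS => ?_
    exact hB S j hij.ne' ((hmem S).1 hS).1
  · by_cases hj : j = i0
    · subst hj
      refine Finset.sum_congr rfl fun S hS => ?_
      rw [plqT_swap V _ j i, plqT_swap U _ j i, we_inv, we_inv]
      exact hB S i hij.ne ((hmem S).1 hS).2
    · have hinv : ∀ S : Finset (Fin d), symmDiff (symmDiff S {i0}) {i0} = S := fun S => by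
        rw [symmDiff_assoc, symmDiff_self]; simp
      have hm2 : ∀ S ∈ (({i, j} : Finset (Fin d))ᶜ).powerset,
          symmDiff S {i0} ∈ (({i, j} : Finset (Fin d))ᶜ).powerset := by
        intro S hS
        rw [hmem] at hS ⊢
        simp only [Finset.mem_symmDiff, Finset.mem_singleton]
        exact ⟨by tauto, by tauto⟩
      refine Finset.sum_bij' (fun S _ => symmDiff S {i0}) (fun S _ => symmDiff S {i0}) hm2 hm2
        (fun S _ => hinv S) (fun S _ => hinv S) (fun S _ => ?_)
      exact hA S i j hi hj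

/-- dependence on the links of the slab -/
lemma ce_congr (i0 : Fin d) {U U' : Ed d l → G} {x : Fin d → ZMod l}
    (h : ∀ y k, k ≠ i0 → (y i0 = x i0 ∨ y i0 = x i0 + 1) → U (y, k) = U' (y, k))
    (h' : ∀ y, y i0 = x i0 → U (y, i0) = U' (y, i0)) : ce L U x = ce L U' x := by
  refine ce_congr_terms fun i j hij => Finset.sum_congr rfl fun S hS => ?_
  congr 1
  have hc : (x + on S : Fin d → ZMod l) i0 = x i0 ∨ (x + on S : Fin d → ZMod l) i0 = x i0 + 1 := by
    simp only [Pi.add_apply, on]
    split_ifs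
    · right; rfl
    · left; rw [add_zero]
  have hS' : i ∉ S ∧ j ∉ S := by
    rw [Finset.mem_powerset] at hS
    exact ⟨fun hi => by simpa using hS hi, fun hj => by simpa using hS hj⟩
  by_cases hi : i = i0
  · subst hi
    have h0 : (x + on S : Fin d → ZMod l) i = x i := by simp [on, hS'.1]
    have hj : j ≠ i := hij.ne'
    refine plqT_congr (h' _ h0) (h _ _ hj (Or.inr ?_)) (h' _ ?_) (h _ _ hj (Or.inl h0))
    · rw [add_same, h0]
    · rw [add_ne _ hj, h0]
  · by_cases hj : j = i0
    · subst hj
      have h0 : (x + on S : Fin d → ZMod l) j = x j := by simp [on, hS'.2]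
      refine plqT_congr (h _ _ hi (Or.inl h0)) (h' _ ?_) (h _ _ hi (Or.inr ?_)) (h' _ h0)
      · rw [add_ne _ hi, h0]
      · rw [add_same, h0]
    · refine plqT_congr (h _ _ hi hc) (h _ _ hj ?_) (h _ _ hi ?_) (h _ _ hj hc)
      · rw [add_ne _ hi]; exact hc
      · rw [add_ne _ hj]; exact hc

lemma on_insert {S : Finset (Fin d)} {i : Fin d} (hi : i ∉ S) :
    (on (insert i S) : Fin d → ZMod l) = on S + eT i := by
  funext k
  simp only [on, Pi.add_apply, eT, Finset.mem_insert]
  by_cases hk : k = i
  · subst hk; simp [hi]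
  · simp [hk]

/-- dependence on the links which start in the vertices of the cube -/
lemma ce_congr_vert {U U' : Ed d l → G} {x : Fin d → ZMod l}
    (h : ∀ (S : Finset (Fin d)) k, U (x + on S, k) = U' (x + on S, k)) : ce L U x = ce L U' x := by
  refine ce_congr_terms fun i j hij => Finset.sum_congr rfl fun S hS => ?_
  congr 1
  have hS' : i ∉ S ∧ j ∉ S := by
    rw [Finset.mem_powerset] at hS
    exact ⟨fun hi => by simpa using hS hi, fun hj => by simpa using hS hj⟩
  refine plqT_congr (h _ _) ?_ ?_ (h _ _)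
  · rw [add_assoc, ← on_insert hS'.1]; exact h _ _
  · rw [add_assoc, ← on_insert hS'.2]; exact h _ _

lemma ce_cont (x : Fin d → ZMod l) [NeZero l] : Continuous fun U : Ed d l → G => ce L U x := by
  unfold ce
  refine continuous_const.mul (continuous_finsetSum _ fun i _ => continuous_finsetSum _ fun j _ => ?_)
  split_ifs
  · exact continuous_finsetSum _ fun S _ => Sm_cont ⟨_, we_mem (L := L) _ i j⟩
  · exact continuous_const

lemma ce_gt [NeZero l] (x : Fin d → ZMod l) : GI fun U : Ed d l → G => ce L U x := by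
  intro γ U
  refine ce_congr_terms fun i j hij => Finset.sum_congr rfl fun S hS => ?_
  rw [plqT_gt, we_conj]

lemma ce_tr [NeZero l] (z : Fin d → ZMod l) (U : Ed d l → G) (x : Fin d → ZMod l) :
    ce L (tr z U) x = ce L U (x + z) := by
  refine ce_congr_terms fun i j hij => Finset.sum_congr rfl fun S hS => ?_
  rw [plqT_tr, add_right_comm]

lemma card_ps {i j : Fin d} (hij : i < j) : (({i, j} : Finset (Fin d))ᶜ).powerset.card = 2 ^ (d - 2) := by
  rw [Finset.card_powerset, Finset.card_compl, Fintype.card_fin, Finset.card_pair hij.ne]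

lemma ce_sum [NeZero l] (U : Ed d l → G) : ∑ x, ce L U x = act L U := by
  unfold ce act
  rw [← Finset.mul_sum, Finset.sum_comm, Finset.mul_sum]
  rw [Finset.sum_comm (s := (Finset.univ : Finset (Fin d → ZMod l)))]
  refine Finset.sum_congr rfl fun i _ => ?_
  rw [Finset.sum_comm, Finset.mul_sum]
  rw [Finset.sum_comm (s := (Finset.univ : Finset (Fin d → ZMod l)))]
  refine Finset.sum_congr rfl fun j _ => ?_
  split_ifs with hij
  · rw [Finset.sum_comm]
    have h1 : ∀ S ∈ (({i, j} : Finset (Fin d))ᶜ).powerset,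
        ∑ x : Fin d → ZMod l, we L (plqT U (x + on S) i j) = ∑ x, we L (plqT U x i j) := fun S _ =>
      Equiv.sum_comp (Equiv.addRight (on S : Fin d → ZMod l)) fun x => we L (plqT U x i j)
    rw [Finset.sum_congr rfl h1, Finset.sum_const, card_ps hij, nsmul_eq_mul, ← mul_assoc]
    rw [Nat.cast_pow, Nat.cast_ofNat, ← mul_pow]
    norm_num
  · simp

lemma we_le (g : G) : we L g ≤ 2 * N := by
  have h1 : (trace ((1 + L.rho g)ᴴ * (1 + L.rho g))).re = 2 * (N + (trace (L.rho g)).re) := by
    have h : (1 + L.rho g)ᴴ * (1 + L.rho g) = (1 + L.rho g) + (1 + L.rho g)ᴴ := by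
      rw [conjTranspose_add, conjTranspose_one, add_mul, mul_add, mul_add, one_mul, one_mul,
        mul_one, L.unit']
      abel
    rw [h, trace_add, Complex.add_re, trace_conjTranspose]
    simp
    ring
  have h2 : 0 ≤ (trace ((1 + L.rho g)ᴴ * (1 + L.rho g))).re := by
    rw [← sum_co_sq]
    exact Finset.sum_nonneg fun _ _ => sq_nonneg _
  rw [we_tr]
  linarith

lemma ce_nonneg (U : Ed d l → G) (x : Fin d → ZMod l) : 0 ≤ ce L U x := by
  unfold ce
  refine mul_nonneg (by positivity) (Finset.sum_nonneg fun i _ => Finset.sum_nonneg fun j _ => ?_)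
  split_ifs
  · exact Finset.sum_nonneg fun S _ => we_nonneg _
  · exact le_rfl

lemma card_lt : ∑ i : Fin d, ∑ j : Fin d, (if i < j then (1 : ℝ) else 0) = d * (d - 1) / 2 := by
  have h1 : ∑ i : Fin d, ∑ j : Fin d, (if i < j then (1 : ℝ) else 0) =
      ∑ i : Fin d, ∑ j : Fin d, (if j < i then (1 : ℝ) else 0) := Finset.sum_comm
  have h2 : ∀ i j : Fin d, (if i < j then (1 : ℝ) else 0) + (if j < i then (1 : ℝ) else 0) =
      1 - if i = j then 1 else 0 := by
    intro i j
    rcases lt_trichotomy i j with h | h | h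
    · simp [h, h.ne, not_lt.2 h.le]
    · simp [h]
    · simp [h, h.ne', not_lt.2 h.le]
  have h3 : ∑ i : Fin d, ∑ j : Fin d, ((if i < j then (1 : ℝ) else 0) +
      (if j < i then (1 : ℝ) else 0)) = d * (d - 1) := by
    simp only [h2, Finset.sum_sub_distrib]
    simp
    ring
  simp only [Finset.sum_add_distrib] at h3
  rw [← h1] at h3
  linarith

lemma ce_le (U : Ed d l → G) (x : Fin d → ZMod l) : ce L U x ≤ N * (d * (d - 1)) := by
  unfold ce
  have h1 : ∑ i, ∑ j, (if i < j then
      ∑ S ∈ (({i, j} : Finset (Fin d))ᶜ).powerset, we L (plqT U (x + on S) i j) else 0) ≤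
      ∑ i : Fin d, ∑ j : Fin d, 2 ^ (d - 2) * (2 * N) * (if i < j then (1 : ℝ) else 0) := by
    refine Finset.sum_le_sum fun i _ => Finset.sum_le_sum fun j _ => ?_
    split_ifs with hij
    · rw [mul_one]
      calc _ ≤ ∑ S ∈ (({i, j} : Finset (Fin d))ᶜ).powerset, (2 * N : ℝ) :=
            Finset.sum_le_sum fun S _ => we_le _
        _ = _ := by
            rw [Finset.sum_const, card_ps hij, nsmul_eq_mul]
            push_cast; ring
    · simp
  refine (mul_le_mul_of_nonneg_left h1 (by positivity)).trans (le_of_eq ?_)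
  simp only [← Finset.mul_sum]
  rw [card_lt, ← mul_assoc, ← mul_assoc, ← mul_pow]
  norm_num
  ring

end general

/-! ### reflections -/

section refl

variable {d m : ℕ} [NeZero m] {hm : 2 ≤ m} {i0 : Fin d}

lemma ce_sU (U : Ed d (2 * m) → G) (x : Fin d → ZMod (2 * m)) :
    ce L ((SR hm i0).tU U) x = ce L U (rC i0 x) := by
  refine ce_refl i0 (fun S i j hi hj => ?_) (fun S k hk hS => ?_)
  · rw [plqT_sA _ _ hi hj]
    congr 2
    funext k
    by_cases h : k = i0
    · subst h
      simp only [rB, rC, on, Pi.add_apply, Function.update_self, Finset.mem_symmDiff,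
        Finset.mem_singleton]
      by_cases hS : k ∈ S
      · simp [hS]; ring
      · simp [hS]; ring
    · simp [rB, rC, on, h, Finset.mem_symmDiff]
  · rw [we_plqT_sB _ _ hk]
    congr 2
    funext j
    by_cases h : j = i0
    · subst h
      simp [rC, on, hS]
    · simp [rC, on, h]

lemma ce_tU (U : Ed d (2 * m) → G) (x : Fin d → ZMod (2 * m)) :
    ce L ((TR hm i0).tU U) x = ce L U (rB i0 x) := by
  refine ce_refl i0 (fun S i j hi hj => ?_) (fun S k hk hS => ?_)
  · rw [plqT_A _ _ hi hj]
    congr 2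
    funext k
    by_cases h : k = i0
    · subst h
      simp only [rB, rA, on, Pi.add_apply, Function.update_self, Finset.mem_symmDiff,
        Finset.mem_singleton]
      by_cases hS : k ∈ S
      · simp [hS]
      · simp [hS]; ring
    · simp [rB, rA, on, h, Finset.mem_symmDiff]
  · rw [we_plqT_B _ _ hk]
    congr 2
    funext j
    by_cases h : j = i0
    · subst h
      simp [rB, on, hS]
    · simp [rB, on, h]

lemma ce_HQ {x : Fin d → ZMod (2 * m)} (hx : (x i0).val < m) :
    Dep (HQ i0) fun U : Ed d (2 * m) → G => ce L U x := by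
  intro U U' h
  refine ce_congr i0 (fun y k hk hy => h _ ?_) (fun y hy => h _ ?_)
  · unfold HQ
    rw [if_neg hk]
    show (y i0).val ≤ m
    rcases hy with hy | hy
    · rw [hy]; exact hx.le
    · rw [hy, val_add_one']
      split_ifs <;> omega
  · unfold HQ
    rw [if_pos rfl]
    show (y i0).val < m
    rw [hy]; exact hx

lemma ce_TRdep {x : Fin d → ZMod (2 * m)} (hx : H2 m (x i0)) :
    Dep (TR hm i0).R fun U : Ed d (2 * m) → G => ce L U x := by
  intro U U' h
  refine ce_congr i0 (fun y k hk hy => h _ ?_) (fun y hy => h _ ?_)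
  · show if k = i0 then _ else _
    rw [if_neg hk]
    show H1 m (y i0)
    rcases hy with hy | hy
    · rw [hy]; exact (H2_H1 hm hx).1
    · rw [hy]; exact (H2_H1 hm hx).2
  · show if i0 = i0 then _ else _
    rw [if_pos rfl]
    show H2 m (y i0)
    rw [hy]
    exact hx

lemma ce_fix {x : Fin d → ZMod (2 * m)} (hx : ¬(x i0 = 0 ∨ x i0 = (m : ZMod (2 * m))))
    (U : Ed d (2 * m) → G) : ce L (fix i0 U) x = ce L U x :=
  ce_congr i0 (fun y k hk _ => fix_ne _ _ hk) (fun y hy => fix_i0 _ _ (by rw [hy]; exact hx))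

end refl

end

end Pool.Agent.T2H01.YM
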