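import Mathlib
import Pool.Agent.T2H01.YM.Chess
import Pool.Agent.T2H01.YM.Cube
import Pool.Agent.W793.YM.Char

/-!
# The pressure of the periodic lattice and the chessboard estimate
-/

open MeasureTheory Matrix Filter
open scoped Matrix.Norms.Frobenius ContDiff Topology
open Pool.Agent.H906R3.YM hiding Pl
open Pool.Agent.W793.YM Pool.Agent.TH618.YM

namespace Pool.Agent.T2H01.YM

set_option linter.unusedSectionVars false
set_option linter.unusedVariables false

noncomputable section

variable {G : Type*} [Group G] [TopologicalSpace G] [IsTopologicalGroup G] [CompactSpace G]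
  [SecondCountableTopology G] [MeasurableSpace G] [BorelSpace G] (μ : Measure G)
  [IsProbabilityMeasure μ] [μ.IsMulLeftInvariant] [μ.IsMulRightInvariant] [μ.IsInvInvariant]
  {N n : ℕ} {L : LD G N n}

section general

variable {d l : ℕ} [NeZero l]

variable (L) in
/-- the partition function with a coupling for every cube -/
def Zh (h : (Fin d → ZMod l) → ℝ) : ℝ :=
  ∫ U : Ed d l → G, Real.exp (-(∑ x, h x * ce L U x)) ∂(ME μ (Ed d l))

lemma Zh_cont (h : (Fin d → ZMod l) → ℝ) :
    Continuous fun U : Ed d l → G => Real.exp (-(∑ x, h x * ce L U x)) :=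
  Real.continuous_exp.comp (continuous_finsetSum _ fun x _ =>
    continuous_const.mul (ce_cont x)).neg

lemma Zh_pos (h : (Fin d → ZMod l) → ℝ) : 0 < Zh μ L h := by
  unfold Zh
  exact integral_exp_pos (integrable_cont μ (Zh_cont h))

lemma Zh_const (b : ℝ) : Zh μ L (fun _ : Fin d → ZMod l => b) =
    Zt μ L b (fun _ : Ed d l → G => 1) := by
  unfold Zh Zt
  refine integral_congr_ae (Filter.Eventually.of_forall fun U => ?_)
  simp only
  rw [← Finset.mul_sum, ce_sum, one_mul]

lemma Zh_tr (h : (Fin d → ZMod l) → ℝ) (z : Fin d → ZMod l) :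
    Zh μ L (fun x => h (x + z)) = Zh μ L h := by
  unfold Zh
  rw [← integral_tr μ z (fun U : Ed d l → G => Real.exp (-(∑ x, h (x + z) * ce L U x)))]
  refine integral_congr_ae (Filter.Eventually.of_forall fun U => ?_)
  simp only [ce_tr]
  congr 2
  exact Equiv.sum_comp (Equiv.addRight z) fun x => h x * ce L U x

variable (L d l) in
/-- the pressure -/
def pr (b : ℝ) : ℝ := Real.log (Zh μ L (fun _ : Fin d → ZMod l => b)) / (l : ℝ) ^ d

lemma log_Zh (b : ℝ) : Real.log (Zh μ L (fun _ : Fin d → ZMod l => b)) =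
    (l : ℝ) ^ d * pr μ L d l b := by
  unfold pr
  have : (l : ℝ) ≠ 0 := by exact_mod_cast NeZero.ne l
  field_simp

variable (L) in
/-- the energy of a cube -/
def en (d l : ℕ) [NeZero l] (b : ℝ) : ℝ := EX μ L b (fun U : Ed d l → G => ce L U 0)

lemma EX_ce (b : ℝ) (x : Fin d → ZMod l) :
    EX μ L b (fun U : Ed d l → G => ce L U x) = en μ L d l b := by
  have h := EX_tr μ (L := L) (β := b) x (fun U : Ed d l → G => ce L U 0)
  simp only [ce_tr, zero_add] at h
  exact h

lemma EX_act (b : ℝ) : EX μ L b (fun U : Ed d l → G => act L U) =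
    (l : ℝ) ^ d * en μ L d l b := by
  have h : (fun U : Ed d l → G => act L U) = fun U => ∑ x, ce L U x := by
    funext U; rw [ce_sum]
  rw [h, EX_sum μ _ fun x _ => ce_cont x]
  simp only [EX_ce, Finset.sum_const, Finset.card_univ, nsmul_eq_mul]
  rw [Fintype.card_pi]
  simp [ZMod.card]

/-- tangents of the pressure -/
lemma pr_tangent (b s : ℝ) : pr μ L d l b - s * en μ L d l b ≤ pr μ L d l (b + s) := by
  have hl : (0 : ℝ) < (l : ℝ) ^ d := by
    have : (0 : ℝ) < l := by exact_mod_cast Nat.pos_of_ne_zero (NeZero.ne l)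
    positivity
  obtain ⟨a, ha⟩ : ∃ a, a = (l : ℝ) ^ d * en μ L d l b := ⟨_, rfl⟩
  have h1 : Real.exp (-(s * a)) * Zt μ L b (fun _ : Ed d l → G => 1) ≤
      Zt μ L (b + s) (fun _ : Ed d l → G => 1) := by
    have e1 : Zt μ L (b + s) (fun _ : Ed d l → G => 1) =
        Zt μ L b (fun U : Ed d l → G => Real.exp (-(s * act L U))) := by
      unfold Zt
      refine integral_congr_ae (Filter.Eventually.of_forall fun U => ?_)
      simp only
      rw [one_mul, ← Real.exp_add]
      congr 1; ring
    have c1 : Continuous fun U : Ed d l → G => Real.exp (-(s * act L U)) :=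
      Real.continuous_exp.comp (continuous_const.mul act_cont).neg
    have c2 : Continuous fun U : Ed d l → G => (-(Real.exp (-(s * a)) * s)) * act L U :=
      continuous_const.mul act_cont
    have c3 : Continuous fun U : Ed d l → G => Real.exp (-(s * a)) * (1 + s * a) +
      (-(Real.exp (-(s * a)) * s)) * act L U := continuous_const.add c2
    have h2 : ∀ U : Ed d l → G, Real.exp (-(s * a)) * (1 + s * a) +
        (-(Real.exp (-(s * a)) * s)) * act L U ≤ Real.exp (-(s * act L U)) := by
      intro U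
      have h3 := Real.add_one_le_exp (-(s * (act L U - a)))
      have h4 := mul_le_mul_of_nonneg_left h3 (Real.exp_pos (-(s * a))).le
      rw [← Real.exp_add] at h4
      have e2 : -(s * a) + -(s * (act L U - a)) = -(s * act L U) := by ring
      rw [e2] at h4
      refine le_trans (le_of_eq ?_) h4
      ring
    have h5 := EX_mono μ (L := L) (β := b) c3 c1 h2
    rw [EX_add μ continuous_const c2, EX_const, EX_smul, EX_act, ← ha] at h5
    have h6 : Real.exp (-(s * a)) * (1 + s * a) + -(Real.exp (-(s * a)) * s) * a =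
        Real.exp (-(s * a)) := by ring
    rw [h6] at h5
    unfold EX at h5
    rw [le_div_iff₀ (Zt_pos μ b)] at h5
    rw [e1]
    exact h5
  have h2 : Real.log (Real.exp (-(s * a)) * Zt μ L b (fun _ : Ed d l → G => 1)) ≤
      Real.log (Zt μ L (b + s) (fun _ : Ed d l → G => 1)) :=
    Real.log_le_log (mul_pos (Real.exp_pos _) (Zt_pos μ b)) h1
  rw [Real.log_mul (Real.exp_pos _).ne' (Zt_pos μ b).ne', Real.log_exp, ← Zh_const, ← Zh_const,
    log_Zh, log_Zh, ha] at h2
  have h3 : (l : ℝ) ^ d * (pr μ L d l b - s * en μ L d l b) ≤ (l : ℝ) ^ d * pr μ L d l (b + s) := by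
    linarith
  exact le_of_mul_le_mul_left h3 hl

lemma pr_convex : ConvexOn ℝ Set.univ (pr μ L d l) := by
  refine ⟨convex_univ, fun x _ y _ a b ha hb hab => ?_⟩
  simp only [smul_eq_mul]
  obtain ⟨z, hz⟩ : ∃ z, z = a * x + b * y := ⟨_, rfl⟩
  have h1 := pr_tangent μ (L := L) (d := d) (l := l) z (x - z)
  have h2 := pr_tangent μ (L := L) (d := d) (l := l) z (y - z)
  rw [add_sub_cancel] at h1 h2
  rw [← hz]
  have h3 := mul_le_mul_of_nonneg_left h1 ha
  have h4 := mul_le_mul_of_nonneg_left h2 hb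
  have h5 : a * (x - z) + b * (y - z) = 0 := by
    rw [hz]
    have : b = 1 - a := by linarith
    rw [this]; ring
  have h6 : a * (pr μ L d l z - (x - z) * en μ L d l z) + b * (pr μ L d l z - (y - z) *
      en μ L d l z) = pr μ L d l z := by
    have : a * (pr μ L d l z - (x - z) * en μ L d l z) + b * (pr μ L d l z - (y - z) *
      en μ L d l z) = (a + b) * pr μ L d l z - (a * (x - z) + b * (y - z)) * en μ L d l z := by ring
    rw [this, hab, h5]; ring
  linarith

lemma en_nonneg (b : ℝ) : 0 ≤ en μ L d l b := EX_nonneg μ fun U => ce_nonneg U 0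

lemma en_le (b : ℝ) : en μ L d l b ≤ N * (d * (d - 1)) := by
  have h := EX_mono μ (L := L) (β := b) (ce_cont (L := L) (0 : Fin d → ZMod l)) continuous_const
    fun U => ce_le U 0
  rwa [EX_const] at h

lemma pr_zero : pr μ L d l 0 = 0 := by
  unfold pr Zh
  simp

end general

section chess

variable {d m : ℕ} [NeZero m]

lemma Zh_rp (hm : 2 ≤ m) (i0 : Fin d) (h : (Fin d → ZMod (2 * m)) → ℝ) :
    Zh μ L h ^ 2 ≤ Zh μ L (cpp i0 h) * Zh μ L (cpm i0 h) := by
  obtain ⟨A, hA⟩ : ∃ A : ((Fin d → ZMod (2 * m)) → ℝ) → (Ed d (2 * m) → G) → ℝ,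
    A = fun h U => ∑ x, if (x i0).val < m then h x * ce L U x else 0 := ⟨_, rfl⟩
  have hAc : ∀ h, Continuous (A h) := fun h => by
    rw [hA]
    refine continuous_finsetSum _ fun x _ => ?_
    split_ifs
    · exact continuous_const.mul (ce_cont x)
    · exact continuous_const
  have hAd : ∀ h, Dep (HQ i0) (A h) := fun h U U' hU => by
    rw [hA]
    refine Finset.sum_congr rfl fun x _ => ?_
    split_ifs with hx
    · have h1 : ce L U x = ce L U' x := ce_HQ (L := L) hx U U' hU
      rw [h1]
    · rfl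
  have hAθ : ∀ h U, A h ((SR hm i0).tU U) =
      ∑ x, if (x i0).val < m then 0 else h (rC i0 x) * ce L U x := by
    intro h U
    rw [hA]
    simp only
    rw [← Equiv.sum_comp (eC (m := m) i0)]
    refine Finset.sum_congr rfl fun x _ => ?_
    have h1 : eC (m := m) i0 x = rC i0 x := rfl
    rw [h1, ce_sU, rC_rC, rC_same]
    by_cases hx : (x i0).val < m
    · have h2 : ¬(-1 - x i0).val < m := fun h' => (H3_neg (x i0)).1 h' hx
      rw [if_pos hx, if_neg h2]
    · have h2 : (-1 - x i0).val < m := (H3_neg (x i0)).2 hx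
      rw [if_neg hx, if_pos h2]
  obtain ⟨f, hf⟩ : ∃ f : ((Fin d → ZMod (2 * m)) → ℝ) → (Ed d (2 * m) → G) → ℝ,
    f = fun h U => Real.exp (-(A h U)) := ⟨_, rfl⟩
  have hfc : ∀ h, Continuous (f h) := fun h => by
    rw [hf]; exact Real.continuous_exp.comp (hAc h).neg
  have hfd : ∀ h, Dep (fun e => PP i0 e ∨ (SR hm i0).R e) (f h) := fun h => by
    rw [hf]
    refine Dep_HQ hm fun U U' hU => ?_
    simp only
    rw [hAd h U U' hU]
  have key : ∀ h h', SB μ (SR hm i0) (f h) (f h') =
      Zh μ L (fun x => if (x i0).val < m then h x else h' (rC i0 x)) := by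
    intro h h'
    unfold SB Zh
    refine integral_congr_ae (Filter.Eventually.of_forall fun U => ?_)
    simp only
    rw [hf]
    simp only
    rw [← Real.exp_add, hAθ, hA]
    simp only
    rw [← neg_add, ← Finset.sum_add_distrib]
    congr 2
    refine Finset.sum_congr rfl fun x _ => ?_
    split_ifs <;> ring
  have e1 := key h (fun x => h (rC i0 x))
  have e2 := key h h
  have e3 := key (fun x => h (rC i0 x)) (fun x => h (rC i0 x))
  simp only [rC_rC] at e1 e3
  have e4 : (fun x : Fin d → ZMod (2 * m) => if (x i0).val < m then h x else h x) = h := by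
    funext x; split_ifs <;> rfl
  rw [e4] at e1
  have cs : SB μ (SR hm i0) (f h) (f (fun x => h (rC i0 x))) ^ 2 ≤
      SB μ (SR hm i0) (f h) (f h) * SB μ (SR hm i0) (f (fun x => h (rC i0 x)))
        (f (fun x => h (rC i0 x))) :=
    Pool.Agent.H906R3.YM.sq_le_of_forall fun t =>
      SB_quad μ (SR hm i0) (PP i0) PP_fix PP_th (hfc _) (hfd _) (hfc _) (hfd _) t
  rw [e1, e2, e3] at cs
  exact cs

theorem Zh_chess (hm : 2 ≤ m) (h : (Fin d → ZMod (2 * m)) → ℝ) :
    Real.log (Zh μ L h) ≤ ∑ x, pr μ L d (2 * m) (h x) := by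
  have hl : (0 : ℝ) < ((2 * m : ℕ) : ℝ) ^ d := by
    have : (0 : ℝ) < ((2 * m : ℕ) : ℝ) := by
      exact_mod_cast Nat.pos_of_ne_zero (NeZero.ne (2 * m))
    positivity
  have h1 := chess (fun h => Real.log (Zh μ L h)) (fun i g => by
    have h2 := Real.log_le_log (pow_pos (Zh_pos μ g) 2) (Zh_rp μ (L := L) hm i g)
    rw [Real.log_pow, Real.log_mul (Zh_pos μ _).ne' (Zh_pos μ _).ne'] at h2
    exact_mod_cast h2) (fun g z => by simp only [Zh_tr]) h
  simp only [log_Zh] at h1
  rw [← Finset.mul_sum] at h1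
  exact le_of_mul_le_mul_left h1 hl

/-- the chessboard estimate for the exponential moments -/
theorem EX_chess (hm : 2 ≤ m) (b : ℝ) (h : (Fin d → ZMod (2 * m)) → ℝ) :
    EX μ L b (fun U : Ed d (2 * m) → G => Real.exp (∑ x, h x * ce L U x)) ≤
      Real.exp (∑ x, (pr μ L d (2 * m) (b - h x) - pr μ L d (2 * m) b)) := by
  have e1 : Zt μ L b (fun U : Ed d (2 * m) → G => Real.exp (∑ x, h x * ce L U x)) =
      Zh μ L (fun x : Fin d → ZMod (2 * m) => b - h x) := by
    unfold Zt Zh
    refine integral_congr_ae (Filter.Eventually.of_forall fun U => ?_)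
    simp only
    rw [← Real.exp_add, ← ce_sum, Finset.mul_sum, ← Finset.sum_neg_distrib,
      ← Finset.sum_add_distrib, ← Finset.sum_neg_distrib]
    congr 1
    refine Finset.sum_congr rfl fun x _ => ?_
    ring
  unfold EX
  rw [e1, ← Zh_const, ← Real.exp_log (Zh_pos μ (L := L) (fun x : Fin d → ZMod (2 * m) => b - h x)),
    ← Real.exp_log (Zh_pos μ (L := L) (fun _ : Fin d → ZMod (2 * m) => b)), ← Real.exp_sub]
  refine Real.exp_le_exp.2 ?_
  have h1 := Zh_chess μ (L := L) hm (fun x : Fin d → ZMod (2 * m) => b - h x)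
  rw [Finset.sum_sub_distrib, log_Zh]
  have h2 : ∑ _x : Fin d → ZMod (2 * m), pr μ L d (2 * m) b =
      ((2 * m : ℕ) : ℝ) ^ d * pr μ L d (2 * m) b := by
    rw [Finset.sum_const, Finset.card_univ, nsmul_eq_mul, Fintype.card_pi]
    simp [ZMod.card]
  rw [h2]
  linarith

end chess

end

end Pool.Agent.T2H01.YM
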