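import Mathlib

/-!
# Selection of coordinates in product spaces; sequences
-/

open MeasureTheory Filter
open scoped Topology

namespace Pool.Agent.T2H01.YM

noncomputable section

section sel

variable {E E' G : Type*} [Fintype E] [Fintype E'] [MeasurableSpace G] (μ : Measure G)
  [IsProbabilityMeasure μ]

lemma mp_sel {ι : E' → E} (hι : Function.Injective ι) :
    MeasurePreserving (fun (U : E → G) (e : E') => U (ι e)) (Measure.pi fun _ => μ)
      (Measure.pi fun _ => μ) := by
  classical
  have hmeas : Measurable fun (U : E → G) (e : E') => U (ι e) :=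
    measurable_pi_lambda _ fun e => measurable_pi_apply _
  refine ⟨hmeas, ?_⟩
  symm
  refine Measure.pi_eq fun s hs => ?_
  rw [Measure.map_apply hmeas (MeasurableSet.univ_pi hs)]
  obtain ⟨t, ht⟩ : ∃ t : E → Set G, t = fun e => if h : ∃ e', ι e' = e then s h.choose else Set.univ :=
    ⟨_, rfl⟩
  have h1 : ∀ e', t (ι e') = s e' := by
    intro e'
    have h : ∃ e'', ι e'' = ι e' := ⟨e', rfl⟩
    rw [ht]
    simp only
    rw [dif_pos h, hι h.choose_spec]
  have h2 : ∀ e, (¬∃ e', ι e' = e) → t e = Set.univ := fun e h => by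
    rw [ht]
    simp only
    rw [dif_neg h]
  have h3 : (fun (U : E → G) (e : E') => U (ι e)) ⁻¹' Set.univ.pi s = Set.univ.pi t := by
    ext U
    simp only [Set.mem_preimage, Set.mem_univ_pi]
    constructor
    · intro h e
      by_cases he : ∃ e', ι e' = e
      · obtain ⟨e', rfl⟩ := he
        rw [h1]; exact h e'
      · rw [h2 e he]; trivial
    · intro h e'
      rw [← h1]; exact h (ι e')
  rw [h3, Measure.pi_pi]
  have h4 : ∏ e ∈ Finset.univ.image ι, μ (t e) = ∏ e, μ (t e) := by
    refine Finset.prod_subset (Finset.subset_univ _) fun e _ he => ?_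
    rw [h2 e, measure_univ]
    rintro ⟨e', rfl⟩
    exact he (Finset.mem_image_of_mem _ (Finset.mem_univ _))
  rw [← h4, Finset.prod_image fun a _ b _ h => hι h]
  exact Finset.prod_congr rfl fun e' _ => by rw [h1]

variable [TopologicalSpace G] [SecondCountableTopology G] [BorelSpace G]

lemma integral_sel {ι : E' → E} (hι : Function.Injective ι) {F : (E' → G) → ℝ}
    (hF : Continuous F) :
    ∫ U : E → G, F (fun e => U (ι e)) ∂(Measure.pi fun _ => μ) =
      ∫ u, F u ∂(Measure.pi fun _ => μ) := by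
  have h := mp_sel μ hι
  rw [← h.map_eq, integral_map h.measurable.aemeasurable hF.aestronglyMeasurable]

end sel

/-- sequences with good approximations converge -/
lemma tendsto_of_approx {f a e : ℕ → ℝ} (he : Tendsto e atTop (𝓝 0))
    (h : ∀ n, 1 ≤ n → ∀ ε, 0 < ε → ∀ᶠ l in atTop, |f l - a n| ≤ e n + ε) :
    ∃ c, Tendsto f atTop (𝓝 c) := by
  refine cauchySeq_tendsto_of_complete ?_
  rw [Metric.cauchySeq_iff]
  intro ε hε
  have h1 : ∀ᶠ n in atTop, e n < ε / 8 := he.eventually_lt_const (by positivity)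
  obtain ⟨n, hn1, hn2⟩ := (h1.and (eventually_ge_atTop 1)).exists
  obtain ⟨l0, hl0⟩ := eventually_atTop.1 (h n hn2 (ε / 8) (by positivity))
  refine ⟨l0, fun k hk l hl => ?_⟩
  have e1 := hl0 k hk
  have e2 := hl0 l hl
  rw [Real.dist_eq]
  rw [abs_le] at e1 e2
  rw [abs_lt]
  constructor <;> linarith [e1.1, e1.2, e2.1, e2.2]

/-- `⌊l / (n + 1)⌋ / l` -/
lemma tendsto_div (n : ℕ) : Tendsto (fun l : ℕ => ((l / (n + 1) : ℕ) : ℝ) / l) atTop
    (𝓝 (1 / (n + 1))) := by
  have h1 := (tendsto_nat_floor_mul_div_atTop (R := ℝ) (a := 1 / ((n : ℝ) + 1))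
    (by positivity)).comp tendsto_natCast_atTop_atTop
  refine h1.congr fun l => ?_
  simp only [Function.comp]
  congr 2
  have h2 : 1 / ((n : ℝ) + 1) * l = (l : ℝ) / ((n + 1 : ℕ) : ℝ) := by
    push_cast; field_simp
  rw [h2, Nat.floor_div_natCast, Nat.floor_natCast]

end

end Pool.Agent.T2H01.YM
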