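import Mathlib
import Pool.Agent.T2H01.YM.Sel
import Pool.Agent.T2H01.YM.Press

/-!
# The thermodynamic limit of the pressure
-/

open MeasureTheory Matrix Filter
open scoped Matrix.Norms.Frobenius ContDiff Topology
open Pool.Agent.H906R3.YM hiding Pl
open Pool.Agent.W793.YM Pool.Agent.TH618.YM

namespace Pool.Agent.T2H01.YM

set_option linter.unusedSectionVars false
set_option linter.unusedVariables false

noncomputable section

/-- links of the lattice `ℤ^d` -/
abbrev LZ (d : ℕ) := (Fin d → ℤ) × Fin d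

section Z

variable {G : Type*} [Group G] [TopologicalSpace G] [IsTopologicalGroup G] [CompactSpace G]
  [SecondCountableTopology G] [MeasurableSpace G] [BorelSpace G] {N n : ℕ} {L : LD G N n}
  {d l : ℕ}

/-- plaquette variables on `ℤ^d` -/
def plZ (V : LZ d → G) (x : Fin d → ℤ) (i j : Fin d) : G :=
  V (x, i) * V (x + Pi.single i 1, j) * (V (x + Pi.single j 1, i))⁻¹ * (V (x, j))⁻¹

/-- a vertex of the unit cube -/
def onZ (S : Finset (Fin d)) : Fin d → ℤ := fun k => if k ∈ S then 1 else 0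

variable (L) in
/-- the energy of the cube at `x` -/
def cz (V : LZ d → G) (x : Fin d → ℤ) : ℝ :=
  (1 / 2) ^ (d - 2) * ∑ i, ∑ j, if i < j then
    ∑ S ∈ (({i, j} : Finset (Fin d))ᶜ).powerset, we L (plZ V (x + onZ S) i j) else 0

/-- the periodic extension -/
def pe (U : Ed d l → G) : LZ d → G := fun e => U (fun i => (e.1 i : ZMod l), e.2)

/-- casts of lattice points -/
def cs (l : ℕ) (x : Fin d → ℤ) : Fin d → ZMod l := fun i => (x i : ZMod l)

lemma cs_add (x y : Fin d → ℤ) : cs l (x + y) = cs l x + cs l y := by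
  funext i; simp [cs]

lemma cs_single (i : Fin d) : cs l (Pi.single i 1) = eT i := by
  funext k
  by_cases h : k = i
  · subst h; simp [cs, eT]
  · simp [cs, eT, h]

lemma cs_on (S : Finset (Fin d)) : cs l (onZ S) = on S := by
  funext k
  unfold cs onZ on
  split_ifs <;> simp

lemma pe_apply (U : Ed d l → G) (x : Fin d → ℤ) (i : Fin d) : pe U (x, i) = U (cs l x, i) := rfl

lemma pe_cont : Continuous (pe (G := G) (d := d) (l := l)) := by
  refine continuous_pi fun e => ?_
  exact (continuous_apply ((fun i => (e.1 i : ZMod l)), e.2) :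
    Continuous fun U : Ed d l → G => U ((fun i => (e.1 i : ZMod l)), e.2))

lemma plZ_pe (U : Ed d l → G) (x : Fin d → ℤ) (i j : Fin d) :
    plZ (pe U) x i j = plqT U (cs l x) i j := by
  unfold plZ plqT
  rw [pe_apply, pe_apply, pe_apply, pe_apply, cs_add, cs_add, cs_single, cs_single]

lemma cz_pe (U : Ed d l → G) (x : Fin d → ℤ) : cz L (pe U) x = ce L U (cs l x) := by
  unfold cz ce
  simp only [plZ_pe, cs_add, cs_on]

lemma plZ_cont (x : Fin d → ℤ) (i j : Fin d) : Continuous fun V : LZ d → G => plZ V x i j := by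
  have h : ∀ e, Continuous fun V : LZ d → G => V e := fun e => continuous_apply e
  unfold plZ
  exact (((h _).mul (h _)).mul (h _).inv).mul (h _).inv

lemma cz_cont (x : Fin d → ℤ) : Continuous fun V : LZ d → G => cz L V x := by
  unfold cz
  refine continuous_const.mul (continuous_finsetSum _ fun i _ => continuous_finsetSum _ fun j _ => ?_)
  split_ifs
  · exact continuous_finsetSum _ fun S _ => we_cont.comp (plZ_cont _ i j)
  · exact continuous_const

lemma onZ_insert {S : Finset (Fin d)} {i : Fin d} (hi : i ∉ S) :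
    (onZ (insert i S) : Fin d → ℤ) = onZ S + Pi.single i 1 := by
  funext k
  simp only [onZ, Pi.add_apply, Finset.mem_insert]
  by_cases hk : k = i
  · subst hk; simp [hi]
  · simp [hk]

/-- dependence on the links which start in the vertices of the cube -/
lemma cz_congr {V V' : LZ d → G} {x : Fin d → ℤ}
    (h : ∀ (S : Finset (Fin d)) k, V (x + onZ S, k) = V' (x + onZ S, k)) : cz L V x = cz L V' x := by
  unfold cz
  congr 1
  refine Finset.sum_congr rfl fun i _ => Finset.sum_congr rfl fun j _ => ?_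
  split_ifs with hij
  · refine Finset.sum_congr rfl fun S hS => ?_
    congr 1
    have hS' : i ∉ S ∧ j ∉ S := by
      rw [Finset.mem_powerset] at hS
      exact ⟨fun hi => by simpa using hS hi, fun hj => by simpa using hS hj⟩
    unfold plZ
    rw [h S i, h S j, add_assoc, ← onZ_insert hS'.1, add_assoc, ← onZ_insert hS'.2,
      h (insert i S) j, h (insert j S) i]
  · rfl

end Z

variable {G : Type*} [Group G] [TopologicalSpace G] [IsTopologicalGroup G] [CompactSpace G]
  [SecondCountableTopology G] [MeasurableSpace G] [BorelSpace G] (μ : Measure G)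
  [IsProbabilityMeasure μ] [μ.IsMulLeftInvariant] [μ.IsMulRightInvariant] [μ.IsInvInvariant]
  {N n : ℕ} {L : LD G N n}

section box

variable {d l k K : ℕ}

/-- links of a box -/
abbrev BL (d k : ℕ) := (Fin d → Fin (k + 1)) × Fin d

/-- extension of a configuration of the box -/
def bx (u : BL d k → G) : LZ d → G := fun e =>
  if h : ∀ i, 0 ≤ e.1 i ∧ e.1 i < k + 1 then
    u (fun i => ⟨(e.1 i).toNat, by have := h i; omega⟩, e.2) else 1

/-- the links of the box on the periodic lattice -/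
def ib (l : ℕ) (e : BL d k) : Ed d l := (fun i => ((e.1 i : ℕ) : ZMod l), e.2)

lemma ib_inj (hk : k < l) : Function.Injective (ib (d := d) (k := k) l) := by
  intro e e' h
  have h1 := (Prod.ext_iff.1 h).1
  have h2 := (Prod.ext_iff.1 h).2
  refine Prod.ext (funext fun i => ?_) h2
  have h3 := congrFun h1 i
  unfold ib at h3
  simp only at h3
  rw [ZMod.natCast_eq_natCast_iff'] at h3
  have hx := (e.1 i).2
  have hy := (e'.1 i).2
  rw [Nat.mod_eq_of_lt (by omega), Nat.mod_eq_of_lt (by omega)] at h3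
  exact Fin.ext h3

variable (L) in
/-- the weight of the box -/
def wb (b : ℝ) (k : ℕ) (V : LZ d → G) : ℝ :=
  Real.exp (-(b * ∑ y : Fin d → Fin k, cz L V fun i => ((y i : ℕ) : ℤ)))

lemma wb_cont (b : ℝ) (k : ℕ) : Continuous (wb (d := d) L b k) :=
  Real.continuous_exp.comp (continuous_const.mul
    (continuous_finsetSum _ fun y _ => cz_cont _)).neg

lemma bx_cont : Continuous (bx (G := G) (d := d) (k := k)) := by
  refine continuous_pi fun e => ?_
  unfold bx
  by_cases h : ∀ i, 0 ≤ e.1 i ∧ e.1 i < k + 1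
  · simp only [h, implies_true, dif_pos, and_self]
    exact continuous_apply _
  · simp only [h, dif_neg, not_false_eq_true]
    exact continuous_const

lemma wb_bx (b : ℝ) (U : Ed d l → G) :
    wb L b k (pe U) = wb L b k (bx (k := k) fun e => U (ib l e)) := by
  unfold wb
  rw [Finset.sum_congr rfl fun y _ => cz_congr fun S j => ?_]
  rename_i y _
  have h : ∀ i, 0 ≤ ((fun i => ((y i : ℕ) : ℤ)) + onZ S : Fin d → ℤ) i ∧
      ((fun i => ((y i : ℕ) : ℤ)) + onZ S : Fin d → ℤ) i < k + 1 := by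
    intro i
    have := (y i).2
    simp only [Pi.add_apply, onZ]
    split_ifs <;> constructor <;> omega
  unfold bx
  rw [dif_pos h, pe_apply]
  unfold ib cs
  congr 2
  funext i
  have h1 := (h i).1
  simp only
  rw [← Int.cast_natCast, Int.toNat_of_nonneg h1]

variable (L d) in
/-- the partition function of the box -/
def zb (b : ℝ) (k : ℕ) : ℝ := ∫ u : BL d k → G, wb L b k (bx u) ∂(ME μ (BL d k))

lemma zb_eq (b : ℝ) (hk : k < l) [NeZero l] :
    ∫ U : Ed d l → G, wb L b k (pe U) ∂(ME μ (Ed d l)) = zb μ L d b k := by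
  have h := integral_sel μ (ib_inj (d := d) (k := k) hk) ((wb_cont (L := L) b k).comp bx_cont)
  unfold zb
  refine Eq.trans ?_ h
  refine integral_congr_ae (Filter.Eventually.of_forall fun U => ?_)
  exact wb_bx b U

lemma zb_pos (b : ℝ) (k : ℕ) : 0 < zb μ L d b k := by
  unfold zb
  refine integral_exp_pos (f := fun u : BL d k → G =>
    -(b * ∑ y : Fin d → Fin k, cz L (bx u) fun i => ((y i : ℕ) : ℤ))) ?_
  exact integrable_cont μ ((wb_cont (L := L) b k).comp bx_cont)

/-- corner of a box -/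
def cn (l k : ℕ) (B : Fin d → Fin K) : Fin d → ZMod l := fun i => (((k + 1) * (B i : ℕ) : ℕ) : ZMod l)

/-- the cubes of the boxes -/
def cb (l k : ℕ) (B : Fin d → Fin K) (y : Fin d → Fin k) : Fin d → ZMod l :=
  (fun i => ((y i : ℕ) : ZMod l)) + cn l k B

variable (L) in
/-- the weight of a box of the periodic lattice -/
def wB (b : ℝ) (k : ℕ) (B : Fin d → Fin K) (U : Ed d l → G) : ℝ :=
  Real.exp (-(b * ∑ y : Fin d → Fin k, ce L U (cb l k B y)))

lemma wB_tr [NeZero l] (b : ℝ) (B : Fin d → Fin K) (U : Ed d l → G) :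
    wB L b k B U = wb L b k (pe (tr (cn l k B) U)) := by
  have h : ∀ y : Fin d → Fin k, ce L U (cb l k B y) =
      cz L (pe (tr (cn l k B) U)) fun i => ((y i : ℕ) : ℤ) := by
    intro y
    rw [cz_pe, ce_tr]
    have e1 : cb l k B y = cs l (fun i => ((y i : ℕ) : ℤ)) + cn l k B := by
      unfold cb cs
      funext i
      simp
    rw [e1]
  unfold wB wb
  simp only [h]

lemma wB_cont [NeZero l] (b : ℝ) (B : Fin d → Fin K) : Continuous (wB (l := l) L b k B) :=
  Real.continuous_exp.comp (continuous_const.mul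
    (continuous_finsetSum _ fun y _ => ce_cont _)).neg

lemma wB_integral [NeZero l] (hk : k < l) (b : ℝ) (B : Fin d → Fin K) :
    ∫ U : Ed d l → G, wB L b k B U ∂(ME μ (Ed d l)) = zb μ L d b k := by
  rw [← zb_eq μ (L := L) (d := d) b hk,
    ← integral_tr μ (cn l k B) (fun U : Ed d l → G => wb L b k (pe U))]
  refine integral_congr_ae (Filter.Eventually.of_forall fun U => ?_)
  exact wB_tr b B U

/-- the links of a box of the periodic lattice -/
def PB (l k : ℕ) (B : Fin d → Fin K) (e : Ed d l) : Prop :=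
  ∃ y : Fin d → Fin (k + 1), e.1 = (fun i => ((y i : ℕ) : ZMod l)) + cn l k B

lemma wB_dep [NeZero l] (b : ℝ) (B : Fin d → Fin K) : Dep (PB l k B) (wB (l := l) L b k B) := by
  intro U U' h
  have h1 : ∀ y : Fin d → Fin k, ce L U (cb l k B y) = ce L U' (cb l k B y) := by
    intro y
    refine ce_congr_vert fun S j => h _ ?_
    refine ⟨fun i => ⟨(y i : ℕ) + if i ∈ S then 1 else 0, ?_⟩, ?_⟩
    · have := (y i).2
      split_ifs <;> omega
    · unfold cb
      funext i
      simp only [Pi.add_apply, on]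
      split_ifs
      · push_cast; ring
      · simp
  unfold wB
  simp only [h1]

lemma coord_inj {v w a c : ℕ} (hl : K * (k + 1) ≤ l) (hv : v < k + 1) (hw : w < k + 1)
    (ha : a < K) (hc : c < K)
    (h : ((v : ℕ) : ZMod l) + (((k + 1) * a : ℕ) : ZMod l) =
      ((w : ℕ) : ZMod l) + (((k + 1) * c : ℕ) : ZMod l)) : v = w ∧ a = c := by
  have h1 : ∀ v a, v < k + 1 → a < K → v + (k + 1) * a < l := by
    intro v a hv ha
    have h2 : (k + 1) * (a + 1) ≤ (k + 1) * K := Nat.mul_le_mul_left _ ha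
    have h3 : (k + 1) * (a + 1) = (k + 1) * a + (k + 1) := by ring
    have h4 : (k + 1) * K = K * (k + 1) := by ring
    omega
  rw [← Nat.cast_add, ← Nat.cast_add, ZMod.natCast_eq_natCast_iff', Nat.mod_eq_of_lt (h1 v a hv ha),
    Nat.mod_eq_of_lt (h1 w c hw hc)] at h
  have h2 : a = c := by
    have e1 : (v + (k + 1) * a) / (k + 1) = a := by
      rw [Nat.add_mul_div_left _ _ (by omega), Nat.div_eq_of_lt hv, zero_add]
    have e2 : (w + (k + 1) * c) / (k + 1) = c := by
      rw [Nat.add_mul_div_left _ _ (by omega), Nat.div_eq_of_lt hw, zero_add]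
    rw [← e1, h, e2]
  subst h2
  exact ⟨by omega, rfl⟩

lemma PB_disj (hl : K * (k + 1) ≤ l) {B B' : Fin d → Fin K} (hB : B ≠ B') (e : Ed d l)
    (h : PB l k B e) : ¬PB l k B' e := by
  rintro ⟨y', h'⟩
  obtain ⟨y, h⟩ := h
  apply hB
  funext i
  rw [h] at h'
  have h1 := congrFun h' i
  simp only [Pi.add_apply, cn] at h1
  exact Fin.ext (coord_inj hl (y i).2 (y' i).2 (B i).2 (B' i).2 h1).2

lemma cb_inj (hl : K * (k + 1) ≤ l) :
    Function.Injective fun p : (Fin d → Fin K) × (Fin d → Fin k) => cb l k p.1 p.2 := by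
  rintro ⟨B, y⟩ ⟨B', y'⟩ h
  have h1 : ∀ i, (y i : ℕ) = y' i ∧ (B i : ℕ) = B' i := by
    intro i
    have h2 := congrFun h i
    simp only [cb, Pi.add_apply, cn] at h2
    exact coord_inj hl (by have := (y i).2; omega) (by have := (y' i).2; omega) (B i).2 (B' i).2 h2
  refine Prod.ext (funext fun i => Fin.ext (h1 i).2) (funext fun i => Fin.ext (h1 i).1)

/-- independence of the boxes -/
lemma boxes [NeZero l] (hk : k < l) (hl : K * (k + 1) ≤ l) (b : ℝ) (s : Finset (Fin d → Fin K)) :
    ∫ U : Ed d l → G, ∏ B ∈ s, wB L b k B U ∂(ME μ (Ed d l)) = zb μ L d b k ^ s.card := by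
  classical
  induction s using Finset.induction_on with
  | empty => simp
  | insert B s hB ih =>
    simp only [Finset.prod_insert hB]
    rw [integral_indep μ (PB l k B) (wB_dep b B), ih, wB_integral μ hk, Finset.card_insert_of_notMem hB,
      pow_succ, mul_comm]
    intro U U' h
    refine Finset.prod_congr rfl fun B' hB' => ?_
    refine wB_dep b B' U U' fun e he => h e ?_
    exact PB_disj hl (fun hBB => hB (by rw [← hBB]; exact hB')) e he

/-- the two sided bound -/
lemma pr_box [NeZero l] (hk : k < l) (hl : K * (k + 1) ≤ l) (b : ℝ) :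
    |(l : ℝ) ^ d * pr μ L d l b - (K : ℝ) ^ d * Real.log (zb μ L d b k)| ≤
      |b| * (N * (d * (d - 1))) * ((l : ℝ) ^ d - ((K : ℝ) * k) ^ d) := by
  classical
  obtain ⟨M, hM⟩ : ∃ M : ℝ, M = N * (d * (d - 1)) := ⟨_, rfl⟩
  obtain ⟨C, hC⟩ : ∃ C : Finset (Fin d → ZMod l), C = Finset.univ.image
    fun p : (Fin d → Fin K) × (Fin d → Fin k) => cb l k p.1 p.2 := ⟨_, rfl⟩
  have hCc : (C.card : ℝ) = ((K : ℝ) * k) ^ d := by
    rw [hC, Finset.card_image_of_injective _ (cb_inj hl)]
    simp [Finset.card_univ, mul_pow]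
  have hR : ((Finset.univ \ C).card : ℝ) = (l : ℝ) ^ d - ((K : ℝ) * k) ^ d := by
    have h1 := Finset.card_sdiff_add_card_eq_card (Finset.subset_univ C)
    have h2 : (Finset.univ : Finset (Fin d → ZMod l)).card = l ^ d := by
      simp [Finset.card_univ, ZMod.card]
    rw [h2] at h1
    have h3 : ((Finset.univ \ C).card : ℝ) + (C.card : ℝ) = (l : ℝ) ^ d := by exact_mod_cast h1
    rw [hCc] at h3
    linarith
  have hsum : ∀ U : Ed d l → G, ∑ B : Fin d → Fin K, ∑ y : Fin d → Fin k, ce L U (cb l k B y) =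
      ∑ x ∈ C, ce L U x := by
    intro U
    rw [hC, Finset.sum_image fun a _ b _ h => cb_inj hl h, Fintype.sum_prod_type]
  have hact : ∀ U : Ed d l → G, act L U = ∑ x ∈ Finset.univ \ C, ce L U x + ∑ x ∈ C, ce L U x := by
    intro U
    rw [Finset.sum_sdiff (Finset.subset_univ C), ce_sum]
  obtain ⟨R, hRd⟩ : ∃ R : (Ed d l → G) → ℝ, R = fun U => ∑ x ∈ Finset.univ \ C, ce L U x := ⟨_, rfl⟩
  have hR0 : ∀ U, 0 ≤ R U := fun U => by
    rw [hRd]; exact Finset.sum_nonneg fun x _ => ce_nonneg U x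
  have hR1 : ∀ U, R U ≤ M * ((l : ℝ) ^ d - ((K : ℝ) * k) ^ d) := fun U => by
    rw [hRd, ← hR, mul_comm, ← nsmul_eq_mul, ← Finset.sum_const]
    exact Finset.sum_le_sum fun x _ => by rw [hM]; exact ce_le U x
  have hprod : ∀ U : Ed d l → G, ∏ B : Fin d → Fin K, wB L b k B U =
      Real.exp (-(b * ∑ x ∈ C, ce L U x)) := by
    intro U
    unfold wB
    rw [← Real.exp_sum, ← hsum, Finset.mul_sum, Finset.sum_neg_distrib]
  have hbox := boxes μ (L := L) (d := d) hk hl b Finset.univ
  have hcard : (Finset.univ : Finset (Fin d → Fin K)).card = K ^ d := by simp [Finset.card_univ]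
  rw [hcard] at hbox
  simp only [hprod] at hbox
  obtain ⟨D, hD⟩ : ∃ D, D = |b| * M * ((l : ℝ) ^ d - ((K : ℝ) * k) ^ d) := ⟨_, rfl⟩
  have hbR : ∀ U, |b * R U| ≤ D := fun U => by
    rw [abs_mul, abs_of_nonneg (hR0 U), hD, mul_assoc]
    exact mul_le_mul_of_nonneg_left (hR1 U) (abs_nonneg b)
  have c1 : Continuous fun U : Ed d l → G => Real.exp (-(b * ∑ x ∈ C, ce L U x)) :=
    Real.continuous_exp.comp (continuous_const.mul (continuous_finsetSum _ fun y _ => ce_cont _)).neg
  have c2 : Continuous fun U : Ed d l → G => Real.exp (-(b * act L U)) := wt_contT b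
  have hZ : Zh μ L (fun _ : Fin d → ZMod l => b) =
      ∫ U : Ed d l → G, Real.exp (-(b * act L U)) ∂(ME μ (Ed d l)) := by
    unfold Zh
    simp only [← Finset.mul_sum, ce_sum]
  have up : Zh μ L (fun _ : Fin d → ZMod l => b) ≤ Real.exp D * zb μ L d b k ^ (K ^ d) := by
    rw [hZ, ← hbox, ← integral_const_mul]
    refine integral_mono (integrable_cont μ c2) (integrable_cont μ (continuous_const.mul c1))
      fun U => ?_
    simp only
    rw [← Real.exp_add, hact]
    refine Real.exp_le_exp.2 ?_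
    have h1 := (abs_le.1 (hbR U)).1
    rw [hRd] at h1
    linarith
  have lo : Real.exp (-D) * zb μ L d b k ^ (K ^ d) ≤ Zh μ L (fun _ : Fin d → ZMod l => b) := by
    rw [hZ, ← hbox, ← integral_const_mul]
    refine integral_mono (integrable_cont μ (continuous_const.mul c1)) (integrable_cont μ c2)
      fun U => ?_
    simp only
    rw [← Real.exp_add, hact]
    refine Real.exp_le_exp.2 ?_
    have h1 := (abs_le.1 (hbR U)).2
    rw [hRd] at h1
    linarith
  have hzp := pow_pos (zb_pos μ (L := L) (d := d) b k) (K ^ d)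
  have up' := Real.log_le_log (Zh_pos μ _) up
  have lo' := Real.log_le_log (mul_pos (Real.exp_pos _) hzp) lo
  rw [Real.log_mul (Real.exp_pos _).ne' hzp.ne', Real.log_exp, Real.log_pow, log_Zh] at up' lo'
  push_cast at up' lo'
  rw [← hM, ← hD, abs_le]
  constructor <;> linarith

end box

section limit

variable {d : ℕ}

variable (L d) in
lemma pr_conv (b : ℝ) : ∃ c, Tendsto (fun m : ℕ => pr μ L d (2 * (m + 1)) b) atTop (𝓝 c) := by
  obtain ⟨M, hM⟩ : ∃ M : ℝ, M = |b| * (N * (d * (d - 1))) := ⟨_, rfl⟩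
  have hM0 : 0 ≤ M := by
    rw [hM]
    have h1 : (0 : ℝ) ≤ d * (d - 1) := by
      rcases Nat.eq_zero_or_pos d with h | h
      · subst h; simp
      · have : (1 : ℝ) ≤ d := by exact_mod_cast h
        exact mul_nonneg (by linarith) (by linarith)
    positivity
  refine tendsto_of_approx (a := fun k => Real.log (zb μ L d b k) / ((k : ℝ) + 1) ^ d)
    (e := fun k => M * (1 - (1 - 1 / ((k : ℝ) + 1)) ^ d)) ?_ fun k hk ε hε => ?_
  · have h1 : Tendsto (fun k : ℕ => 1 / ((k : ℝ) + 1)) atTop (𝓝 0) :=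
      tendsto_one_div_add_atTop_nhds_zero_nat
    have h2 := ((((tendsto_const_nhds (x := (1 : ℝ))).sub h1).pow d).const_sub 1).const_mul M
    simpa using h2
  · have hs : Tendsto (fun m : ℕ => 2 * (m + 1)) atTop atTop :=
      tendsto_atTop_mono (fun m => by show m ≤ 2 * (m + 1); omega) tendsto_id
    have h1 := (tendsto_div k).comp hs
    obtain ⟨c, hc⟩ : ∃ c, c = Real.log (zb μ L d b k) := ⟨_, rfl⟩
    have h2 : Tendsto (fun m : ℕ => ((((2 * (m + 1)) / (k + 1) : ℕ) : ℝ) / (2 * (m + 1) : ℕ)) ^ d * c -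
        c / ((k : ℝ) + 1) ^ d) atTop (𝓝 0) := by
      have h3 := ((h1.pow d).mul_const c).sub_const (c / ((k : ℝ) + 1) ^ d)
      have h4 : (1 / ((k : ℝ) + 1)) ^ d * c - c / ((k : ℝ) + 1) ^ d = 0 := by
        rw [div_pow, one_pow]; ring
      rw [h4] at h3
      exact h3
    have h5 : Tendsto (fun m : ℕ => M * (1 - ((((2 * (m + 1)) / (k + 1) : ℕ) : ℝ) /
        (2 * (m + 1) : ℕ) * k) ^ d)) atTop (𝓝 (M * (1 - (1 - 1 / ((k : ℝ) + 1)) ^ d))) := by
      have h6 := (((h1.mul_const (k : ℝ)).pow d).const_sub 1).const_mul M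
      have h7 : 1 / ((k : ℝ) + 1) * k = 1 - 1 / ((k : ℝ) + 1) := by
        have : (k : ℝ) + 1 ≠ 0 := by positivity
        field_simp
        ring
      rw [h7] at h6
      exact h6
    have h8 := h2.abs
    rw [abs_zero] at h8
    filter_upwards [h8.eventually_lt_const (show (0 : ℝ) < ε / 2 by positivity),
      h5.eventually_lt_const (show M * (1 - (1 - 1 / ((k : ℝ) + 1)) ^ d) <
        M * (1 - (1 - 1 / ((k : ℝ) + 1)) ^ d) + ε / 2 by linarith),
      hs.eventually_gt_atTop k] with m e1 e2 e3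
    have hl : ((2 * (m + 1)) / (k + 1)) * (k + 1) ≤ 2 * (m + 1) := Nat.div_mul_le_self _ _
    have h9 := pr_box μ (L := L) (d := d) (l := 2 * (m + 1)) e3 hl b
    rw [← hM, ← hc] at h9
    obtain ⟨l, hl'⟩ : ∃ l : ℝ, l = ((2 * (m + 1) : ℕ) : ℝ) := ⟨_, rfl⟩
    have hl0 : 0 < l := by rw [hl']; positivity
    rw [← hl'] at h9 e1 e2
    obtain ⟨q, hq⟩ : ∃ q : ℝ, q = (((2 * (m + 1)) / (k + 1) : ℕ) : ℝ) := ⟨_, rfl⟩
    rw [← hq] at h9 e1 e2
    have hld : 0 < l ^ d := by positivity
    have h10 : |pr μ L d (2 * (m + 1)) b - (q / l) ^ d * c| ≤ M * (1 - (q / l * k) ^ d) := by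
      have e4 : l ^ d * pr μ L d (2 * (m + 1)) b - q ^ d * c =
          l ^ d * (pr μ L d (2 * (m + 1)) b - (q / l) ^ d * c) := by
        rw [div_pow]; field_simp
      have e5 : M * (l ^ d - (q * k) ^ d) = l ^ d * (M * (1 - (q / l * k) ^ d)) := by
        rw [mul_pow, mul_pow, div_pow]; field_simp
      rw [e4, e5, abs_mul, abs_of_pos hld] at h9
      exact le_of_mul_le_mul_left h9 hld
    have h11 : pr μ L d (2 * (m + 1)) b - c / ((k : ℝ) + 1) ^ d =
        (pr μ L d (2 * (m + 1)) b - (q / l) ^ d * c) + ((q / l) ^ d * c - c / ((k : ℝ) + 1) ^ d) := by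
      ring
    simp only [← hc]
    rw [h11]
    refine (abs_add_le _ _).trans ?_
    linarith

variable (L d) in
/-- the pressure in the infinite volume -/
def prZ (b : ℝ) : ℝ := (pr_conv μ L d b).choose

lemma prZ_lim (b : ℝ) :
    Tendsto (fun m : ℕ => pr μ L d (2 * (m + 1)) b) atTop (𝓝 (prZ μ L d b)) :=
  (pr_conv μ L d b).choose_spec

lemma prZ_convex : ConvexOn ℝ Set.univ (prZ μ L d) := by
  refine ⟨convex_univ, fun x _ y _ a b ha hb hab => ?_⟩
  have h1 := prZ_lim μ (L := L) (d := d) (a • x + b • y)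
  have h2 := ((prZ_lim μ (L := L) (d := d) x).const_mul a).add
    ((prZ_lim μ (L := L) (d := d) y).const_mul b)
  refine le_of_tendsto_of_tendsto' h1 h2 fun m => ?_
  exact (pr_convex μ (L := L) (d := d) (l := 2 * (m + 1))).2 trivial trivial ha hb hab

lemma prZ_zero : prZ μ L d 0 = 0 := by
  have h := prZ_lim μ (L := L) (d := d) 0
  simp only [pr_zero] at h
  exact tendsto_nhds_unique h tendsto_const_nhds

end limit

end

end Pool.Agent.T2H01.YM
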