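import Mathlib

/-!
# Convex functions on the line: second order expansion at almost every point
-/

open MeasureTheory Filter Set
open scoped Topology

namespace Pool.Agent.T2H01.YM

noncomputable section

variable {p : ℝ → ℝ}

/-- the right derivative -/
def rd (p : ℝ → ℝ) (x : ℝ) : ℝ := derivWithin p (Ioi x) x

lemma rd_hasDeriv (hp : ConvexOn ℝ univ p) (x : ℝ) : HasDerivWithinAt p (rd p x) (Ioi x) x :=
  hp.hasDerivWithinAt_rightDeriv_of_mem_interior (by simp)

lemma rd_mono (hp : ConvexOn ℝ univ p) : Monotone (rd p) := by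
  have h := hp.monotoneOn_rightDeriv
  rw [interior_univ] at h
  exact monotoneOn_univ.1 h

lemma cvx_cont (hp : ConvexOn ℝ univ p) : Continuous p := by
  have h := hp.continuousOn isOpen_univ
  exact continuousOn_univ.1 h

/-- the second order expansion -/
lemma cvx_expand (hp : ConvexOn ℝ univ p) {b χ δ : ℝ} (hr : HasDerivAt (rd p) χ b) (hδ : 0 < δ) :
    ∃ η > 0, ∀ s, |s| ≤ η → p (b + s) - p b - s * rd p b ≤ (χ + δ) / 2 * s ^ 2 := by
  have h1 := hr.isLittleO.bound hδ
  rw [Metric.eventually_nhds_iff] at h1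
  obtain ⟨ε, hε, h2⟩ := h1
  have key : ∀ s, |s| < ε → |rd p (b + s) - rd p b - s * χ| ≤ δ * |s| := by
    intro s hs
    have h3 := h2 (y := b + s) (by rw [Real.dist_eq, add_sub_cancel_left]; exact hs)
    simpa [smul_eq_mul, Real.norm_eq_abs] using h3
  obtain ⟨g, hg⟩ : ∃ g : ℝ → ℝ, g = fun s => p (b + s) - p b - s * rd p b - (χ + δ) / 2 * s ^ 2 :=
    ⟨_, rfl⟩
  have hgc : Continuous g := by
    rw [hg]
    have := cvx_cont hp
    fun_prop
  have hgd : ∀ s, HasDerivWithinAt g (rd p (b + s) - rd p b - (χ + δ) * s) (Ici s) s := by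
    intro s
    rw [hg]
    have h4 : HasDerivWithinAt (fun s => p (b + s)) (rd p (b + s)) (Ici s) s := by
      have h5 := (rd_hasDeriv hp (b + s)).Ici_of_Ioi
      have h6 : HasDerivWithinAt (fun s : ℝ => b + s) 1 (Ici s) s :=
        ((hasDerivAt_id s).const_add b).hasDerivWithinAt
      have h7 := HasDerivWithinAt.comp s h5 h6 (fun y hy => by
        simp only [mem_Ici] at hy ⊢; linarith)
      rw [mul_one] at h7
      exact h7
    have h8 : HasDerivWithinAt (fun s : ℝ => s * rd p b) (rd p b) (Ici s) s := by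
      simpa using ((hasDerivAt_id s).mul_const (rd p b)).hasDerivWithinAt (s := Ici s)
    have h9 : HasDerivWithinAt (fun s : ℝ => (χ + δ) / 2 * s ^ 2) ((χ + δ) * s) (Ici s) s := by
      have := (((hasDerivAt_id s).pow 2).const_mul ((χ + δ) / 2)).hasDerivWithinAt (s := Ici s)
      refine this.congr_deriv ?_
      simp; ring
    have h10 := ((h4.sub_const (p b)).sub h8).sub h9
    exact h10
  have hg0 : g 0 = 0 := by rw [hg]; simp
  refine ⟨ε / 2, by positivity, fun s hs => ?_⟩
  have hs' : |s| < ε := by linarith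
  suffices h : g s ≤ 0 by
    rw [hg] at h
    simp only at h
    linarith
  rcases le_total 0 s with h0 | h0
  · have h3 := image_le_of_deriv_right_le_deriv_boundary (f := g) (a := 0) (b := s)
      (f' := fun s => rd p (b + s) - rd p b - (χ + δ) * s)
      (B := fun _ => 0) (B' := fun _ => 0) hgc.continuousOn
      (fun x _ => hgd x) (by rw [hg0]) continuousOn_const
      (fun x _ => (hasDerivAt_const x (0 : ℝ)).hasDerivWithinAt) (fun x hx => by
        have hx1 : |x| < ε := by
          rw [abs_of_nonneg hx.1]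
          rw [abs_of_nonneg h0] at hs'
          linarith [hx.2]
        have h5 := key x hx1
        rw [abs_of_nonneg hx.1] at h5
        have h6 := (abs_le.1 h5).2
        show rd p (b + x) - rd p b - (χ + δ) * x ≤ 0
        linarith)
    exact h3 ⟨h0, le_rfl⟩
  · have h3 := image_le_of_deriv_right_le_deriv_boundary (f := fun x => -g x) (a := s) (b := 0)
      (f' := fun s => -(rd p (b + s) - rd p b - (χ + δ) * s))
      (B := fun _ => -g s) (B' := fun _ => 0) hgc.neg.continuousOn
      (fun x _ => (hgd x).neg) le_rfl continuousOn_const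
      (fun x _ => (hasDerivAt_const x (-g s)).hasDerivWithinAt) (fun x hx => by
        have hx1 : |x| < ε := by
          rw [abs_of_nonpos hx.2.le]
          rw [abs_of_nonpos h0] at hs'
          linarith [hx.1]
        have h5 := key x hx1
        rw [abs_of_nonpos hx.2.le] at h5
        have h6 := (abs_le.1 h5).1
        show -(rd p (b + x) - rd p b - (χ + δ) * x) ≤ 0
        linarith)
    have h4 : -g 0 ≤ -g s := h3 (show (0 : ℝ) ∈ Icc s 0 from ⟨h0, le_rfl⟩)
    rw [hg0] at h4
    linarith

lemma rd_ae (hp : ConvexOn ℝ univ p) : ∀ᵐ b, DifferentiableAt ℝ (rd p) b :=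
  (rd_mono hp).ae_differentiableAt

/-- slopes to the right -/
lemma rd_le (hp : ConvexOn ℝ univ p) {x y : ℝ} (hxy : x < y) : rd p x ≤ (p y - p x) / (y - x) := by
  have h := hp.rightDeriv_le_slope_of_mem_interior (x := x) (y := y) (by simp) (by simp) hxy
  rwa [slope_def_field] at h

/-- tangents -/
lemma cvx_tangent (hp : ConvexOn ℝ univ p) (x s : ℝ) : s * rd p x ≤ p (x + s) - p x := by
  rcases lt_trichotomy s 0 with h | h | h
  · have h1 := hp.leftDeriv_le_rightDeriv_of_mem_interior (x := x) (by simp)
    have h2 := hp.slope_le_leftDeriv_of_mem_interior (x := x + s) (y := x) (by simp) (by simp)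
      (by linarith)
    rw [slope_def_field] at h2
    have h3 := h2.trans h1
    have h4 : x - (x + s) = -s := by ring
    rw [h4, div_le_iff₀ (by linarith)] at h3
    unfold rd
    linarith
  · subst h; simp
  · have h1 := rd_le hp (x := x) (y := x + s) (by linarith)
    rw [add_sub_cancel_left, le_div_iff₀ h] at h1
    linarith

/-- lower bounds of the right derivative from tangents -/
lemma rd_ge {b c : ℝ} (hp : ConvexOn ℝ univ p) (h : ∀ s, 0 < s → c * s ≤ p (b + s) - p b) :
    c ≤ rd p b := by
  have h1 := (hasDerivWithinAt_iff_tendsto_slope' self_notMem_Ioi).1 (rd_hasDeriv hp b)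
  refine ge_of_tendsto h1 ?_
  filter_upwards [self_mem_nhdsWithin] with y hy
  have hy' : b < y := hy
  rw [slope_def_field, le_div_iff₀ (by linarith)]
  have h2 := h (y - b) (by linarith)
  rwa [add_sub_cancel] at h2

end

end Pool.Agent.T2H01.YM
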