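import Mathlib
import Pool.Agent.T2H01.YM.Box
import Pool.Agent.T2H01.YM.Cvx

/-!
# Infinite volume limits: exponential moments of the energy density
-/

open MeasureTheory Matrix Filter
open scoped Matrix.Norms.Frobenius ContDiff Topology
open Pool.Agent.H906R3.YM hiding Pl
open Pool.Agent.W793.YM Pool.Agent.TH618.YM

namespace Pool.Agent.T2H01.YM

set_option linter.unusedSectionVars false
set_option linter.unusedVariables false

noncomputable section

variable {G : Type*} [Group G] [TopologicalSpace G] [IsTopologicalGroup G] [CompactSpace G]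
  [SecondCountableTopology G] [MeasurableSpace G] [BorelSpace G] (μ : Measure G)
  [IsProbabilityMeasure μ] [μ.IsMulLeftInvariant] [μ.IsMulRightInvariant] [μ.IsInvInvariant]
  {N n : ℕ} {L : LD G N n} {d : ℕ}

variable (L) in
/-- infinite volume limits -/
structure IV (b : ℝ) (ν : Measure (LZ d → G)) : Prop where
  prob : IsProbabilityMeasure ν
  lim : ∃ s : ℕ → ℕ, Tendsto s atTop atTop ∧ ∀ F : (LZ d → G) → ℝ, Continuous F →
    Tendsto (fun j => EX μ L b (fun U : Ed d (2 * (s j + 1)) → G => F (pe U))) atTop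
      (𝓝 (∫ V, F V ∂ν))

section casts

lemma cs_inj {S : Finset (Fin d → ℤ)} {R l : ℕ} (hR : ∀ x ∈ S, ∀ i, |x i| ≤ R) (hl : 2 * R < l)
    {x y : Fin d → ℤ} (hx : x ∈ S) (hy : y ∈ S) (h : cs l x = cs l y) : x = y := by
  funext i
  have h1 := congrFun h i
  unfold cs at h1
  rw [ZMod.intCast_eq_intCast_iff_dvd_sub] at h1
  have h2 := hR x hx i
  have h3 := hR y hy i
  rw [abs_le] at h2 h3
  have h4 : y i - x i = 0 := by
    refine Int.eq_zero_of_abs_lt_dvd h1 ?_
    rw [abs_lt]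
    constructor <;> omega
  omega

lemma exists_bd (S : Finset (Fin d → ℤ)) : ∃ R : ℕ, ∀ x ∈ S, ∀ i, |x i| ≤ R := by
  refine ⟨∑ x ∈ S, ∑ i, (x i).natAbs, fun x hx i => ?_⟩
  have h1 : (x i).natAbs ≤ ∑ i, (x i).natAbs :=
    Finset.single_le_sum (f := fun i => (x i).natAbs) (fun _ _ => Nat.zero_le _) (Finset.mem_univ i)
  have h2 : ∑ i, (x i).natAbs ≤ ∑ x ∈ S, ∑ i, (x i).natAbs :=
    Finset.single_le_sum (f := fun x : Fin d → ℤ => ∑ i, (x i).natAbs) (fun _ _ => Nat.zero_le _) hx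
  have h3 := h1.trans h2
  rw [Int.abs_eq_natAbs]
  exact_mod_cast h3

end casts

section exp

/-- couplings on the periodic lattice -/
def gl (l : ℕ) (S : Finset (Fin d → ℤ)) (h : (Fin d → ℤ) → ℝ) (y : Fin d → ZMod l) : ℝ :=
  ∑ x ∈ S, if cs l x = y then h x else 0

lemma gl_sum {l : ℕ} [NeZero l] (S : Finset (Fin d → ℤ)) (h : (Fin d → ℤ) → ℝ)
    (f : (Fin d → ZMod l) → ℝ) : ∑ y, gl l S h y * f y = ∑ x ∈ S, h x * f (cs l x) := by
  unfold gl
  simp only [Finset.sum_mul]
  rw [Finset.sum_comm]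
  refine Finset.sum_congr rfl fun x _ => ?_
  simp only [ite_mul, zero_mul]
  rw [Finset.sum_ite_eq]
  simp

lemma gl_fun {l : ℕ} [NeZero l] {S : Finset (Fin d → ℤ)}
    (hinj : ∀ x ∈ S, ∀ y ∈ S, cs l x = cs l y → x = y) (h : (Fin d → ℤ) → ℝ) {f : ℝ → ℝ}
    (hf : f 0 = 0) : ∑ y : Fin d → ZMod l, f (gl l S h y) = ∑ x ∈ S, f (h x) := by
  classical
  have h1 : ∀ x ∈ S, gl l S h (cs l x) = h x := by
    intro x hx
    unfold gl
    rw [Finset.sum_eq_single x]
    · simp
    · intro y hy hne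
      rw [if_neg]
      exact fun he => hne (hinj y hy x hx he)
    · exact fun hx' => absurd hx hx'
  have h2 : ∀ y : Fin d → ZMod l, y ∉ S.image (cs l) → gl l S h y = 0 := by
    intro y hy
    unfold gl
    refine Finset.sum_eq_zero fun x hx => ?_
    rw [if_neg]
    exact fun he => hy (Finset.mem_image.2 ⟨x, hx, he⟩)
  have h3 : ∑ y ∈ S.image (cs l), f (gl l S h y) = ∑ y : Fin d → ZMod l, f (gl l S h y) :=
    Finset.sum_subset (Finset.subset_univ _) fun y _ hy => by rw [h2 y hy, hf]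
  rw [← h3, Finset.sum_image fun x hx y hy he => hinj x hx y hy he]
  exact Finset.sum_congr rfl fun x hx => by rw [h1 x hx]

/-- **exponential moments of the energy density in the infinite volume** -/
theorem IV.exp {b : ℝ} {ν : Measure (LZ d → G)} (hν : IV μ L b ν) (S : Finset (Fin d → ℤ))
    (h : (Fin d → ℤ) → ℝ) :
    ∫ V, Real.exp (∑ x ∈ S, h x * cz L V x) ∂ν ≤
      Real.exp (∑ x ∈ S, (prZ μ L d (b - h x) - prZ μ L d b)) := by
  obtain ⟨s, hs, hlim⟩ := hν.lim
  have hc : Continuous fun V : LZ d → G => Real.exp (∑ x ∈ S, h x * cz L V x) :=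
    Real.continuous_exp.comp (continuous_finsetSum _ fun x _ => continuous_const.mul (cz_cont x))
  have h1 := hlim _ hc
  have h2 : Tendsto (fun j => Real.exp (∑ x ∈ S, (pr μ L d (2 * (s j + 1)) (b - h x) -
      pr μ L d (2 * (s j + 1)) b))) atTop
      (𝓝 (Real.exp (∑ x ∈ S, (prZ μ L d (b - h x) - prZ μ L d b)))) := by
    refine (Real.continuous_exp.tendsto _).comp (tendsto_finsetSum _ fun x _ => ?_)
    exact ((prZ_lim μ (b - h x)).comp hs).sub ((prZ_lim μ b).comp hs)
  refine le_of_tendsto_of_tendsto h1 h2 ?_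
  obtain ⟨R, hR⟩ := exists_bd S
  filter_upwards [hs.eventually_ge_atTop (R + 1)] with j hj
  have hinj : ∀ x ∈ S, ∀ y ∈ S, cs (2 * (s j + 1)) x = cs (2 * (s j + 1)) y → x = y :=
    fun x hx y hy he => cs_inj hR (by omega) hx hy he
  have h3 := EX_chess μ (L := L) (d := d) (m := s j + 1) (by omega) b (gl (2 * (s j + 1)) S h)
  have h4 := gl_fun hinj h (f := fun t => pr μ L d (2 * (s j + 1)) (b - t) -
    pr μ L d (2 * (s j + 1)) b) (by simp)
  rw [h4] at h3
  refine le_trans (le_of_eq ?_) h3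
  congr 1
  funext U
  rw [gl_sum S h fun y => ce L U y]
  simp only [cz_pe]

end exp

section trans

/-- translations of configurations on `ℤ^d` -/
def tz (z : Fin d → ℤ) (V : LZ d → G) : LZ d → G := fun e => V (e.1 + z, e.2)

lemma tz_cont (z : Fin d → ℤ) : Continuous (tz (G := G) z) := by
  refine continuous_pi fun e => ?_
  exact (continuous_apply (e.1 + z, e.2) : Continuous fun V : LZ d → G => V (e.1 + z, e.2))

lemma tz_pe {l : ℕ} (z : Fin d → ℤ) (U : Ed d l → G) : tz z (pe U) = pe (tr (cs l z) U) := by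
  funext e
  unfold tz
  rw [pe_apply, cs_add]
  rfl

lemma cz_tz (z : Fin d → ℤ) (V : LZ d → G) (x : Fin d → ℤ) : cz L (tz z V) x = cz L V (x + z) := by
  unfold cz
  congr 1
  refine Finset.sum_congr rfl fun i _ => Finset.sum_congr rfl fun j _ => ?_
  split_ifs with hij
  · refine Finset.sum_congr rfl fun S _ => ?_
    congr 1
    unfold plZ tz
    simp only
    have e : ∀ a b c : Fin d → ℤ, a + b + c = a + c + b := fun a b c => add_right_comm a b c
    rw [e (x + onZ S) (Pi.single i 1) z, e (x + onZ S) (Pi.single j 1) z, e x (onZ S) z]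
  · rfl

lemma IV.shift {b : ℝ} {ν : Measure (LZ d → G)} (hν : IV μ L b ν) (z : Fin d → ℤ)
    {F : (LZ d → G) → ℝ} (hF : Continuous F) : ∫ V, F (tz z V) ∂ν = ∫ V, F V ∂ν := by
  obtain ⟨s, hs, hlim⟩ := hν.lim
  have h1 := hlim _ (hF.comp (tz_cont z))
  have h2 := hlim _ hF
  refine tendsto_nhds_unique h1 (h2.congr fun j => ?_)
  rw [← EX_tr μ (L := L) (β := b) (cs (2 * (s j + 1)) z)
    (fun U : Ed d (2 * (s j + 1)) → G => F (pe U))]
  simp only [Function.comp, tz_pe]

end trans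

section moments

lemma cz_le (V : LZ d → G) (x : Fin d → ℤ) : cz L V x ≤ N * (d * (d - 1)) := by
  unfold cz
  have h1 : ∑ i, ∑ j, (if i < j then
      ∑ S ∈ (({i, j} : Finset (Fin d))ᶜ).powerset, we L (plZ V (x + onZ S) i j) else 0) ≤
      ∑ i : Fin d, ∑ j : Fin d, 2 ^ (d - 2) * (2 * N) * (if i < j then (1 : ℝ) else 0) := by
    refine Finset.sum_le_sum fun i _ => Finset.sum_le_sum fun j _ => ?_
    split_ifs with hij
    · rw [mul_one]
      calc _ ≤ ∑ S ∈ (({i, j} : Finset (Fin d))ᶜ).powerset, (2 * N : ℝ) :=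
            Finset.sum_le_sum fun S _ => we_le _
        _ = _ := by
            rw [Finset.sum_const, card_ps hij, nsmul_eq_mul]
            push_cast; ring
    · simp
  refine (mul_le_mul_of_nonneg_left h1 (by positivity)).trans (le_of_eq ?_)
  simp only [← Finset.mul_sum]
  rw [card_lt, ← mul_assoc, ← mul_assoc, ← mul_pow]
  norm_num
  ring

lemma cz_nonneg (V : LZ d → G) (x : Fin d → ℤ) : 0 ≤ cz L V x := by
  unfold cz
  refine mul_nonneg (by positivity) (Finset.sum_nonneg fun i _ => Finset.sum_nonneg fun j _ => ?_)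
  split_ifs
  · exact Finset.sum_nonneg fun S _ => we_nonneg _
  · exact le_rfl

/-- Jensen's inequality -/
lemma exp_int_le {X : Type*} [MeasurableSpace X] {ν : Measure X} [IsProbabilityMeasure ν]
    {f : X → ℝ} (hf : Integrable f ν) (he : Integrable (fun x => Real.exp (f x)) ν) :
    Real.exp (∫ x, f x ∂ν) ≤ ∫ x, Real.exp (f x) ∂ν :=
  convexOn_exp.map_integral_le Real.continuous_exp.continuousOn isClosed_univ
    (Filter.Eventually.of_forall fun _ => trivial) hf he

lemma two_add_sq_le (y : ℝ) : 2 + y ^ 2 ≤ Real.exp y + Real.exp (-y) := by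
  have h1 : Real.exp y + Real.exp (-y) = 2 * Real.cosh y := by rw [Real.cosh_eq]; ring
  have h2 : Real.cosh y = 2 * Real.sinh (y / 2) ^ 2 + 1 := by
    have h3 := Real.cosh_two_mul (y / 2)
    have h4 := Real.cosh_sq (y / 2)
    rw [show 2 * (y / 2) = y by ring] at h3
    rw [h3, h4]; ring
  have h5 : (y / 2) ^ 2 ≤ Real.sinh (y / 2) ^ 2 := by
    rw [sq_le_sq]
    rcases le_total 0 (y / 2) with h | h
    · have h6 := Real.self_le_sinh_iff.2 h
      rw [abs_of_nonneg h, abs_of_nonneg (h.trans h6)]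
      exact h6
    · have h6 := Real.sinh_le_self_iff.2 h
      rw [abs_of_nonpos h, abs_of_nonpos (h6.trans h)]
      linarith
  rw [h1, h2]
  nlinarith

variable {b χ : ℝ} {ν : Measure (LZ d → G)}

/-- the energy density is the derivative of the pressure -/
theorem IV.mean (hν : IV μ L b ν) (hr : HasDerivAt (rd (prZ μ L d)) χ b) (x : Fin d → ℤ) :
    ∫ V, cz L V x ∂ν = -rd (prZ μ L d) b := by
  have := hν.prob
  obtain ⟨E, hE⟩ : ∃ E, E = ∫ V, cz L V x ∂ν := ⟨_, rfl⟩
  obtain ⟨η, hη, hexp⟩ := cvx_expand (prZ_convex μ) hr one_pos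
  have key : ∀ t, |t| ≤ η → t * (E + rd (prZ μ L d) b) ≤ (χ + 1) / 2 * t ^ 2 := by
    intro t ht
    have h1 := hν.exp μ {x} (fun _ => t)
    simp only [Finset.sum_singleton] at h1
    have c1 : Continuous fun V : LZ d → G => t * cz L V x := continuous_const.mul (cz_cont x)
    have h2 := exp_int_le (cont_integrable (ν := ν) c1)
      (cont_integrable (ν := ν) (Real.continuous_exp.comp c1))
    rw [integral_const_mul, ← hE] at h2
    have h3 := Real.exp_le_exp.1 (h2.trans h1)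
    have h4 := hexp (-t) (by rwa [abs_neg])
    rw [← sub_eq_add_neg, neg_sq] at h4
    linarith
  rw [← hE]
  have h0 : ∀ c : ℝ, (∀ t, 0 < t → t ≤ η → c ≤ (χ + 1) / 2 * t) → c ≤ 0 := by
    intro c hc
    have h1 : Tendsto (fun t : ℝ => (χ + 1) / 2 * t) (𝓝[>] 0) (𝓝 ((χ + 1) / 2 * 0)) :=
      ((continuous_const.mul continuous_id).tendsto 0).mono_left nhdsWithin_le_nhds
    rw [mul_zero] at h1
    refine ge_of_tendsto h1 ?_
    filter_upwards [Ioc_mem_nhdsGT hη] with t ht
    exact hc t ht.1 ht.2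
  have h5 : E + rd (prZ μ L d) b ≤ 0 := by
    refine h0 _ fun t ht1 ht2 => ?_
    have h6 := key t (by rwa [abs_of_pos ht1])
    have h7 : t * (E + rd (prZ μ L d) b) ≤ t * ((χ + 1) / 2 * t) := by
      refine h6.trans (le_of_eq (by ring))
    exact le_of_mul_le_mul_left h7 ht1
  have h6 : -(E + rd (prZ μ L d) b) ≤ 0 := by
    refine h0 _ fun t ht1 ht2 => ?_
    have h6 := key (-t) (by rwa [abs_neg, abs_of_pos ht1])
    have h7 : t * -(E + rd (prZ μ L d) b) ≤ t * ((χ + 1) / 2 * t) := by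
      refine le_trans (le_of_eq (by ring)) (h6.trans (le_of_eq (by ring)))
    exact le_of_mul_le_mul_left h7 ht1
  linarith

/-- the sub-Gaussian bound -/
theorem IV.subg (hr : HasDerivAt (rd (prZ μ L d)) χ b) {δ : ℝ} (hδ : 0 < δ) :
    ∃ η > 0, ∀ ν : Measure (LZ d → G), IV μ L b ν → ∀ (S : Finset (Fin d → ℤ))
      (h : (Fin d → ℤ) → ℝ), (∀ x ∈ S, |h x| ≤ η) →
      ∫ V, Real.exp (∑ x ∈ S, h x * (cz L V x + rd (prZ μ L d) b)) ∂ν ≤
        Real.exp ((χ + δ) / 2 * ∑ x ∈ S, h x ^ 2) := by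
  obtain ⟨η, hη, hexp⟩ := cvx_expand (prZ_convex μ) hr hδ
  refine ⟨η, hη, fun ν hν S h hh => ?_⟩
  have h1 := hν.exp μ S h
  have h2 : ∀ V : LZ d → G, Real.exp (∑ x ∈ S, h x * (cz L V x + rd (prZ μ L d) b)) =
      Real.exp (∑ x ∈ S, h x * rd (prZ μ L d) b) * Real.exp (∑ x ∈ S, h x * cz L V x) := by
    intro V
    rw [← Real.exp_add, ← Finset.sum_add_distrib]
    congr 1
    exact Finset.sum_congr rfl fun x _ => by ring
  simp only [h2]
  rw [integral_const_mul]
  refine (mul_le_mul_of_nonneg_left h1 (Real.exp_pos _).le).trans ?_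
  rw [← Real.exp_add, ← Finset.sum_add_distrib, Finset.mul_sum]
  refine Real.exp_le_exp.2 (Finset.sum_le_sum fun x hx => ?_)
  have h3 := hexp (-h x) (by rw [abs_neg]; exact hh x hx)
  rw [← sub_eq_add_neg, neg_sq] at h3
  linarith

/-- the variance -/
theorem IV.var (hν : IV μ L b ν) (hr : HasDerivAt (rd (prZ μ L d)) χ b) (S : Finset (Fin d → ℤ))
    (h : (Fin d → ℤ) → ℝ) :
    ∫ V, (∑ x ∈ S, h x * (cz L V x + rd (prZ μ L d) b)) ^ 2 ∂ν ≤ χ * ∑ x ∈ S, h x ^ 2 := by
  have := hν.prob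
  obtain ⟨Y, hY⟩ : ∃ Y : (LZ d → G) → ℝ, Y = fun V =>
    ∑ x ∈ S, h x * (cz L V x + rd (prZ μ L d) b) := ⟨_, rfl⟩
  have hYc : Continuous Y := by
    rw [hY]
    exact continuous_finsetSum _ fun x _ => continuous_const.mul ((cz_cont x).add continuous_const)
  obtain ⟨H, hH⟩ : ∃ H, H = ∑ x ∈ S, h x ^ 2 := ⟨_, rfl⟩
  have hH0 : 0 ≤ H := by rw [hH]; exact Finset.sum_nonneg fun x _ => sq_nonneg _
  have hχ : 0 ≤ χ := by
    have h1 := hr.isLittleO
    by_contra hneg
    rw [not_le] at hneg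
    have h2 := hr.tendsto_slope
    have h3 : ∀ᶠ y in 𝓝[≠] b, slope (rd (prZ μ L d)) b y < 0 := h2.eventually_lt_const hneg
    obtain ⟨y, hy1, hy2⟩ := (h3.and self_mem_nhdsWithin).exists
    rw [slope_def_field] at hy1
    have hm := rd_mono (prZ_convex μ (L := L) (d := d))
    rcases lt_or_gt_of_ne (show y ≠ b from hy2) with h4 | h4
    · have := hm h4.le
      exact absurd hy1 (not_lt.2 (div_nonneg_of_nonpos (by linarith) (by linarith)))
    · have := hm h4.le
      exact absurd hy1 (not_lt.2 (div_nonneg (by linarith) (by linarith)))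
  have main : ∀ δ, 0 < δ → ∫ V, Y V ^ 2 ∂ν ≤ (χ + δ) * H := by
    intro δ hδ
    obtain ⟨η, hη, hsub⟩ := IV.subg μ (L := L) (d := d) hr hδ
    obtain ⟨K, hK⟩ : ∃ K, K = (χ + δ) / 2 * H := ⟨_, rfl⟩
    have hK0 : 0 ≤ K := by rw [hK]; positivity
    obtain ⟨B, hB⟩ : ∃ B : ℝ, B = ∑ x ∈ S, |h x| := ⟨_, rfl⟩
    have hB0 : 0 ≤ B := by rw [hB]; exact Finset.sum_nonneg fun x _ => abs_nonneg _
    have hBh : ∀ x ∈ S, |h x| ≤ B := fun x hx => by
      rw [hB]
      exact Finset.single_le_sum (f := fun x => |h x|) (fun _ _ => abs_nonneg _) hx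
    have step : ∀ t, 0 < t → t * B ≤ η → t ^ 2 * K ≤ 1 →
        ∫ V, Y V ^ 2 ∂ν ≤ 2 * K + 2 * K ^ 2 * t ^ 2 := by
      intro t ht h1 h2
      have e1 := hsub ν hν S (fun x => t * h x) (fun x hx => by
        rw [abs_mul, abs_of_pos ht]
        exact (mul_le_mul_of_nonneg_left (hBh x hx) ht.le).trans h1)
      have e2 := hsub ν hν S (fun x => -t * h x) (fun x hx => by
        rw [abs_mul, abs_neg, abs_of_pos ht]
        exact (mul_le_mul_of_nonneg_left (hBh x hx) ht.le).trans h1)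
      have e3 : ∀ t : ℝ, ∀ V : LZ d → G,
          ∑ x ∈ S, t * h x * (cz L V x + rd (prZ μ L d) b) = t * Y V := by
        intro t V
        rw [hY]
        simp only
        rw [Finset.mul_sum]
        exact Finset.sum_congr rfl fun x _ => by ring
      have e4 : ∀ t : ℝ, ∑ x ∈ S, (t * h x) ^ 2 = t ^ 2 * H := by
        intro t
        rw [hH, Finset.mul_sum]
        exact Finset.sum_congr rfl fun x _ => by ring
      simp only [e3, e4] at e1 e2
      rw [neg_sq] at e2
      have e5 : (χ + δ) / 2 * (t ^ 2 * H) = t ^ 2 * K := by rw [hK]; ring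
      rw [e5] at e1 e2
      have c1 : Continuous fun V : LZ d → G => 2 + (t * Y V) ^ 2 :=
        continuous_const.add ((continuous_const.mul hYc).pow 2)
      have c2 : Continuous fun V : LZ d → G => Real.exp (t * Y V) :=
        Real.continuous_exp.comp (continuous_const.mul hYc)
      have c3 : Continuous fun V : LZ d → G => Real.exp (-t * Y V) :=
        Real.continuous_exp.comp (continuous_const.mul hYc)
      have e6 : ∫ V, (2 + (t * Y V) ^ 2) ∂ν ≤ ∫ V, (Real.exp (t * Y V) + Real.exp (-t * Y V)) ∂ν := by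
        refine integral_mono (cont_integrable c1) ((cont_integrable c2).add (cont_integrable c3))
          fun V => ?_
        have := two_add_sq_le (t * Y V)
        rw [neg_mul]
        exact this
      rw [integral_add (cont_integrable c2) (cont_integrable c3)] at e6
      have e7 : ∫ V, (2 + (t * Y V) ^ 2) ∂ν = 2 + t ^ 2 * ∫ V, Y V ^ 2 ∂ν := by
        have c4 : Continuous fun V : LZ d → G => t ^ 2 * Y V ^ 2 :=
          continuous_const.mul (hYc.pow 2)
        have e8 : ∀ V, 2 + (t * Y V) ^ 2 = 2 + t ^ 2 * Y V ^ 2 := fun V => by ring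
        simp only [e8]
        rw [integral_add (integrable_const _) (cont_integrable c4), integral_const_mul]
        simp
      rw [e7] at e6
      have hK1 : 0 ≤ t ^ 2 * K := by positivity
      have e9 : Real.exp (t ^ 2 * K) ≤ 1 + t ^ 2 * K + (t ^ 2 * K) ^ 2 := by
        have := Real.abs_exp_sub_one_sub_id_le (x := t ^ 2 * K) (by rwa [abs_of_nonneg hK1])
        have := (abs_le.1 this).2
        linarith
      have e10 : t ^ 2 * ∫ V, Y V ^ 2 ∂ν ≤ t ^ 2 * (2 * K + 2 * K ^ 2 * t ^ 2) := by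
        have : t ^ 2 * (2 * K + 2 * K ^ 2 * t ^ 2) = 2 * (t ^ 2 * K + (t ^ 2 * K) ^ 2) := by ring
        rw [this]
        linarith
      exact le_of_mul_le_mul_left e10 (by positivity)
    have h2K : 2 * K = (χ + δ) * H := by rw [hK]; ring
    rw [← h2K]
    have h3 : Tendsto (fun t : ℝ => 2 * K + 2 * K ^ 2 * t ^ 2) (𝓝[>] 0)
        (𝓝 (2 * K + 2 * K ^ 2 * 0 ^ 2)) := by
      have hc : Continuous fun t : ℝ => 2 * K + 2 * K ^ 2 * t ^ 2 := by fun_prop
      exact (hc.tendsto 0).mono_left nhdsWithin_le_nhds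
    have h4 : 2 * K + 2 * K ^ 2 * (0 : ℝ) ^ 2 = 2 * K := by ring
    rw [h4] at h3
    refine ge_of_tendsto h3 ?_
    have t1 : Tendsto (fun t : ℝ => t * B) (𝓝[>] 0) (𝓝 (0 * B)) :=
      ((continuous_id.mul continuous_const).tendsto 0).mono_left nhdsWithin_le_nhds
    have t2 : Tendsto (fun t : ℝ => t ^ 2 * K) (𝓝[>] 0) (𝓝 (0 ^ 2 * K)) := by
      have hc : Continuous fun t : ℝ => t ^ 2 * K := by fun_prop
      exact (hc.tendsto 0).mono_left nhdsWithin_le_nhds
    rw [zero_mul] at t1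
    rw [zero_pow two_ne_zero, zero_mul] at t2
    filter_upwards [self_mem_nhdsWithin, t1.eventually_lt_const hη,
      t2.eventually_lt_const one_pos] with t a1 a2 a3
    exact step t a1 a2.le a3.le
  have h5 : Tendsto (fun δ : ℝ => (χ + δ) * H) (𝓝[>] 0) (𝓝 ((χ + 0) * H)) := by
    have hc : Continuous fun δ : ℝ => (χ + δ) * H := by fun_prop
    exact (hc.tendsto 0).mono_left nhdsWithin_le_nhds
  rw [add_zero] at h5
  have h6 : ∫ V, Y V ^ 2 ∂ν ≤ χ * H := by
    refine ge_of_tendsto h5 ?_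
    filter_upwards [self_mem_nhdsWithin] with δ hδ
    exact main δ hδ
  rw [hY, hH] at h6
  exact h6

end moments

end

end Pool.Agent.T2H01.YM
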