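import Mathlib
import Pool.Agent.T2H01.YM.Inf

/-!
# Time correlations of the energy density: reflection positivity on the periodic lattice
-/

open MeasureTheory Matrix Filter
open scoped Matrix.Norms.Frobenius ContDiff Topology
open Pool.Agent.H906R3.YM hiding Pl
open Pool.Agent.W793.YM Pool.Agent.TH618.YM

namespace Pool.Agent.T2H01.YM

set_option linter.unusedSectionVars false
set_option linter.unusedVariables false

noncomputable section

variable {G : Type*} [Group G] [TopologicalSpace G] [IsTopologicalGroup G] [CompactSpace G]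
  [SecondCountableTopology G] [MeasurableSpace G] [BorelSpace G] (μ : Measure G)
  [IsProbabilityMeasure μ] [μ.IsMulLeftInvariant] [μ.IsMulRightInvariant] [μ.IsInvInvariant]
  {N n : ℕ} {L : LD G N n}

section cov

variable {d l : ℕ} [NeZero l] {b : ℝ}

variable (L) in
/-- the covariance on the periodic lattice -/
def CV (b : ℝ) (f g : (Ed d l → G) → ℝ) : ℝ :=
  EX μ L b (fun U => f U * g U) - EX μ L b f * EX μ L b g

lemma CV_symm (f g : (Ed d l → G) → ℝ) : CV μ L b f g = CV μ L b g f := by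
  unfold CV
  simp only [mul_comm]

lemma CV_tr (z : Fin d → ZMod l) (f g : (Ed d l → G) → ℝ) :
    CV μ L b (fun U => f (tr z U)) (fun U => g (tr z U)) = CV μ L b f g := by
  unfold CV
  rw [EX_tr μ z f, EX_tr μ z g, EX_tr μ z (fun U => f U * g U)]

/-- the centred form -/
lemma CV_centre {f g : (Ed d l → G) → ℝ} (hf : Continuous f) (hg : Continuous g) :
    EX μ L b (fun U => (f U - EX μ L b f) * (g U - EX μ L b g)) = CV μ L b f g := by
  obtain ⟨a, ha⟩ : ∃ a, a = EX μ L b f := ⟨_, rfl⟩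
  obtain ⟨c, hc⟩ : ∃ c, c = EX μ L b g := ⟨_, rfl⟩
  rw [← ha, ← hc]
  have e1 : (fun U => (f U - a) * (g U - c)) = fun U => (f U * g U - a * g U) - (c * f U - a * c) := by
    funext U; ring
  have c1 : Continuous fun U => f U * g U := hf.mul hg
  have c2 : Continuous fun U => a * g U := continuous_const.mul hg
  have c3 : Continuous fun U => c * f U := continuous_const.mul hf
  have c4 : Continuous fun U => f U * g U - a * g U := c1.sub c2
  have c5 : Continuous fun U => c * f U - a * c := c3.sub continuous_const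
  rw [e1, EX_sub μ c4 c5, EX_sub μ c1 c2, EX_sub μ c3 continuous_const, EX_smul, EX_smul, EX_const,
    ← ha, ← hc]
  unfold CV
  rw [← ha, ← hc]
  ring

end cov

section site

variable {d m : ℕ} [NeZero m] {b : ℝ} {hm : 2 ≤ m} {i0 : Fin d}

lemma act_sU (U : Ed d (2 * m) → G) : act L ((SR hm i0).tU U) = act L U := by
  rw [← ce_sum, ← ce_sum]
  simp only [ce_sU]
  exact Equiv.sum_comp (eC (m := m) i0) fun x => ce L U x

lemma EX_sU (F : (Ed d (2 * m) → G) → ℝ) :
    EX μ L b (fun U => F ((SR hm i0).tU U)) = EX μ L b F := by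
  unfold EX Zt
  congr 1
  rw [← (SR hm i0).integral μ (fun U => F U * Real.exp (-(b * act L U)))]
  simp only [act_sU]

/-- the weighted form of the site reflection -/
lemma EX_SB (f g : (Ed d (2 * m) → G) → ℝ) :
    EX μ L b (fun U => f U * g ((SR hm i0).tU U)) =
      SB μ (SR hm i0) (fun U => f U * Real.exp (-(b * sS L i0 U)))
        (fun U => g U * Real.exp (-(b * sS L i0 U))) /
      Zt μ L b (fun _ : Ed d (2 * m) → G => 1) := by
  unfold EX
  congr 1
  unfold Zt SB
  refine integral_congr_ae (Filter.Eventually.of_forall fun U => ?_)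
  simp only
  rw [act_sS (i0 := i0) hm]
  have h2 : ∀ a c : ℝ, Real.exp (-(b * (a + c))) =
      Real.exp (-(b * a)) * Real.exp (-(b * c)) := by
    intro a c
    rw [← Real.exp_add]
    congr 1; ring
  rw [h2]
  ring

theorem CV_site {f g : (Ed d (2 * m) → G) → ℝ} (hf : Continuous f) (hg : Continuous g)
    (hfd : Dep (HQ i0) f) (hgd : Dep (HQ i0) g) :
    CV μ L b f (fun U => g ((SR hm i0).tU U)) ^ 2 ≤
      CV μ L b f (fun U => f ((SR hm i0).tU U)) * CV μ L b g (fun U => g ((SR hm i0).tU U)) ∧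
    0 ≤ CV μ L b f (fun U => f ((SR hm i0).tU U)) := by
  have hθ : Continuous ((SR hm i0).tU (G := G)) := (SR hm i0).tU_cont
  have key : ∀ f g : (Ed d (2 * m) → G) → ℝ, Continuous f → Continuous g →
      CV μ L b f (fun U => g ((SR hm i0).tU U)) =
      SB μ (SR hm i0) (fun U => (f U - EX μ L b f) * Real.exp (-(b * sS L i0 U)))
        (fun U => (g U - EX μ L b g) * Real.exp (-(b * sS L i0 U))) /
      Zt μ L b (fun _ : Ed d (2 * m) → G => 1) := by
    intro f g hf hg
    rw [← EX_SB μ (fun U => f U - EX μ L b f) (fun U => g U - EX μ L b g)]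
    have hg' : Continuous fun U => g ((SR hm i0).tU U) := hg.comp hθ
    rw [← CV_centre μ hf hg', EX_sU μ g]
  have hwc : Continuous fun U : Ed d (2 * m) → G => Real.exp (-(b * sS L i0 U)) :=
    Real.continuous_exp.comp (continuous_const.mul (sS_cont i0)).neg
  have hc : ∀ f : (Ed d (2 * m) → G) → ℝ, Continuous f →
      Continuous fun U => (f U - EX μ L b f) * Real.exp (-(b * sS L i0 U)) := fun f hf =>
    (hf.sub continuous_const).mul hwc
  have hd : ∀ f : (Ed d (2 * m) → G) → ℝ, Dep (HQ i0) f →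
      Dep (fun e => PP i0 e ∨ (SR hm i0).R e)
        fun U => (f U - EX μ L b f) * Real.exp (-(b * sS L i0 U)) := fun f hf => by
    refine Dep_HQ hm fun U U' hU => ?_
    rw [hf U U' hU, sS_dep (L := L) hm U U' hU]
  have hZ := Zt_pos μ (L := L) (d := d) (l := 2 * m) b
  rw [key f g hf hg, key f f hf hf, key g g hg hg]
  have cs := Pool.Agent.H906R3.YM.sq_le_of_forall fun t =>
    SB_quad μ (SR hm i0) (PP i0) PP_fix PP_th (hc f hf) (hd f hfd) (hc g hg) (hd g hgd) t
  have nn := SB_self μ (SR hm i0) (PP i0) PP_fix PP_th (hc f hf) (hd f hfd)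
  constructor
  · rw [div_pow, div_mul_div_comm, pow_two (Zt μ L b _)]
    exact div_le_div_of_nonneg_right cs (by positivity)
  · exact div_nonneg nn hZ.le

/-- the reflected covariance is at most the variance -/
lemma CV_le_var {f : (Ed d (2 * m) → G) → ℝ} (hf : Continuous f) :
    CV μ L b f (fun U => f ((SR hm i0).tU U)) ≤ CV μ L b f f := by
  have hθ : Continuous ((SR hm i0).tU (G := G)) := (SR hm i0).tU_cont
  obtain ⟨f', hf'⟩ : ∃ f' : (Ed d (2 * m) → G) → ℝ, f' = fun U => f U - EX μ L b f := ⟨_, rfl⟩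
  have hc : Continuous f' := by rw [hf']; exact hf.sub continuous_const
  have e1 : CV μ L b f (fun U => f ((SR hm i0).tU U)) =
      EX μ L b (fun U => f' U * f' ((SR hm i0).tU U)) := by
    have hf2 : Continuous fun U => f ((SR hm i0).tU U) := hf.comp hθ
    rw [← CV_centre μ hf hf2, hf', EX_sU μ f]
  have e2 : CV μ L b f f = EX μ L b (fun U => f' U * f' U) := by
    rw [← CV_centre μ hf hf, hf']
  have e3 : EX μ L b (fun U => f' ((SR hm i0).tU U) * f' ((SR hm i0).tU U)) =
      EX μ L b (fun U => f' U * f' U) := EX_sU μ (fun U => f' U * f' U)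
  have c1 : Continuous fun U => f' U * f' ((SR hm i0).tU U) := hc.mul (hc.comp hθ)
  have c2 : Continuous fun U => f' U * f' U := hc.mul hc
  have c3 : Continuous fun U => f' ((SR hm i0).tU U) * f' ((SR hm i0).tU U) :=
    (hc.comp hθ).mul (hc.comp hθ)
  have h1 : EX μ L b (fun U => 2 * (f' U * f' ((SR hm i0).tU U))) ≤
      EX μ L b (fun U => f' U * f' U + f' ((SR hm i0).tU U) * f' ((SR hm i0).tU U)) := by
    refine EX_mono μ (continuous_const.mul c1) (c2.add c3) fun U => ?_
    nlinarith [sq_nonneg (f' U - f' ((SR hm i0).tU U))]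
  rw [EX_smul, EX_add μ c2 c3, e3] at h1
  rw [e1, e2]
  linarith

end site

section link

variable {d m : ℕ} [NeZero m] {b : ℝ} {hm : 2 ≤ m} {i0 : Fin d}

lemma act_tU' (U : Ed d (2 * m) → G) : act L ((TR hm i0).tU U) = act L U := by
  rw [← ce_sum, ← ce_sum]
  simp only [ce_tU]
  exact Equiv.sum_comp (eB (m := m) i0) fun x => ce L U x

lemma EX_tU (F : (Ed d (2 * m) → G) → ℝ) :
    EX μ L b (fun U => F ((TR hm i0).tU U)) = EX μ L b F := by
  unfold EX Zt
  congr 1
  rw [← (TR hm i0).integral μ (fun U => F U * Real.exp (-(b * act L U)))]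
  simp only [act_tU']

variable (hm i0) in
/-- observables of the half lattice for the link reflection -/
structure LO (f : (Ed d (2 * m) → G) → ℝ) : Prop where
  cont : Continuous f
  gi : GI f
  gi' : GI fun U => f ((TR hm i0).tU U)
  dep : Dep (TR hm i0).R f
  fx : ∀ U, f (fix i0 U) = f U
  fx' : ∀ U, f ((TR hm i0).tU (fix i0 U)) = f ((TR hm i0).tU U)

theorem CV_link (hb : 0 ≤ b) {f g : (Ed d (2 * m) → G) → ℝ} (hf : LO hm i0 f) (hg : LO hm i0 g) :
    CV μ L b f (fun U => g ((TR hm i0).tU U)) ^ 2 ≤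
      CV μ L b f (fun U => f ((TR hm i0).tU U)) * CV μ L b g (fun U => g ((TR hm i0).tU U)) ∧
    0 ≤ CV μ L b f (fun U => f ((TR hm i0).tU U)) := by
  have hθ : Continuous ((TR hm i0).tU (G := G)) := (TR hm i0).tU_cont
  obtain ⟨c, hc, hred⟩ := Zt_red μ (L := L) hm i0 b
  have key : ∀ f g : (Ed d (2 * m) → G) → ℝ, LO hm i0 f → LO hm i0 g →
      CV μ L b f (fun U => g ((TR hm i0).tU U)) =
      c / Zt μ L b (fun _ : Ed d (2 * m) → G => 1) *
      (TR hm i0).B μ L b (fun U => (f U - EX μ L b f) * (wR L b m i0).1 U)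
        (fun U => (g U - EX μ L b g) * (wR L b m i0).1 U) := by
    intro f g hf hg
    have hg' : Continuous fun U => g ((TR hm i0).tU U) := hg.cont.comp hθ
    rw [← CV_centre μ hf.cont hg', EX_tU μ g]
    obtain ⟨a, ha⟩ : ∃ a, a = EX μ L b f := ⟨_, rfl⟩
    obtain ⟨a', ha'⟩ : ∃ a', a' = EX μ L b g := ⟨_, rfl⟩
    rw [← ha, ← ha']
    unfold EX
    rw [hred (fun U => (f U - a) * (g ((TR hm i0).tU U) - a'))
      ((hf.cont.sub continuous_const).mul ((hg.cont.comp hθ).sub continuous_const))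
      (fun γ U => by
        show (f (gt γ U) - a) * (g ((TR hm i0).tU (gt γ U)) - a') =
          (f U - a) * (g ((TR hm i0).tU U) - a')
        have h1 := hf.gi γ U
        have h2 := hg.gi' γ U
        simp only at h2
        rw [h1, h2])]
    rw [mul_div_right_comm]
    congr 1
    unfold Refl.Ew Refl.B
    refine integral_congr_ae (Filter.Eventually.of_forall fun U => ?_)
    simp only
    rw [hf.fx, hg.fx']
    ring
  have hco : ∀ f : (Ed d (2 * m) → G) → ℝ, LO hm i0 f →
      Continuous fun U => (f U - EX μ L b f) * (wR L b m i0).1 U := fun f hf =>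
    (hf.cont.sub continuous_const).mul (Sm_cont _)
  have hd : ∀ f : (Ed d (2 * m) → G) → ℝ, LO hm i0 f →
      Dep (TR hm i0).R fun U => (f U - EX μ L b f) * (wR L b m i0).1 U := fun f hf => by
    intro U U' hU
    simp only
    rw [hf.dep U U' hU, wR_dep (L := L) hm b i0 U U' hU]
  have hZ := Zt_pos μ (L := L) (d := d) (l := 2 * m) b
  rw [key f g hf hg, key f f hf hf, key g g hg hg]
  have cs := (TR hm i0).B_cs μ (L := L) hb (hco f hf) (hd f hf) (hco g hg) (hd g hg)
  have nn := (TR hm i0).B_self μ (L := L) hb (hco f hf) (hd f hf)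
  have hk : 0 < c / Zt μ L b (fun _ : Ed d (2 * m) → G => 1) := by positivity
  constructor
  · have h3 := mul_le_mul_of_nonneg_left cs (sq_nonneg (c / Zt μ L b (fun _ : Ed d (2 * m) → G => 1)))
    refine le_trans (le_of_eq ?_) (h3.trans (le_of_eq ?_)) <;> ring
  · exact mul_nonneg hk.le nn

end link

/-! ### energies of slabs -/

section slab

variable {d : ℕ}

variable (L) in
/-- the energy with the profile `h` in the slab at `s` -/
def sb (l : ℕ) (i0 : Fin d) (a : ℤ) (S : Finset (Fin d → ℤ)) (h : (Fin d → ℤ) → ℝ) (s : ZMod l)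
    (U : Ed d l → G) : ℝ := ∑ x ∈ S, h x * ce L U (cs l x + Pi.single i0 (s - (a : ZMod l)))

variable {l : ℕ} {i0 : Fin d} {a : ℤ} {S : Finset (Fin d → ℤ)} {h : (Fin d → ℤ) → ℝ}

lemma sb_tr [NeZero l] (s t : ZMod l) (U : Ed d l → G) :
    sb L l i0 a S h s (tr (Pi.single i0 t) U) = sb L l i0 a S h (s + t) U := by
  unfold sb
  refine Finset.sum_congr rfl fun x _ => ?_
  rw [ce_tr, add_assoc, ← Pi.single_add]
  congr 4
  ring

lemma sb_cont [NeZero l] (s : ZMod l) : Continuous (sb (G := G) L l i0 a S h s) :=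
  continuous_finsetSum _ fun x _ => continuous_const.mul (ce_cont _)

lemma sb_gi [NeZero l] (s : ZMod l) : GI (sb (G := G) L l i0 a S h s) := by
  intro γ U
  refine Finset.sum_congr rfl fun x _ => ?_
  have := ce_gt (L := L) (cs l x + Pi.single i0 (s - (a : ZMod l))) γ U
  simp only at this
  rw [this]

variable {m : ℕ} [NeZero m] {hm : 2 ≤ m} (hS : ∀ x ∈ S, x i0 = a)

include hS in
lemma sb_coord {x : Fin d → ℤ} (hx : x ∈ S) (s : ZMod l) :
    (cs l x + Pi.single i0 (s - (a : ZMod l)) : Fin d → ZMod l) i0 = s := by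
  simp [cs, hS x hx]

include hS in
lemma sb_sU (s : ZMod (2 * m)) (U : Ed d (2 * m) → G) :
    sb L (2 * m) i0 a S h s ((SR hm i0).tU U) = sb L (2 * m) i0 a S h (-1 - s) U := by
  unfold sb
  refine Finset.sum_congr rfl fun x hx => ?_
  rw [ce_sU]
  congr 2
  have h1 := sb_coord (l := 2 * m) hS hx s
  unfold rC
  rw [h1]
  funext k
  by_cases hk : k = i0
  · subst hk
    simp [cs, hS x hx]
  · simp [hk]

include hS in
lemma sb_tU (s : ZMod (2 * m)) (U : Ed d (2 * m) → G) :
    sb L (2 * m) i0 a S h s ((TR hm i0).tU U) = sb L (2 * m) i0 a S h (-s) U := by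
  unfold sb
  refine Finset.sum_congr rfl fun x hx => ?_
  rw [ce_tU]
  congr 2
  have h1 := sb_coord (l := 2 * m) hS hx s
  unfold rB
  rw [h1]
  funext k
  by_cases hk : k = i0
  · subst hk
    simp [cs, hS x hx]
  · simp [hk]

include hS in
lemma sb_HQ {s : ZMod (2 * m)} (hs : s.val < m) : Dep (HQ i0) (sb (G := G) L (2 * m) i0 a S h s) := by
  intro U U' hU
  refine Finset.sum_congr rfl fun x hx => ?_
  have h1 : ce L U (cs (2 * m) x + Pi.single i0 (s - (a : ZMod (2 * m)))) =
      ce L U' (cs (2 * m) x + Pi.single i0 (s - (a : ZMod (2 * m)))) :=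
    ce_HQ (L := L) (i0 := i0) (by rw [sb_coord hS hx]; exact hs) U U' hU
  rw [h1]

include hS in
lemma sb_LO {s : ZMod (2 * m)} (hs : H2 m s) : LO hm i0 (sb (G := G) L (2 * m) i0 a S h s) where
  cont := sb_cont s
  gi := sb_gi s
  gi' := by
    have e : (fun U : Ed d (2 * m) → G => sb L (2 * m) i0 a S h s ((TR hm i0).tU U)) =
        sb L (2 * m) i0 a S h (-s) := by
      funext U; exact sb_tU hS s U
    rw [e]
    exact sb_gi _
  dep := by
    intro U U' hU
    refine Finset.sum_congr rfl fun x hx => ?_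
    have h1 : ce L U (cs (2 * m) x + Pi.single i0 (s - (a : ZMod (2 * m)))) =
        ce L U' (cs (2 * m) x + Pi.single i0 (s - (a : ZMod (2 * m)))) :=
      ce_TRdep (L := L) (hm := hm) (i0 := i0) (by rw [sb_coord hS hx]; exact hs) U U' hU
    rw [h1]
  fx := by
    intro U
    refine Finset.sum_congr rfl fun x hx => ?_
    rw [ce_fix (by rw [sb_coord hS hx]; exact H2_not hm hs)]
  fx' := by
    intro U
    rw [sb_tU hS, sb_tU hS]
    refine Finset.sum_congr rfl fun x hx => ?_
    rw [ce_fix (by rw [sb_coord hS hx]; exact H2_not' hm (by rwa [neg_neg]))]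

variable {b : ℝ}

/-- the correlation depends on the difference -/
lemma CV_sb [NeZero l] (s t : ZMod l) : CV μ L b (sb L l i0 a S h s) (sb L l i0 a S h t) =
    CV μ L b (sb L l i0 a S h 0) (sb L l i0 a S h (t - s)) := by
  have h1 := CV_tr μ (L := L) (b := b) (Pi.single i0 s) (sb (G := G) L l i0 a S h 0)
    (sb L l i0 a S h (t - s))
  simp only [sb_tr, zero_add, sub_add_cancel] at h1
  exact h1

lemma CV_sb_neg [NeZero l] (t : ZMod l) :
    CV μ L b (sb L l i0 a S h 0) (sb L l i0 a S h (-t)) =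
    CV μ L b (sb L l i0 a S h 0) (sb L l i0 a S h t) := by
  rw [CV_symm, CV_sb μ (-t) 0, zero_sub, neg_neg]

variable (L) in
/-- the time correlation on the periodic lattice -/
def ct (b : ℝ) (l : ℕ) [NeZero l] (i0 : Fin d) (a : ℤ) (S : Finset (Fin d → ℤ))
    (h : (Fin d → ℤ) → ℝ) (t : ℕ) : ℝ :=
  CV μ L b (sb L l i0 a S h 0) (sb L l i0 a S h (t : ZMod l))

include hS in
lemma ct_site (hm : 2 ≤ m) {s t : ℕ} (hs : s < m) (ht : t < m) :
    ct μ L b (2 * m) i0 a S h (s + t + 1) ^ 2 ≤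
      ct μ L b (2 * m) i0 a S h (2 * s + 1) * ct μ L b (2 * m) i0 a S h (2 * t + 1) ∧
    0 ≤ ct μ L b (2 * m) i0 a S h (2 * s + 1) := by
  have key : ∀ s t : ℕ, CV μ L b (sb L (2 * m) i0 a S h (s : ZMod (2 * m)))
      (fun U => sb L (2 * m) i0 a S h (t : ZMod (2 * m)) ((SR hm i0).tU U)) =
      ct μ L b (2 * m) i0 a S h (s + t + 1) := by
    intro s t
    have e : (fun U : Ed d (2 * m) → G => sb L (2 * m) i0 a S h (t : ZMod (2 * m))
        ((SR hm i0).tU U)) = sb L (2 * m) i0 a S h (-1 - (t : ZMod (2 * m))) := by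
      funext U; exact sb_sU hS _ U
    rw [e, CV_sb]
    have e2 : -1 - (t : ZMod (2 * m)) - (s : ZMod (2 * m)) =
        -((s + t + 1 : ℕ) : ZMod (2 * m)) := by push_cast; ring
    rw [e2, CV_sb_neg]
    rfl
  have h1 := CV_site μ (L := L) (b := b) (hm := hm) (i0 := i0)
    (sb_cont (L := L) (G := G) (i0 := i0) (a := a) (S := S) (h := h) (s : ZMod (2 * m)))
    (sb_cont (L := L) (G := G) (i0 := i0) (a := a) (S := S) (h := h) (t : ZMod (2 * m)))
    (sb_HQ hS (by rw [val_nat (by omega)]; exact hs)) (sb_HQ hS (by rw [val_nat (by omega)]; exact ht))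
  rw [key, key, key] at h1
  have a1 : s + s + 1 = 2 * s + 1 := by omega
  have a2 : t + t + 1 = 2 * t + 1 := by omega
  rw [a1, a2] at h1
  exact h1

include hS in
lemma ct_link (hm : 2 ≤ m) (hb : 0 ≤ b) {s t : ℕ} (hs0 : 1 ≤ s) (ht0 : 1 ≤ t) (hs : s < m)
    (ht : t < m) :
    ct μ L b (2 * m) i0 a S h (s + t) ^ 2 ≤
      ct μ L b (2 * m) i0 a S h (2 * s) * ct μ L b (2 * m) i0 a S h (2 * t) ∧
    0 ≤ ct μ L b (2 * m) i0 a S h (2 * s) := by
  have key : ∀ s t : ℕ, CV μ L b (sb L (2 * m) i0 a S h (s : ZMod (2 * m)))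
      (fun U => sb L (2 * m) i0 a S h (t : ZMod (2 * m)) ((TR hm i0).tU U)) =
      ct μ L b (2 * m) i0 a S h (s + t) := by
    intro s t
    have e : (fun U : Ed d (2 * m) → G => sb L (2 * m) i0 a S h (t : ZMod (2 * m))
        ((TR hm i0).tU U)) = sb L (2 * m) i0 a S h (-(t : ZMod (2 * m))) := by
      funext U; exact sb_tU hS _ U
    rw [e, CV_sb]
    have e2 : -(t : ZMod (2 * m)) - (s : ZMod (2 * m)) =
        -((s + t : ℕ) : ZMod (2 * m)) := by push_cast; ring
    rw [e2, CV_sb_neg]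
    rfl
  have hH : ∀ s : ℕ, 1 ≤ s → s < m → H2 m (s : ZMod (2 * m)) := fun s h1 h2 => by
    unfold H2
    rw [val_nat (by omega)]
    exact ⟨h1, h2⟩
  have h1 := CV_link μ (L := L) (b := b) (hm := hm) (i0 := i0) hb
    (sb_LO (L := L) (G := G) (h := h) hS (hH s hs0 hs)) (sb_LO (L := L) (G := G) (h := h) hS (hH t ht0 ht))
  rw [key, key, key] at h1
  have a1 : s + s = 2 * s := by omega
  have a2 : t + t = 2 * t := by omega
  rw [a1, a2] at h1
  exact h1

include hS in
/-- nonnegativity -/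
lemma ct_nonneg (hm : 2 ≤ m) (hb : 0 ≤ b) {t : ℕ} (ht0 : 1 ≤ t) (ht : t < m) :
    0 ≤ ct μ L b (2 * m) i0 a S h t := by
  rcases Nat.even_or_odd' t with ⟨u, hu | hu⟩
  · rw [hu]
    exact (ct_link μ (L := L) (b := b) (h := h) hS hm hb (s := u) (t := u) (by omega) (by omega)
      (by omega) (by omega)).2
  · rw [hu]
    exact (ct_site μ (L := L) (b := b) (h := h) hS hm (s := u) (t := u) (by omega) (by omega)).2

include hS in
/-- log-convexity -/
lemma ct_conv (hm : 2 ≤ m) (hb : 0 ≤ b) {t : ℕ} (ht : t + 3 < m) :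
    ct μ L b (2 * m) i0 a S h (t + 2) ^ 2 ≤
      ct μ L b (2 * m) i0 a S h (t + 1) * ct μ L b (2 * m) i0 a S h (t + 3) := by
  rcases Nat.even_or_odd' t with ⟨u, hu | hu⟩
  · have h1 := (ct_site μ (L := L) (b := b) (h := h) hS hm (s := u) (t := u + 1) (by omega)
      (by omega)).1
    have e1 : u + (u + 1) + 1 = t + 2 := by omega
    have e2 : 2 * u + 1 = t + 1 := by omega
    have e3 : 2 * (u + 1) + 1 = t + 3 := by omega
    rwa [e1, e2, e3] at h1
  · have h1 := (ct_link μ (L := L) (b := b) (h := h) hS hm hb (s := u + 1) (t := u + 2) (by omega)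
      (by omega) (by omega) (by omega)).1
    have e1 : u + 1 + (u + 2) = t + 2 := by omega
    have e2 : 2 * (u + 1) = t + 1 := by omega
    have e3 : 2 * (u + 2) = t + 3 := by omega
    rwa [e1, e2, e3] at h1

include hS in
/-- correlation with a general observable of the half lattice -/
lemma ct_general (hm : 2 ≤ m) {F : (Ed d (2 * m) → G) → ℝ} (hF : Continuous F)
    (hFd : Dep (HQ i0) F) {s : ℕ} (hs : s < m) :
    CV μ L b F (sb L (2 * m) i0 a S h (-1 - (s : ZMod (2 * m)))) ^ 2 ≤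
      CV μ L b F F * ct μ L b (2 * m) i0 a S h (2 * s + 1) := by
  have e : (fun U : Ed d (2 * m) → G => sb L (2 * m) i0 a S h (s : ZMod (2 * m))
      ((SR hm i0).tU U)) = sb L (2 * m) i0 a S h (-1 - (s : ZMod (2 * m))) := by
    funext U; exact sb_sU hS _ U
  have h1 := CV_site μ (L := L) (b := b) (hm := hm) (i0 := i0) hF
    (sb_cont (L := L) (G := G) (i0 := i0) (a := a) (S := S) (h := h) (s : ZMod (2 * m)))
    hFd (sb_HQ hS (by rw [val_nat (by omega)]; exact hs))
  rw [e] at h1
  have h2 := CV_le_var μ (L := L) (b := b) (hm := hm) (i0 := i0) hF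
  have h3 : CV μ L b (sb L (2 * m) i0 a S h (s : ZMod (2 * m)))
      (sb L (2 * m) i0 a S h (-1 - (s : ZMod (2 * m)))) = ct μ L b (2 * m) i0 a S h (2 * s + 1) := by
    rw [CV_sb]
    have e2 : -1 - (s : ZMod (2 * m)) - (s : ZMod (2 * m)) =
        -((2 * s + 1 : ℕ) : ZMod (2 * m)) := by push_cast; ring
    rw [e2, CV_sb_neg]
    rfl
  rw [h3] at h1
  have h4 := (ct_site μ (L := L) (b := b) (h := h) hS hm (s := s) (t := s) hs hs).2
  exact h1.1.trans (mul_le_mul_of_nonneg_right h2 h4)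

end slab

end

end Pool.Agent.T2H01.YM
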