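import Mathlib
import Pool.Agent.T2H01.YM.Tim

/-!
# Time correlations of the energy density in the infinite volume
-/

open MeasureTheory Matrix Filter
open scoped Matrix.Norms.Frobenius ContDiff Topology
open Pool.Agent.H906R3.YM hiding Pl
open Pool.Agent.W793.YM Pool.Agent.TH618.YM

namespace Pool.Agent.T2H01.YM

set_option linter.unusedSectionVars false
set_option linter.unusedVariables false

noncomputable section

/-! ### sequences -/

section seq

/-- bounded convex sequences are nonincreasing -/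
lemma conv_anti {c : ℕ → ℝ} {B : ℝ} (hB : ∀ t, c t ≤ B)
    (hc : ∀ t, 2 * c (t + 2) ≤ c (t + 1) + c (t + 3)) (t : ℕ) : c (t + 2) ≤ c (t + 1) := by
  by_contra hlt
  rw [not_le] at hlt
  obtain ⟨δ, hδ⟩ : ∃ δ, δ = c (t + 2) - c (t + 1) := ⟨_, rfl⟩
  have hδ0 : 0 < δ := by rw [hδ]; linarith
  have h1 : ∀ k, δ ≤ c (t + k + 2) - c (t + k + 1) := by
    intro k
    induction k with
    | zero => simp only [add_zero]; exact hδ.le
    | succ k ih =>
      have h2 := hc (t + k)
      have e1 : t + (k + 1) + 2 = t + k + 3 := by omega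
      have e2 : t + (k + 1) + 1 = t + k + 2 := by omega
      rw [e1, e2]
      linarith
  have h2 : ∀ k : ℕ, c (t + 1) + k * δ ≤ c (t + k + 1) := by
    intro k
    induction k with
    | zero => simp
    | succ k ih =>
      have h3 := h1 k
      have e1 : t + (k + 1) + 1 = t + k + 2 := by omega
      rw [e1]
      push_cast
      linarith
  obtain ⟨k, hk⟩ := exists_nat_gt ((B - c (t + 1)) / δ)
  rw [div_lt_iff₀ hδ0] at hk
  have := h2 k
  have := hB (t + k + 1)
  linarith

lemma conv_of_log {a b c : ℝ} (ha : 0 ≤ a) (hc : 0 ≤ c) (hb : 0 ≤ b) (h : b ^ 2 ≤ a * c) :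
    2 * b ≤ a + c := by
  nlinarith [sq_nonneg (a - c), sq_nonneg (a + c - 2 * b), sq_nonneg (a + c)]

/-- the double sum -/
lemma double_sum {c : ℕ → ℝ} (hc : ∀ t, 0 ≤ c t) {n T s : ℕ} (h1 : T ≤ s) (h2 : s + T < n) :
    c 0 + 2 * ∑ t ∈ Finset.range T, c (t + 1) ≤
      ∑ s' ∈ Finset.range n, c ((s : ℤ) - s').natAbs := by
  classical
  have hinj1 : Set.InjOn (fun t => s + 1 + t) (Finset.range T : Set ℕ) := fun a _ b _ h => by
    simp only at h; omega
  have hinj2 : Set.InjOn (fun t => s - 1 - t) (Finset.range T : Set ℕ) := fun a ha b hb h => by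
    rw [Finset.mem_coe, Finset.mem_range] at ha hb
    simp only at h; omega
  have e1 : ∑ t ∈ Finset.range T, c (t + 1) =
      ∑ s' ∈ (Finset.range T).image (fun t => s + 1 + t), c ((s : ℤ) - s').natAbs := by
    rw [Finset.sum_image hinj1]
    refine Finset.sum_congr rfl fun t _ => ?_
    congr 1
    push_cast
    omega
  have e2 : ∑ t ∈ Finset.range T, c (t + 1) =
      ∑ s' ∈ (Finset.range T).image (fun t => s - 1 - t), c ((s : ℤ) - s').natAbs := by
    rw [Finset.sum_image hinj2]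
    refine Finset.sum_congr rfl fun t ht => ?_
    rw [Finset.mem_range] at ht
    congr 1
    omega
  have e3 : c 0 = ∑ s' ∈ ({s} : Finset ℕ), c ((s : ℤ) - s').natAbs := by simp
  have d1 : Disjoint ((Finset.range T).image (fun t => s + 1 + t))
      ((Finset.range T).image (fun t => s - 1 - t)) := by
    rw [Finset.disjoint_left]
    intro x hx hx'
    rw [Finset.mem_image] at hx hx'
    obtain ⟨a, ha, rfl⟩ := hx
    obtain ⟨a', ha', h⟩ := hx'
    omega
  have d2 : Disjoint ({s} : Finset ℕ) ((Finset.range T).image (fun t => s + 1 + t) ∪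
      (Finset.range T).image (fun t => s - 1 - t)) := by
    rw [Finset.disjoint_left]
    intro x hx hx'
    rw [Finset.mem_singleton] at hx
    rw [Finset.mem_union, Finset.mem_image, Finset.mem_image] at hx'
    rcases hx' with ⟨a, ha, h⟩ | ⟨a, ha, h⟩
    · omega
    · rw [Finset.mem_range] at ha
      omega
  rw [two_mul]
  nth_rewrite 1 [e1]
  rw [e2, e3, ← Finset.sum_union d1, ← Finset.sum_union d2]
  refine Finset.sum_le_sum_of_subset_of_nonneg ?_ fun x _ _ => hc _
  intro x hx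
  rw [Finset.mem_range]
  rw [Finset.mem_union, Finset.mem_union, Finset.mem_singleton, Finset.mem_image,
    Finset.mem_image] at hx
  rcases hx with h | ⟨a, ha, h⟩ | ⟨a, ha, h⟩
  · omega
  · rw [Finset.mem_range] at ha; omega
  · rw [Finset.mem_range] at ha; omega

/-- summability of nonnegative correlations -/
lemma sum_bound {c : ℕ → ℝ} (hc : ∀ t, 0 ≤ c t) {K : ℝ}
    (h : ∀ n : ℕ, ∑ s ∈ Finset.range n, ∑ s' ∈ Finset.range n, c ((s : ℤ) - s').natAbs ≤ n * K)
    (T : ℕ) : c 0 + 2 * ∑ t ∈ Finset.range T, c (t + 1) ≤ K := by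
  obtain ⟨Q, hQ⟩ : ∃ Q, Q = c 0 + 2 * ∑ t ∈ Finset.range T, c (t + 1) := ⟨_, rfl⟩
  rw [← hQ]
  have key : ∀ n : ℕ, (n : ℝ) * Q ≤ (n + 2 * T : ℕ) * K := by
    intro n
    refine le_trans ?_ (h (n + 2 * T))
    calc (n : ℝ) * Q = ∑ _s ∈ Finset.Ico T (n + T), Q := by
          rw [Finset.sum_const, Nat.card_Ico, nsmul_eq_mul]
          congr 2
          omega
      _ ≤ ∑ s ∈ Finset.Ico T (n + T), ∑ s' ∈ Finset.range (n + 2 * T), c ((s : ℤ) - s').natAbs := by
          refine Finset.sum_le_sum fun s hs => ?_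
          rw [Finset.mem_Ico] at hs
          rw [hQ]
          exact double_sum hc hs.1 (by omega)
      _ ≤ _ := by
          refine Finset.sum_le_sum_of_subset_of_nonneg ?_ fun x _ _ =>
            Finset.sum_nonneg fun _ _ => hc _
          intro s hs
          rw [Finset.mem_Ico] at hs
          rw [Finset.mem_range]
          omega
  have h1 : Tendsto (fun n : ℕ => K + 2 * T * K * ((n : ℝ) + 1)⁻¹) atTop (𝓝 (K + 2 * T * K * 0)) := by
    have h2 : Tendsto (fun n : ℕ => ((n : ℝ) + 1)⁻¹) atTop (𝓝 0) := by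
      have := tendsto_one_div_add_atTop_nhds_zero_nat (𝕜 := ℝ)
      simpa using this
    exact (h2.const_mul _).const_add _
  rw [mul_zero, add_zero] at h1
  refine ge_of_tendsto' h1 fun n => ?_
  have h3 := key (n + 1)
  have h4 : (0 : ℝ) < (n : ℝ) + 1 := by positivity
  rw [← mul_le_mul_iff_right₀ h4]
  push_cast at h3
  have h5 : ((n : ℝ) + 1) * (K + 2 * T * K * ((n : ℝ) + 1)⁻¹) = (n + 1 + 2 * T) * K := by
    field_simp
  rw [h5]
  exact h3

end seq

variable {G : Type*} [Group G] [TopologicalSpace G] [IsTopologicalGroup G] [CompactSpace G]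
  [SecondCountableTopology G] [MeasurableSpace G] [BorelSpace G] (μ : Measure G)
  [IsProbabilityMeasure μ] [μ.IsMulLeftInvariant] [μ.IsMulRightInvariant] [μ.IsInvInvariant]
  {N n : ℕ} {L : LD G N n} {d : ℕ}

/-- covariance -/
def cov {X : Type*} [MeasurableSpace X] (ν : Measure X) (f g : X → ℝ) : ℝ :=
  ∫ x, f x * g x ∂ν - (∫ x, f x ∂ν) * ∫ x, g x ∂ν

section covs

variable {X : Type*} [TopologicalSpace X] [CompactSpace X] [MeasurableSpace X]
  [OpensMeasurableSpace X] {ν : Measure X} [IsProbabilityMeasure ν] {f g h : X → ℝ}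

lemma cov_symm : cov ν f g = cov ν g f := by
  unfold cov
  simp only [mul_comm]

lemma cov_centre (hf : Continuous f) (hg : Continuous g) (a c : ℝ) (ha : a = ∫ x, f x ∂ν) :
    ∫ x, (f x - a) * (g x - c) ∂ν = cov ν f g := by
  have e1 : ∀ x, (f x - a) * (g x - c) = (f x * g x - a * g x) - (c * f x - a * c) := fun x => by
    ring
  have i1 : Integrable (fun x => f x * g x) ν := cont_integrable (hf.mul hg)
  have i2 : Integrable (fun x => a * g x) ν := cont_integrable (continuous_const.mul hg)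
  have i3 : Integrable (fun x => c * f x) ν := cont_integrable (continuous_const.mul hf)
  have i12 : Integrable (fun x => f x * g x - a * g x) ν := i1.sub i2
  have i34 : Integrable (fun x => c * f x - a * c) ν := i3.sub (integrable_const _)
  simp only [e1]
  rw [integral_sub i12 i34, integral_sub i1 i2,
    integral_sub i3 (integrable_const _), integral_const_mul, integral_const_mul, integral_const,
    ← ha]
  unfold cov
  rw [← ha]
  simp
  ring

lemma cov_self_nonneg (hf : Continuous f) : 0 ≤ cov ν f f := by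
  rw [← cov_centre hf hf _ (∫ x, f x ∂ν) rfl]
  exact integral_nonneg fun x => mul_self_nonneg _

lemma cov_add_right (hf : Continuous f) (hg : Continuous g) (hh : Continuous h) :
    cov ν f (fun x => g x + h x) = cov ν f g + cov ν f h := by
  unfold cov
  have i1 : Integrable (fun x => f x * g x) ν := cont_integrable (hf.mul hg)
  have i2 : Integrable (fun x => f x * h x) ν := cont_integrable (hf.mul hh)
  simp only [mul_add]
  rw [integral_add i1 i2, integral_add (cont_integrable hg) (cont_integrable hh)]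
  ring

lemma cov_smul_right (c : ℝ) : cov ν f (fun x => c * g x) = c * cov ν f g := by
  unfold cov
  have e : ∀ x, f x * (c * g x) = c * (f x * g x) := fun x => by ring
  simp only [e]
  rw [integral_const_mul, integral_const_mul]
  ring

lemma cov_sum_right {ι : Type*} (s : Finset ι) (hf : Continuous f) {g : ι → X → ℝ}
    (hg : ∀ i ∈ s, Continuous (g i)) :
    cov ν f (fun x => ∑ i ∈ s, g i x) = ∑ i ∈ s, cov ν f (g i) := by
  classical
  induction s using Finset.induction_on with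
  | empty => unfold cov; simp
  | insert i s hi ih =>
    simp only [Finset.sum_insert hi]
    rw [cov_add_right hf (hg i (Finset.mem_insert_self i s))
      (continuous_finsetSum _ fun j hj => hg j (Finset.mem_insert_of_mem hj)),
      ih fun j hj => hg j (Finset.mem_insert_of_mem hj)]

lemma cov_cs (hf : Continuous f) (hg : Continuous g) :
    cov ν f g ^ 2 ≤ cov ν f f * cov ν g g := by
  refine Pool.Agent.H906R3.YM.sq_le_of_forall fun t => ?_
  have h1 := cov_self_nonneg (ν := ν) (f := fun x => f x + t * g x)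
    (hf.add (continuous_const.mul hg))
  have c1 : Continuous fun x => t * g x := continuous_const.mul hg
  have c2 : Continuous fun x => f x + t * g x := hf.add c1
  rw [cov_add_right c2 hf c1, cov_smul_right, cov_symm (g := f), cov_symm (g := g),
    cov_add_right hf hf c1, cov_add_right hg hf c1, cov_smul_right, cov_smul_right,
    cov_symm (f := g) (g := f)] at h1
  linarith

/-- the Bessel inequality from the bound of the variances -/
lemma bessel {ι : Type*} (s : Finset ι) {e : ι → X → ℝ} (he : ∀ i ∈ s, Continuous (e i))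
    {χ : ℝ} (hχ0 : 0 ≤ χ) (hχ : ∀ h : ι → ℝ, cov ν (fun x => ∑ i ∈ s, h i * e i x) (fun x => ∑ i ∈ s, h i * e i x) ≤
      χ * ∑ i ∈ s, h i ^ 2) (hf : Continuous f) :
    ∑ i ∈ s, cov ν f (e i) ^ 2 ≤ χ * cov ν f f := by
  obtain ⟨h, hh⟩ : ∃ h : ι → ℝ, h = fun i => cov ν f (e i) := ⟨_, rfl⟩
  obtain ⟨H, hH⟩ : ∃ H, H = ∑ i ∈ s, h i ^ 2 := ⟨_, rfl⟩
  have e1 : ∑ i ∈ s, cov ν f (e i) ^ 2 = H := by rw [hH, hh]
  have c0 : ∀ i ∈ s, Continuous fun x => h i * e i x := fun i hi => continuous_const.mul (he i hi)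
  have c1 : Continuous fun x => ∑ i ∈ s, h i * e i x := continuous_finsetSum _ c0
  have e2 : cov ν f (fun x => ∑ i ∈ s, h i * e i x) = H := by
    rw [cov_sum_right s hf c0, hH]
    refine Finset.sum_congr rfl fun i _ => ?_
    rw [cov_smul_right, hh]
    ring
  have h1 := cov_cs (ν := ν) hf c1
  rw [e2] at h1
  have h2 := hχ h
  rw [← hH] at h2
  have hF := cov_self_nonneg (ν := ν) hf
  have h3 : H ^ 2 ≤ cov ν f f * (χ * H) := h1.trans (mul_le_mul_of_nonneg_left h2 hF)
  have hH0 : 0 ≤ H := by rw [hH]; exact Finset.sum_nonneg fun i _ => sq_nonneg _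
  rw [e1]
  rcases hH0.eq_or_lt with h4 | h4
  · rw [← h4]
    exact mul_nonneg hχ0 hF
  · have h5 : H * H ≤ (χ * cov ν f f) * H := by
      calc H * H = H ^ 2 := by ring
        _ ≤ cov ν f f * (χ * H) := h3
        _ = _ := by ring
    exact le_of_mul_le_mul_right h5 h4

end covs

section inf

variable {b : ℝ} {ν : Measure (LZ d → G)} {i0 : Fin d} {a : ℤ} {S : Finset (Fin d → ℤ)}
  {h : (Fin d → ℤ) → ℝ}

variable (L) in
/-- the energy with the profile `h`, translated by `t` -/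
def sz (i0 : Fin d) (S : Finset (Fin d → ℤ)) (h : (Fin d → ℤ) → ℝ) (t : ℤ) (V : LZ d → G) : ℝ :=
  ∑ x ∈ S, h x * cz L V (x + Pi.single i0 t)

lemma sz_cont (t : ℤ) : Continuous (sz (G := G) L i0 S h t) :=
  continuous_finsetSum _ fun x _ => continuous_const.mul (cz_cont _)

lemma sz_pe {l : ℕ} (a : ℤ) (t : ℤ) (U : Ed d l → G) :
    sz L i0 S h t (pe U) = sb L l i0 a S h ((t : ZMod l) + (a : ZMod l)) U := by
  unfold sz sb
  refine Finset.sum_congr rfl fun x _ => ?_
  rw [cz_pe, cs_add]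
  congr 3
  funext k
  by_cases hk : k = i0
  · subst hk; simp [cs]
  · simp [cs, hk]

/-- limits of covariances -/
lemma lim_cov {s : ℕ → ℕ} (hlim : ∀ F : (LZ d → G) → ℝ, Continuous F →
    Tendsto (fun j => EX μ L b (fun U : Ed d (2 * (s j + 1)) → G => F (pe U))) atTop
      (𝓝 (∫ V, F V ∂ν))) {F H : (LZ d → G) → ℝ} (hF : Continuous F) (hH : Continuous H) :
    Tendsto (fun j => CV μ L b (fun U : Ed d (2 * (s j + 1)) → G => F (pe U))
      (fun U => H (pe U))) atTop (𝓝 (cov ν F H)) := by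
  unfold CV cov
  exact (hlim _ (hF.mul hH)).sub ((hlim _ hF).mul (hlim _ hH))

variable (L) in
/-- the time correlation -/
def cz2 (ν : Measure (LZ d → G)) (i0 : Fin d) (S : Finset (Fin d → ℤ)) (h : (Fin d → ℤ) → ℝ)
    (t : ℕ) : ℝ := cov ν (sz L i0 S h 0) (sz L i0 S h t)

lemma lim_ct {s : ℕ → ℕ} (a : ℤ) (hlim : ∀ F : (LZ d → G) → ℝ, Continuous F →
    Tendsto (fun j => EX μ L b (fun U : Ed d (2 * (s j + 1)) → G => F (pe U))) atTop
      (𝓝 (∫ V, F V ∂ν))) (t : ℕ) :
    Tendsto (fun j => ct μ L b (2 * (s j + 1)) i0 a S h t) atTop (𝓝 (cz2 L ν i0 S h t)) := by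
  have h1 := lim_cov μ hlim (sz_cont (L := L) (i0 := i0) (S := S) (h := h) 0)
    (sz_cont (L := L) (i0 := i0) (S := S) (h := h) t)
  refine h1.congr fun j => ?_
  have e1 : ∀ t : ℤ, (fun U : Ed d (2 * (s j + 1)) → G => sz L i0 S h t (pe U)) =
      sb L (2 * (s j + 1)) i0 a S h ((t : ZMod (2 * (s j + 1))) + (a : ZMod (2 * (s j + 1)))) :=
    fun t => by funext U; exact sz_pe a t U
  rw [e1, e1, CV_sb]
  unfold ct
  congr 2
  push_cast
  ring

theorem cz2_nonneg (hν : IV μ L b ν) (hb : 0 ≤ b) (hS : ∀ x ∈ S, x i0 = a) (t : ℕ) :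
    0 ≤ cz2 L ν i0 S h t := by
  have := hν.prob
  rcases Nat.eq_zero_or_pos t with h0 | h0
  · subst h0
    exact cov_self_nonneg (sz_cont _)
  · obtain ⟨s, hs, hlim⟩ := hν.lim
    refine ge_of_tendsto (lim_ct μ a hlim t) ?_
    filter_upwards [hs.eventually_ge_atTop (t + 2)] with j hj
    exact ct_nonneg μ hS (by omega) hb h0 (by omega)

theorem cz2_conv (hν : IV μ L b ν) (hb : 0 ≤ b) (hS : ∀ x ∈ S, x i0 = a) (t : ℕ) :
    2 * cz2 L ν i0 S h (t + 2) ≤ cz2 L ν i0 S h (t + 1) + cz2 L ν i0 S h (t + 3) := by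
  obtain ⟨s, hs, hlim⟩ := hν.lim
  have h1 : cz2 L ν i0 S h (t + 2) ^ 2 ≤ cz2 L ν i0 S h (t + 1) * cz2 L ν i0 S h (t + 3) := by
    refine le_of_tendsto_of_tendsto ((lim_ct μ a hlim (t + 2)).pow 2)
      ((lim_ct μ a hlim (t + 1)).mul (lim_ct μ a hlim (t + 3))) ?_
    filter_upwards [hs.eventually_ge_atTop (t + 5)] with j hj
    exact ct_conv μ hS (by omega) hb (by omega)
  exact conv_of_log (cz2_nonneg μ hν hb hS _) (cz2_nonneg μ hν hb hS _)
    (cz2_nonneg μ hν hb hS _) h1

lemma sz_tz (t s : ℤ) (V : LZ d → G) : sz L i0 S h t (tz (Pi.single i0 s) V) =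
    sz L i0 S h (t + s) V := by
  unfold sz
  refine Finset.sum_congr rfl fun x _ => ?_
  rw [cz_tz, add_assoc, ← Pi.single_add]

lemma cov_tz (hν : IV μ L b ν) (z : Fin d → ℤ) {F H : (LZ d → G) → ℝ} (hF : Continuous F)
    (hH : Continuous H) : cov ν (fun V => F (tz z V)) (fun V => H (tz z V)) = cov ν F H := by
  unfold cov
  rw [hν.shift μ z hF, hν.shift μ z hH, hν.shift μ z (F := fun V => F V * H V) (hF.mul hH)]

lemma cov_sz (hν : IV μ L b ν) (s t : ℤ) : cov ν (sz L i0 S h s) (sz L i0 S h t) =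
    cz2 L ν i0 S h (s - t).natAbs := by
  have := hν.prob
  have key : ∀ s t : ℤ, s ≤ t → cov ν (sz L i0 S h s) (sz L i0 S h t) =
      cz2 L ν i0 S h (s - t).natAbs := by
    intro s t hst
    have h1 := cov_tz μ hν (Pi.single i0 s) (sz_cont (L := L) (i0 := i0) (S := S) (h := h) 0)
      (sz_cont (L := L) (i0 := i0) (S := S) (h := h) (t - s))
    simp only [sz_tz, zero_add, sub_add_cancel] at h1
    have h2 : (((s - t).natAbs : ℕ) : ℤ) = t - s := by omega
    unfold cz2
    rw [h2]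
    exact h1
  rcases le_total s t with hst | hst
  · exact key s t hst
  · rw [cov_symm, key t s hst]
    congr 1
    omega

lemma cz2_le (hν : IV μ L b ν) (t : ℕ) : cz2 L ν i0 S h t ≤ cz2 L ν i0 S h 0 := by
  have := hν.prob
  have h1 := cov_cs (ν := ν) (sz_cont (L := L) (i0 := i0) (S := S) (h := h) 0)
    (sz_cont (L := L) (i0 := i0) (S := S) (h := h) (t : ℤ))
  rw [cov_sz μ hν 0 0, cov_sz μ hν t t, sub_self, sub_self, Int.natAbs_zero] at h1
  have h2 : cz2 L ν i0 S h t ^ 2 ≤ cz2 L ν i0 S h 0 ^ 2 := by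
    rw [pow_two (cz2 L ν i0 S h 0)]; exact h1
  have h3 : 0 ≤ cz2 L ν i0 S h 0 := cov_self_nonneg (sz_cont _)
  exact (le_abs_self _).trans (abs_le_of_sq_le_sq h2 h3) 

theorem cz2_anti (hν : IV μ L b ν) (hb : 0 ≤ b) (hS : ∀ x ∈ S, x i0 = a) :
    Antitone (cz2 L ν i0 S h) := by
  refine antitone_nat_of_succ_le fun t => ?_
  rcases Nat.eq_zero_or_pos t with h0 | h0
  · subst h0
    exact cz2_le μ hν _
  · obtain ⟨u, rfl⟩ : ∃ u, t = u + 1 := ⟨t - 1, by omega⟩
    exact conv_anti (fun t => cz2_le μ hν t) (fun t => cz2_conv μ hν hb hS t) u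

include μ in
lemma half_torus {m : ℕ} [NeZero m] (hS : ∀ x ∈ S, x i0 = a) {F : (LZ d → G) → ℝ}
    (hF : Continuous F) {T : Finset (LZ d)} {c : ℤ} (hT : ∀ e ∈ T, c ≤ e.1 i0)
    (hFT : ∀ V V' : LZ d → G, (∀ e ∈ T, V e = V' e) → F V = F V') {t : ℕ} {r : ℤ}
    (hr : a + r = c - 1 - t) {R : ℕ} (hR : ∀ e ∈ T, e.1 i0 - c ≤ R) (hm : t + R + 2 ≤ m) :
    CV μ L b (fun U : Ed d (2 * m) → G => F (pe U)) (fun U => sz L i0 S h r (pe U)) ^ 2 ≤
      CV μ L b (fun U : Ed d (2 * m) → G => F (pe U)) (fun U => F (pe U)) *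
        ct μ L b (2 * m) i0 a S h (2 * t + 1) := by
  obtain ⟨z, hz⟩ : ∃ z : Fin d → ZMod (2 * m), z = Pi.single i0 (-(c : ZMod (2 * m))) := ⟨_, rfl⟩
  have hFz : Continuous fun U : Ed d (2 * m) → G => F (pe (tr z U)) :=
    hF.comp (pe_cont.comp (tr_cont z))
  have hdep : Dep (HQ i0) fun U : Ed d (2 * m) → G => F (pe (tr z U)) := by
    intro U U' hU
    refine hFT _ _ fun e he => ?_
    obtain ⟨y, k⟩ := e
    rw [pe_apply, pe_apply]
    unfold tr
    refine hU _ ?_
    have e1 : ((cs (2 * m) y, k).1 + z) i0 = ((y i0 - c).toNat : ZMod (2 * m)) := by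
      have h2 := hT _ he
      simp only at h2
      rw [hz]
      simp only [Pi.add_apply, cs, Pi.single_eq_same]
      rw [← Int.cast_natCast ((y i0 - c).toNat), Int.toNat_of_nonneg (by omega)]
      push_cast; ring
    have h3 := hR _ he
    simp only at h3
    unfold HQ
    simp only
    have e2 : (((cs (2 * m) y, k).1 + z) i0).val = (y i0 - c).toNat := by
      rw [e1, val_nat (by omega)]
    simp only at e2
    rw [e2]
    split_ifs
    · omega
    · omega
  have h1 := ct_general μ (L := L) (b := b) (h := h) (m := m) hS (by omega) hFz hdep (s := t)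
    (by omega)
  have e3 : sb L (2 * m) i0 a S h (-1 - (t : ZMod (2 * m))) =
      fun U : Ed d (2 * m) → G => sz L i0 S h r (pe (tr z U)) := by
    funext U
    rw [sz_pe a, hz, sb_tr]
    congr 1
    have h2 : (r : ZMod (2 * m)) + (a : ZMod (2 * m)) = (((a + r : ℤ)) : ZMod (2 * m)) := by
      push_cast; ring
    rw [h2, hr]
    push_cast; ring
  rw [e3, CV_tr μ z (fun U : Ed d (2 * m) → G => F (pe U)) (fun U => sz L i0 S h r (pe U)),
    CV_tr μ z (fun U : Ed d (2 * m) → G => F (pe U)) (fun U => F (pe U))] at h1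
  exact h1

/-- correlation with a local observable of a half space -/
theorem cov_half (hν : IV μ L b ν) (hS : ∀ x ∈ S, x i0 = a) {F : (LZ d → G) → ℝ}
    (hF : Continuous F) {T : Finset (LZ d)} {c : ℤ} (hT : ∀ e ∈ T, c ≤ e.1 i0)
    (hFT : ∀ V V' : LZ d → G, (∀ e ∈ T, V e = V' e) → F V = F V') {t : ℕ} {r : ℤ}
    (hr : a + r = c - 1 - t) :
    cov ν F (sz L i0 S h r) ^ 2 ≤ cov ν F F * cz2 L ν i0 S h (2 * t + 1) := by
  obtain ⟨s, hs, hlim⟩ := hν.lim
  refine le_of_tendsto_of_tendsto ((lim_cov μ hlim hF (sz_cont _)).pow 2)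
    ((lim_cov μ hlim hF hF).mul (lim_ct μ a hlim (2 * t + 1))) ?_
  obtain ⟨R, hR⟩ : ∃ R : ℕ, ∀ e ∈ T, e.1 i0 - c ≤ R := by
    refine ⟨∑ e ∈ T, (e.1 i0 - c).natAbs, fun e he => ?_⟩
    have h1 : (e.1 i0 - c).natAbs ≤ ∑ e ∈ T, (e.1 i0 - c).natAbs :=
      Finset.single_le_sum (f := fun e : LZ d => (e.1 i0 - c).natAbs) (fun _ _ => Nat.zero_le _) he
    omega
  filter_upwards [hs.eventually_ge_atTop (t + R + 2)] with j hj
  exact half_torus μ hS hF hT hFT hr hR (by omega)

/-- the sum of the time correlations -/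
theorem cz2_sum (hν : IV μ L b ν) (hb : 0 ≤ b) (hS : ∀ x ∈ S, x i0 = a) {χ : ℝ}
    (hχ : ∀ (S' : Finset (Fin d → ℤ)) (h' : (Fin d → ℤ) → ℝ),
      cov ν (fun V => ∑ x ∈ S', h' x * cz L V x) (fun V => ∑ x ∈ S', h' x * cz L V x) ≤
        χ * ∑ x ∈ S', h' x ^ 2) (T : ℕ) :
    cz2 L ν i0 S h 0 + 2 * ∑ t ∈ Finset.range T, cz2 L ν i0 S h (t + 1) ≤
      χ * ∑ x ∈ S, h x ^ 2 := by
  classical
  have := hν.prob
  refine sum_bound (fun t => cz2_nonneg μ hν hb hS t) (fun n => ?_) T
  obtain ⟨S', hS'⟩ : ∃ S' : Finset (Fin d → ℤ), S' = (S ×ˢ Finset.range n).image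
    fun p => p.1 + Pi.single i0 (p.2 : ℤ) := ⟨_, rfl⟩
  obtain ⟨h', hh'⟩ : ∃ h' : (Fin d → ℤ) → ℝ, h' = fun x => h (Function.update x i0 a) := ⟨_, rfl⟩
  have hinj : Set.InjOn (fun p : (Fin d → ℤ) × ℕ => p.1 + Pi.single i0 (p.2 : ℤ))
      ((S ×ˢ Finset.range n : Finset ((Fin d → ℤ) × ℕ)) : Set ((Fin d → ℤ) × ℕ)) := by
    rintro ⟨x, s⟩ hx ⟨y, t⟩ hy hxy
    rw [Finset.mem_coe, Finset.mem_product] at hx hy
    simp only at hx hy hxy
    have h1 : s = t := by
      have h2 := congrFun hxy i0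
      simp only [Pi.add_apply, Pi.single_eq_same] at h2
      rw [hS x hx.1, hS y hy.1] at h2
      omega
    subst h1
    have h2 : x = y := add_right_cancel hxy
    rw [h2]
  have hval : ∀ x ∈ S, ∀ s : ℕ, h' (x + Pi.single i0 (s : ℤ)) = h x := by
    intro x hx s
    rw [hh']
    simp only
    congr 1
    funext k
    by_cases hk : k = i0
    · subst hk; simp [hS x hx]
    · simp [hk]
  have e1 : (fun V : LZ d → G => ∑ x ∈ S', h' x * cz L V x) = fun V =>
      ∑ s ∈ Finset.range n, sz L i0 S h (s : ℤ) V := by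
    funext V
    rw [hS', Finset.sum_image hinj, Finset.sum_product_right]
    refine Finset.sum_congr rfl fun s _ => ?_
    unfold sz
    exact Finset.sum_congr rfl fun x hx => by rw [hval x hx]
  have e2 : ∑ x ∈ S', h' x ^ 2 = n * ∑ x ∈ S, h x ^ 2 := by
    rw [hS', Finset.sum_image hinj, Finset.sum_product_right]
    have h3 : ∀ s ∈ Finset.range n, ∑ x ∈ S, h' (x + Pi.single i0 (s : ℤ)) ^ 2 =
        ∑ x ∈ S, h x ^ 2 := fun s _ => Finset.sum_congr rfl fun x hx => by rw [hval x hx]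
    rw [Finset.sum_congr rfl h3, Finset.sum_const, Finset.card_range, nsmul_eq_mul]
  have h4 := hχ S' h'
  rw [e1, e2] at h4
  have hc1 : ∀ s ∈ Finset.range n, Continuous (sz (G := G) L i0 S h (s : ℤ)) := fun s _ => sz_cont _
  have hc2 : Continuous fun V : LZ d → G => ∑ s ∈ Finset.range n, sz L i0 S h (s : ℤ) V :=
    continuous_finsetSum _ hc1
  have e3 : cov ν (fun V : LZ d → G => ∑ s ∈ Finset.range n, sz L i0 S h (s : ℤ) V)
      (fun V => ∑ s ∈ Finset.range n, sz L i0 S h (s : ℤ) V) =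
      ∑ s ∈ Finset.range n, ∑ s' ∈ Finset.range n, cz2 L ν i0 S h ((s : ℤ) - s').natAbs := by
    rw [cov_sum_right _ hc2 hc1, Finset.sum_comm]
    refine Finset.sum_congr rfl fun s' hs' => ?_
    rw [cov_symm, cov_sum_right _ (hc1 s' hs') hc1]
    refine Finset.sum_congr rfl fun s hs => ?_
    rw [cov_symm, cov_sz μ hν]
  rw [e3] at h4
  linarith

end inf

end

end Pool.Agent.T2H01.YM
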