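import Mathlib
import Pool.Agent.T2H01.YM.TimZ
import Pool.Agent.Y14.PlaqB

/-!
# The internal energy and the fluctuations of the energy density
-/

open MeasureTheory Matrix Filter
open scoped Matrix.Norms.Frobenius ContDiff Topology
open Pool.Agent.H906R3.YM hiding Pl
open Pool.Agent.W793.YM Pool.Agent.TH618.YM

namespace Pool.Agent.T2H01.YM

set_option linter.unusedSectionVars false
set_option linter.unusedVariables false

noncomputable section

variable {G : Type*} [Group G] [TopologicalSpace G] [IsTopologicalGroup G] [CompactSpace G]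
  [SecondCountableTopology G] [MeasurableSpace G] [BorelSpace G] (μ : Measure G)
  [IsProbabilityMeasure μ] [μ.IsMulLeftInvariant] [μ.IsMulRightInvariant] [μ.IsInvInvariant]
  {N n : ℕ} {L : LD G N n} {d : ℕ}

/-- the energy of a cube at weak coupling -/
lemma en_weak {m : ℕ} [NeZero m] (hm : 2 ≤ m) {b : ℝ} (hb : 0 < b) :
    en μ L d (2 * m) b ≤ d * (d - 1) / 2 * N ^ 2 / b := by
  have hp : ∀ (x : Fin d → ZMod (2 * m)) (i j : Fin d), i < j →
      EX μ L b (fun U : Ed d (2 * m) → G => we L (plqT U x i j)) ≤ N ^ 2 / b := by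
    intro x i j hij
    have h1 := Pool.Agent.Y14.plaq_bound μ (L := L) hm hb hij.ne x
    have e1 : (fun U : Ed d (2 * m) → G => dv L (plqT U x i j) ^ 2) =
        fun U => 2 * we L (plqT U x i j) := by
      funext U; rw [dv_sq]
    rw [e1, EX_smul] at h1
    have e2 : 2 * (N : ℝ) ^ 2 / b = 2 * (N ^ 2 / b) := by ring
    rw [e2] at h1
    linarith
  have hwc : ∀ (x : Fin d → ZMod (2 * m)) (i j : Fin d),
      Continuous fun U : Ed d (2 * m) → G => we L (plqT U x i j) := fun x i j =>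
    Sm_cont ⟨_, we_mem (L := L) x i j⟩
  have e0 : en μ L d (2 * m) b = (1 / 2) ^ (d - 2) * ∑ i, ∑ j, if i < j then
      ∑ S ∈ (({i, j} : Finset (Fin d))ᶜ).powerset,
        EX μ L b (fun U : Ed d (2 * m) → G => we L (plqT U (0 + on S) i j)) else 0 := by
    unfold en ce
    rw [EX_smul]
    congr 1
    rw [EX_sum μ _ fun i _ => ?_]
    · refine Finset.sum_congr rfl fun i _ => ?_
      rw [EX_sum μ _ fun j _ => ?_]
      · refine Finset.sum_congr rfl fun j _ => ?_
        split_ifs with hij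
        · rw [EX_sum μ _ fun S _ => hwc _ i j]
        · exact EX_const μ 0
      · split_ifs
        · exact continuous_finsetSum _ fun S _ => hwc _ i j
        · exact continuous_const
    · refine continuous_finsetSum _ fun j _ => ?_
      split_ifs
      · exact continuous_finsetSum _ fun S _ => hwc _ i j
      · exact continuous_const
  rw [e0]
  have h1 : (∑ i, ∑ j, if i < j then ∑ S ∈ (({i, j} : Finset (Fin d))ᶜ).powerset,
        EX μ L b (fun U : Ed d (2 * m) → G => we L (plqT U (0 + on S) i j)) else 0) ≤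
      ∑ i : Fin d, ∑ j : Fin d, 2 ^ (d - 2) * (N ^ 2 / b) * (if i < j then (1 : ℝ) else 0) := by
    refine Finset.sum_le_sum fun i _ => Finset.sum_le_sum fun j _ => ?_
    split_ifs with hij
    · rw [mul_one]
      calc _ ≤ ∑ S ∈ (({i, j} : Finset (Fin d))ᶜ).powerset, ((N : ℝ) ^ 2 / b) :=
            Finset.sum_le_sum fun S _ => hp _ i j hij
        _ = _ := by
            rw [Finset.sum_const, card_ps hij, nsmul_eq_mul]
            push_cast; ring
    · simp
  refine (mul_le_mul_of_nonneg_left h1 (by positivity)).trans (le_of_eq ?_)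
  simp only [← Finset.mul_sum]
  rw [card_lt, ← mul_assoc, ← mul_assoc, ← mul_pow]
  norm_num
  ring

variable (L d) in
/-- the internal energy of a cube -/
def uu (b : ℝ) : ℝ := -rd (prZ μ L d) b

lemma uu_anti : Antitone (uu μ L d) := fun x y hxy => by
  unfold uu
  have := rd_mono (prZ_convex μ (L := L) (d := d)) hxy
  linarith

/-- upper bounds of the internal energy -/
lemma uu_le {b c : ℝ} (h : ∀ᶠ m : ℕ in atTop, en μ L d (2 * (m + 1)) b ≤ c) : uu μ L d b ≤ c := by
  have h1 : -c ≤ rd (prZ μ L d) b := by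
    refine rd_ge (prZ_convex μ) fun s hs => ?_
    have h2 := (prZ_lim μ (L := L) (d := d) (b + s)).sub (prZ_lim μ (L := L) (d := d) b)
    refine ge_of_tendsto h2 ?_
    filter_upwards [h] with m hm
    have h3 := pr_tangent μ (L := L) (d := d) (l := 2 * (m + 1)) b s
    have h4 := mul_le_mul_of_nonneg_left hm hs.le
    linarith
  unfold uu
  linarith

lemma uu_le_max (b : ℝ) : uu μ L d b ≤ N * (d * (d - 1)) :=
  uu_le μ (Filter.Eventually.of_forall fun m => en_le μ b)

lemma uu_weak {b : ℝ} (hb : 0 < b) : uu μ L d b ≤ d * (d - 1) / 2 * N ^ 2 / b := by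
  refine uu_le μ ?_
  filter_upwards [eventually_ge_atTop 1] with m hm
  exact en_weak μ (by omega) hb

lemma uu_nonneg (b : ℝ) : 0 ≤ uu μ L d b := by
  have h1 := cvx_tangent (prZ_convex μ (L := L) (d := d)) b 1
  have h2 : prZ μ L d (b + 1) ≤ prZ μ L d b := by
    refine le_of_tendsto_of_tendsto' (prZ_lim μ (b + 1)) (prZ_lim μ b) fun m => ?_
    have h3 := pr_tangent μ (L := L) (d := d) (l := 2 * (m + 1)) (b + 1) (-1)
    have h4 := en_nonneg μ (L := L) (d := d) (l := 2 * (m + 1)) (b + 1)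
    rw [← sub_eq_add_neg, add_sub_cancel_right] at h3
    linarith
  unfold uu
  linarith

lemma uu_ae : ∀ᵐ b, DifferentiableAt ℝ (uu μ L d) b := by
  filter_upwards [rd_ae (prZ_convex μ (L := L) (d := d))] with b hb
  exact hb.neg

variable {b : ℝ}

lemma uu_deriv (hb : DifferentiableAt ℝ (uu μ L d) b) :
    HasDerivAt (rd (prZ μ L d)) (-deriv (uu μ L d) b) b := by
  have h1 := hb.hasDerivAt.neg
  have h2 : (-uu μ L d : ℝ → ℝ) = rd (prZ μ L d) := by
    funext x
    simp [uu]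
  rw [h2] at h1
  exact h1

lemma uu_deriv_nonpos : deriv (uu μ L d) b ≤ 0 := by
  exact (uu_anti μ (L := L) (d := d)).deriv_nonpos

variable {ν : Measure (LZ d → G)}

lemma IV.mean' (hν : IV μ L b ν) (hb : DifferentiableAt ℝ (uu μ L d) b) (x : Fin d → ℤ) :
    ∫ V, cz L V x ∂ν = uu μ L d b := hν.mean μ (uu_deriv μ hb) x

lemma IV.subg' (hb : DifferentiableAt ℝ (uu μ L d) b) {δ : ℝ} (hδ : 0 < δ) :
    ∃ η > 0, ∀ ν : Measure (LZ d → G), IV μ L b ν → ∀ (S : Finset (Fin d → ℤ))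
      (h : (Fin d → ℤ) → ℝ), (∀ x ∈ S, |h x| ≤ η) →
      ∫ V, Real.exp (∑ x ∈ S, h x * (cz L V x - uu μ L d b)) ∂ν ≤
        Real.exp ((-deriv (uu μ L d) b + δ) / 2 * ∑ x ∈ S, h x ^ 2) := by
  obtain ⟨η, hη, h⟩ := IV.subg μ (L := L) (d := d) (uu_deriv μ hb) hδ
  refine ⟨η, hη, fun ν hν S g hg => ?_⟩
  have h1 := h ν hν S g hg
  simp only [uu, sub_neg_eq_add]
  exact h1

lemma IV.var' (hν : IV μ L b ν) (hb : DifferentiableAt ℝ (uu μ L d) b) (S : Finset (Fin d → ℤ))
    (h : (Fin d → ℤ) → ℝ) :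
    cov ν (fun V => ∑ x ∈ S, h x * cz L V x) (fun V => ∑ x ∈ S, h x * cz L V x) ≤
      -deriv (uu μ L d) b * ∑ x ∈ S, h x ^ 2 := by
  have := hν.prob
  have h1 := hν.var μ (uu_deriv μ hb) S h
  have c1 : Continuous fun V : LZ d → G => ∑ x ∈ S, h x * cz L V x :=
    continuous_finsetSum _ fun x _ => continuous_const.mul (cz_cont x)
  obtain ⟨a, ha⟩ : ∃ a, a = ∫ V, ∑ x ∈ S, h x * cz L V x ∂ν := ⟨_, rfl⟩
  rw [← cov_centre c1 c1 a a ha]
  refine le_trans (le_of_eq ?_) h1
  have e1 : a = ∑ x ∈ S, h x * (-rd (prZ μ L d) b) := by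
    have hi : ∀ x ∈ S, Integrable (fun V : LZ d → G => h x * cz L V x) ν := fun x _ =>
      cont_integrable (continuous_const.mul (cz_cont x))
    rw [ha, integral_finsetSum _ hi]
    refine Finset.sum_congr rfl fun x _ => ?_
    rw [integral_const_mul, hν.mean μ (uu_deriv μ hb)]
  refine integral_congr_ae (Filter.Eventually.of_forall fun V => ?_)
  simp only
  rw [pow_two, e1, ← Finset.sum_sub_distrib]
  have e2 : ∀ x ∈ S, h x * cz L V x - h x * -rd (prZ μ L d) b =
      h x * (cz L V x + rd (prZ μ L d) b) := fun x _ => by ring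
  rw [Finset.sum_congr rfl e2]

/-- **fluctuation-response inequality** -/
theorem IV.bessel (hν : IV μ L b ν) (hb : DifferentiableAt ℝ (uu μ L d) b)
    {F : (LZ d → G) → ℝ} (hF : Continuous F) (S : Finset (Fin d → ℤ)) :
    ∑ x ∈ S, cov ν F (fun V => cz L V x) ^ 2 ≤ -deriv (uu μ L d) b * cov ν F F := by
  have := hν.prob
  refine Pool.Agent.T2H01.YM.bessel S (fun x _ => cz_cont x) ?_ (fun h => hν.var' μ hb S h) hF
  have := uu_deriv_nonpos μ (L := L) (d := d) (b := b)
  linarith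

theorem IV.slab (hν : IV μ L b ν) (hb : DifferentiableAt ℝ (uu μ L d) b) (hb0 : 0 ≤ b)
    {i : Fin d} {a : ℤ} {S : Finset (Fin d → ℤ)} {h : (Fin d → ℤ) → ℝ} (hS : ∀ x ∈ S, x i = a)
    (T : ℕ) : cz2 L ν i S h 0 + 2 * ∑ t ∈ Finset.range T, cz2 L ν i S h (t + 1) ≤
      -deriv (uu μ L d) b * ∑ x ∈ S, h x ^ 2 :=
  cz2_sum μ hν hb0 hS (fun S' h' => hν.var' μ hb S' h') T

/-- decay of the time correlations -/
theorem IV.decay (hν : IV μ L b ν) (hb : DifferentiableAt ℝ (uu μ L d) b) (hb0 : 0 ≤ b)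
    {i : Fin d} {a : ℤ} {S : Finset (Fin d → ℤ)} {h : (Fin d → ℤ) → ℝ} (hS : ∀ x ∈ S, x i = a)
    (t : ℕ) : (2 * t + 1) * cz2 L ν i S h t ≤ -deriv (uu μ L d) b * ∑ x ∈ S, h x ^ 2 := by
  refine le_trans ?_ (hν.slab μ hb hb0 hS t)
  have ha := cz2_anti μ hν hb0 hS (h := h)
  have h1 : (t : ℝ) * cz2 L ν i S h t ≤ ∑ s ∈ Finset.range t, cz2 L ν i S h (s + 1) := by
    have h2 : ∑ _s ∈ Finset.range t, cz2 L ν i S h t ≤
        ∑ s ∈ Finset.range t, cz2 L ν i S h (s + 1) := by
      refine Finset.sum_le_sum fun s hs => ha ?_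
      rw [Finset.mem_range] at hs
      omega
    rwa [Finset.sum_const, Finset.card_range, nsmul_eq_mul] at h2
  have h3 := ha (Nat.zero_le t)
  linarith

/-- clustering with the observables of a half space -/
theorem IV.half (hν : IV μ L b ν) (hb : DifferentiableAt ℝ (uu μ L d) b) (hb0 : 0 ≤ b)
    {i : Fin d} {a : ℤ} {S : Finset (Fin d → ℤ)} {h : (Fin d → ℤ) → ℝ} (hS : ∀ x ∈ S, x i = a)
    {F : (LZ d → G) → ℝ} (hF : Continuous F) {T : Finset (LZ d)} (t : ℕ)
    (hT : ∀ e ∈ T, a + 1 + t ≤ e.1 i)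
    (hFT : ∀ V V' : LZ d → G, (∀ e ∈ T, V e = V' e) → F V = F V') :
    (4 * t + 3) * cov ν F (sz L i S h 0) ^ 2 ≤
      cov ν F F * (-deriv (uu μ L d) b * ∑ x ∈ S, h x ^ 2) := by
  have := hν.prob
  have h1 := cov_half μ hν hS (h := h) hF hT hFT (t := t) (r := 0) (by ring)
  have h2 := hν.decay μ hb hb0 hS (h := h) (2 * t + 1)
  have h3 := cov_self_nonneg (ν := ν) hF
  have h4 := mul_le_mul_of_nonneg_left h1 (show (0 : ℝ) ≤ 4 * t + 3 by positivity)
  have h5 := mul_le_mul_of_nonneg_left h2 h3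
  push_cast at h5
  refine h4.trans (le_trans (le_of_eq ?_) h5)
  ring

end

end Pool.Agent.T2H01.YM
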