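import Mathlib
import Pool.Agent.T2H01.YM.Fin

/-!
# The other half space; clustering at the points of continuity of the internal energy
-/

open MeasureTheory Matrix Filter
open scoped Matrix.Norms.Frobenius ContDiff Topology
open Pool.Agent.H906R3.YM hiding Pl
open Pool.Agent.W793.YM Pool.Agent.TH618.YM

namespace Pool.Agent.T2H01.YM

set_option linter.unusedSectionVars false
set_option linter.unusedVariables false

noncomputable section

variable {G : Type*} [Group G] [TopologicalSpace G] [IsTopologicalGroup G] [CompactSpace G]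
  [SecondCountableTopology G] [MeasurableSpace G] [BorelSpace G] (μ : Measure G)
  [IsProbabilityMeasure μ] [μ.IsMulLeftInvariant] [μ.IsMulRightInvariant] [μ.IsInvInvariant]
  {N n : ℕ} {L : LD G N n} {d : ℕ}

section lower

variable {b : ℝ} {ν : Measure (LZ d → G)} {i0 : Fin d} {a : ℤ} {S : Finset (Fin d → ℤ)}
  {h : (Fin d → ℤ) → ℝ}

lemma CV_sU {m : ℕ} [NeZero m] {hm : 2 ≤ m} (f g : (Ed d (2 * m) → G) → ℝ) :
    CV μ L b (fun U => f ((SR hm i0).tU U)) (fun U => g ((SR hm i0).tU U)) = CV μ L b f g := by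
  unfold CV
  rw [EX_sU μ f, EX_sU μ g, EX_sU μ (fun U => f U * g U)]

include μ in
lemma half_torus' {m : ℕ} [NeZero m] (hS : ∀ x ∈ S, x i0 = a) {F : (LZ d → G) → ℝ}
    (hF : Continuous F) {T : Finset (LZ d)} {c : ℤ}
    (hT : ∀ e ∈ T, (if e.2 = i0 then e.1 i0 + 1 else e.1 i0) ≤ c)
    (hFT : ∀ V V' : LZ d → G, (∀ e ∈ T, V e = V' e) → F V = F V') {t : ℕ} {r : ℤ}
    (hr : a + r = c + t) {R : ℕ} (hR : ∀ e ∈ T, c - e.1 i0 ≤ R) (hm : t + R + 2 ≤ m) :
    CV μ L b (fun U : Ed d (2 * m) → G => F (pe U)) (fun U => sz L i0 S h r (pe U)) ^ 2 ≤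
      CV μ L b (fun U : Ed d (2 * m) → G => F (pe U)) (fun U => F (pe U)) *
        ct μ L b (2 * m) i0 a S h (2 * t + 1) := by
  have hm2 : 2 ≤ m := by omega
  obtain ⟨z, hz⟩ : ∃ z : Fin d → ZMod (2 * m), z = Pi.single i0 (-(c : ZMod (2 * m))) := ⟨_, rfl⟩
  have hF0 : Continuous fun U : Ed d (2 * m) → G => F (pe (tr z U)) :=
    hF.comp (pe_cont.comp (tr_cont z))
  have hFz : Continuous fun U : Ed d (2 * m) → G => F (pe (tr z ((SR hm2 i0).tU U))) :=
    hF0.comp (SR hm2 i0).tU_cont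
  have hdep : Dep (HQ i0) fun U : Ed d (2 * m) → G => F (pe (tr z ((SR hm2 i0).tU U))) := by
    intro U U' hU
    refine hFT _ _ fun e he => ?_
    obtain ⟨y, k⟩ := e
    have h2 := hT _ he
    have h3 := hR _ he
    simp only at h2 h3
    rw [pe_apply, pe_apply]
    unfold tr
    simp only
    have ez : (cs (2 * m) y + z) i0 = (y i0 : ZMod (2 * m)) - (c : ZMod (2 * m)) := by
      rw [hz]; simp [cs, sub_eq_add_neg]
    by_cases hk : k = i0
    · subst hk
      rw [if_pos rfl] at h2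
      rw [sU_i0, sU_i0]
      congr 1
      refine hU _ ?_
      unfold HQ
      rw [if_pos rfl]
      show (rC k (cs (2 * m) y + z) k).val < m
      have e1 : rC k (cs (2 * m) y + z) k = ((c - 1 - y k).toNat : ZMod (2 * m)) := by
        rw [rC_same, ez, ← Int.cast_natCast ((c - 1 - y k).toNat), Int.toNat_of_nonneg (by omega)]
        push_cast; ring
      rw [e1, val_nat (by omega)]
      omega
    · rw [if_neg hk] at h2
      rw [sU_ne _ _ hk, sU_ne _ _ hk]
      refine hU _ ?_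
      unfold HQ
      rw [if_neg hk]
      show (rB i0 (cs (2 * m) y + z) i0).val ≤ m
      have e1 : rB i0 (cs (2 * m) y + z) i0 = ((c - y i0).toNat : ZMod (2 * m)) := by
        rw [rB_same, ez, ← Int.cast_natCast ((c - y i0).toNat), Int.toNat_of_nonneg (by omega)]
        push_cast; ring
      rw [e1, val_nat (by omega)]
      omega
  have h1 := ct_general μ (L := L) (b := b) (h := h) (m := m) hS hm2 hFz hdep (s := t)
    (by omega)
  have e2 : sb L (2 * m) i0 a S h (-1 - (t : ZMod (2 * m))) =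
      fun U : Ed d (2 * m) → G => sb L (2 * m) i0 a S h (t : ZMod (2 * m)) ((SR hm2 i0).tU U) := by
    funext U; exact (sb_sU hS _ U).symm
  have e3 : sb L (2 * m) i0 a S h (t : ZMod (2 * m)) =
      fun U : Ed d (2 * m) → G => sz L i0 S h r (pe (tr z U)) := by
    funext U
    rw [sz_pe a, hz, sb_tr]
    congr 1
    have h2 : (r : ZMod (2 * m)) + (a : ZMod (2 * m)) = (((a + r : ℤ)) : ZMod (2 * m)) := by
      push_cast; ring
    rw [h2, hr]
    push_cast; ring
  rw [e2, CV_sU μ (fun U : Ed d (2 * m) → G => F (pe (tr z U)))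
      (sb L (2 * m) i0 a S h (t : ZMod (2 * m))),
    CV_sU μ (fun U : Ed d (2 * m) → G => F (pe (tr z U))) (fun U => F (pe (tr z U))),
    e3, CV_tr μ z (fun U : Ed d (2 * m) → G => F (pe U)) (fun U => sz L i0 S h r (pe U)),
    CV_tr μ z (fun U : Ed d (2 * m) → G => F (pe U)) (fun U => F (pe U))] at h1
  exact h1

/-- correlation with a local observable of the other half space -/
theorem cov_half' (hν : IV μ L b ν) (hS : ∀ x ∈ S, x i0 = a) {F : (LZ d → G) → ℝ}
    (hF : Continuous F) {T : Finset (LZ d)} {c : ℤ}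
    (hT : ∀ e ∈ T, (if e.2 = i0 then e.1 i0 + 1 else e.1 i0) ≤ c)
    (hFT : ∀ V V' : LZ d → G, (∀ e ∈ T, V e = V' e) → F V = F V') {t : ℕ} {r : ℤ}
    (hr : a + r = c + t) :
    cov ν F (sz L i0 S h r) ^ 2 ≤ cov ν F F * cz2 L ν i0 S h (2 * t + 1) := by
  obtain ⟨s, hs, hlim⟩ := hν.lim
  refine le_of_tendsto_of_tendsto ((lim_cov μ hlim hF (sz_cont _)).pow 2)
    ((lim_cov μ hlim hF hF).mul (lim_ct μ a hlim (2 * t + 1))) ?_
  obtain ⟨R, hR⟩ : ∃ R : ℕ, ∀ e ∈ T, c - e.1 i0 ≤ R := by
    refine ⟨∑ e ∈ T, (c - e.1 i0).natAbs, fun e he => ?_⟩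
    have h1 : (c - e.1 i0).natAbs ≤ ∑ e ∈ T, (c - e.1 i0).natAbs :=
      Finset.single_le_sum (f := fun e : LZ d => (c - e.1 i0).natAbs) (fun _ _ => Nat.zero_le _) he
    omega
  filter_upwards [hs.eventually_ge_atTop (t + R + 2)] with j hj
  exact half_torus' μ hS hF hT hFT hr hR (by omega)

/-- clustering with the observables of the other half space -/
theorem IV.half' (hν : IV μ L b ν) (hb : DifferentiableAt ℝ (uu μ L d) b) (hb0 : 0 ≤ b)
    (hS : ∀ x ∈ S, x i0 = a) {F : (LZ d → G) → ℝ} (hF : Continuous F) {T : Finset (LZ d)} (t : ℕ)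
    (hT : ∀ e ∈ T, (if e.2 = i0 then e.1 i0 + 1 else e.1 i0) ≤ a - t)
    (hFT : ∀ V V' : LZ d → G, (∀ e ∈ T, V e = V' e) → F V = F V') :
    (4 * t + 3) * cov ν F (sz L i0 S h 0) ^ 2 ≤
      cov ν F F * (-deriv (uu μ L d) b * ∑ x ∈ S, h x ^ 2) := by
  have := hν.prob
  have h1 := cov_half' μ hν hS (h := h) hF hT hFT (t := t) (r := 0) (by ring)
  have h2 := hν.decay μ hb hb0 hS (h := h) (2 * t + 1)
  have h3 := cov_self_nonneg (ν := ν) hF
  have h4 := mul_le_mul_of_nonneg_left h1 (show (0 : ℝ) ≤ 4 * t + 3 by positivity)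
  have h5 := mul_le_mul_of_nonneg_left h2 h3
  push_cast at h5
  refine h4.trans (le_trans (le_of_eq ?_) h5)
  ring

end lower

section cont

variable {b : ℝ} {ν : Measure (LZ d → G)} {i0 : Fin d} {a : ℤ} {S : Finset (Fin d → ℤ)}
  {h : (Fin d → ℤ) → ℝ}

lemma rd_cont (hb : ContinuousAt (uu μ L d) b) : ContinuousAt (rd (prZ μ L d)) b := by
  have h1 := hb.neg
  have h2 : (-uu μ L d : ℝ → ℝ) = rd (prZ μ L d) := by
    funext x
    simp [uu]
  rw [← h2]
  exact h1

lemma cvx_first {p : ℝ → ℝ} (hp : ConvexOn ℝ Set.univ p) (hr : ContinuousAt (rd p) b) {δ : ℝ}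
    (hδ : 0 < δ) : ∃ η > 0, ∀ s, |s| ≤ η → p (b + s) - p b - s * rd p b ≤ δ * |s| := by
  rw [Metric.continuousAt_iff] at hr
  obtain ⟨η, hη, h⟩ := hr δ hδ
  refine ⟨η / 2, by positivity, fun s hs => ?_⟩
  have h1 := cvx_tangent hp (b + s) (-s)
  rw [add_neg_cancel_right] at h1
  have h2 := h (x := b + s) (by rw [Real.dist_eq, add_sub_cancel_left]; linarith)
  rw [Real.dist_eq] at h2
  have h3 : s * (rd p (b + s) - rd p b) ≤ |s| * |rd p (b + s) - rd p b| := by
    rw [← abs_mul]; exact le_abs_self _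
  have h4 : |s| * |rd p (b + s) - rd p b| ≤ |s| * δ :=
    mul_le_mul_of_nonneg_left h2.le (abs_nonneg s)
  linarith

/-- the energy density at the points of continuity -/
theorem IV.meanC (hν : IV μ L b ν) (hb : ContinuousAt (uu μ L d) b) (x : Fin d → ℤ) :
    ∫ V, cz L V x ∂ν = uu μ L d b := by
  have := hν.prob
  obtain ⟨E, hE⟩ : ∃ E, E = ∫ V, cz L V x ∂ν := ⟨_, rfl⟩
  have hr := rd_cont μ hb
  have key : ∀ δ, 0 < δ → |E + rd (prZ μ L d) b| ≤ δ := by
    intro δ hδ
    obtain ⟨η, hη, hexp⟩ := cvx_first (prZ_convex μ (L := L) (d := d)) hr hδ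
    have h0 : ∀ t, |t| ≤ η → t * (E + rd (prZ μ L d) b) ≤ δ * |t| := by
      intro t ht
      have h1 := hν.exp μ {x} (fun _ => t)
      simp only [Finset.sum_singleton] at h1
      have c1 : Continuous fun V : LZ d → G => t * cz L V x := continuous_const.mul (cz_cont x)
      have h2 := exp_int_le (cont_integrable (ν := ν) c1)
        (cont_integrable (ν := ν) (Real.continuous_exp.comp c1))
      rw [integral_const_mul, ← hE] at h2
      have h3 := Real.exp_le_exp.1 (h2.trans h1)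
      have h4 := hexp (-t) (by rwa [abs_neg])
      rw [← sub_eq_add_neg, abs_neg] at h4
      linarith
    have h1 := h0 η (by rw [abs_of_pos hη])
    have h2 := h0 (-η) (by rw [abs_neg, abs_of_pos hη])
    rw [abs_of_pos hη] at h1
    rw [abs_neg, abs_of_pos hη] at h2
    rw [abs_le]
    constructor
    · have h3 : η * -(E + rd (prZ μ L d) b) ≤ η * δ := by linarith
      have := le_of_mul_le_mul_left h3 hη
      linarith
    · have h3 : η * (E + rd (prZ μ L d) b) ≤ η * δ := by linarith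
      exact le_of_mul_le_mul_left h3 hη
  have h5 : |E + rd (prZ μ L d) b| ≤ 0 := le_of_forall_pos_le_add fun δ hδ => by
    rw [zero_add]; exact key δ hδ
  have h6 := abs_nonpos_iff.1 h5
  rw [← hE]
  unfold uu
  linarith

/-- the time correlations tend to zero at the points of continuity -/
theorem IV.clusterC (hν : IV μ L b ν) (hb : ContinuousAt (uu μ L d) b) (hb0 : 0 ≤ b)
    (hS : ∀ x ∈ S, x i0 = a) : Tendsto (cz2 L ν i0 S h) atTop (𝓝 0) := by
  classical
  have := hν.prob
  have hr := rd_cont μ hb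
  have hnn := fun t => cz2_nonneg μ hν hb0 hS (h := h) t
  have hanti := cz2_anti μ hν hb0 hS (h := h)
  obtain ⟨u, hu⟩ : ∃ u, u = uu μ L d b := ⟨_, rfl⟩
  obtain ⟨H, hH⟩ : ∃ H, H = ∑ x ∈ S, |h x| := ⟨_, rfl⟩
  have hH0 : 0 ≤ H := by rw [hH]; exact Finset.sum_nonneg fun x _ => abs_nonneg _
  have hhx : ∀ x ∈ S, |h x| ≤ H := fun x hx => by
    rw [hH]
    exact Finset.single_le_sum (f := fun x => |h x|) (fun _ _ => abs_nonneg _) hx
  obtain ⟨M, hM⟩ : ∃ M : ℝ, M = N * (d * (d - 1)) := ⟨_, rfl⟩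
  obtain ⟨B, hB⟩ : ∃ B, B = H * M := ⟨_, rfl⟩
  have hu0 : 0 ≤ u := by rw [hu]; exact uu_nonneg μ b
  have huM : u ≤ M := by rw [hu, hM]; exact uu_le_max μ b
  have hM0 : 0 ≤ M := hu0.trans huM
  have hB0 : 0 ≤ B := by rw [hB]; positivity
  -- centred slab energies
  obtain ⟨A, hA⟩ : ∃ A : ℕ → (LZ d → G) → ℝ, A = fun (s : ℕ) (V : LZ d → G) =>
    ∑ x ∈ S, h x * (cz L V (x + (Pi.single i0 (s : ℤ) : Fin d → ℤ)) - u) := ⟨_, rfl⟩
  have hAc : ∀ s, Continuous (A s) := fun s => by
    rw [hA]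
    exact continuous_finsetSum _ fun x _ => continuous_const.mul ((cz_cont _).sub continuous_const)
  have hAB : ∀ s V, |A s V| ≤ B := fun s V => by
    rw [hA, hB, hH, Finset.sum_mul]
    refine (Finset.abs_sum_le_sum_abs _ _).trans (Finset.sum_le_sum fun x _ => ?_)
    rw [abs_mul]
    refine mul_le_mul_of_nonneg_left ?_ (abs_nonneg _)
    have h1 := cz_nonneg (L := L) V (x + Pi.single i0 (s : ℤ))
    have h2 := cz_le (L := L) V (x + Pi.single i0 (s : ℤ))
    rw [← hM] at h2
    rw [abs_le]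
    constructor <;> linarith
  -- variance of the sum
  have hvar : ∀ n : ℕ, (n : ℝ) ^ 2 * cz2 L ν i0 S h n ≤
      ∫ V, (∑ s ∈ Finset.range n, A s V) ^ 2 ∂ν := by
    intro n
    have hc1 : ∀ s ∈ Finset.range n, Continuous (sz (G := G) L i0 S h (s : ℤ)) :=
      fun s _ => sz_cont _
    have hc2 : Continuous fun V : LZ d → G => ∑ s ∈ Finset.range n, sz L i0 S h (s : ℤ) V :=
      continuous_finsetSum _ hc1
    have e3 : cov ν (fun V : LZ d → G => ∑ s ∈ Finset.range n, sz L i0 S h (s : ℤ) V)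
        (fun V => ∑ s ∈ Finset.range n, sz L i0 S h (s : ℤ) V) =
        ∑ s ∈ Finset.range n, ∑ s' ∈ Finset.range n, cz2 L ν i0 S h ((s : ℤ) - s').natAbs := by
      rw [cov_sum_right _ hc2 hc1, Finset.sum_comm]
      refine Finset.sum_congr rfl fun s' hs' => ?_
      rw [cov_symm, cov_sum_right _ (hc1 s' hs') hc1]
      refine Finset.sum_congr rfl fun s hs => ?_
      rw [cov_symm, cov_sz μ hν]
    have e4 : cov ν (fun V : LZ d → G => ∑ s ∈ Finset.range n, sz L i0 S h (s : ℤ) V)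
        (fun V => ∑ s ∈ Finset.range n, sz L i0 S h (s : ℤ) V) =
        ∫ V, (∑ s ∈ Finset.range n, A s V) ^ 2 ∂ν := by
      obtain ⟨m, hm⟩ : ∃ m, m = ∫ V, ∑ s ∈ Finset.range n, sz L i0 S h (s : ℤ) V ∂ν := ⟨_, rfl⟩
      rw [← cov_centre hc2 hc2 m m hm]
      have hi1 : ∀ s ∈ Finset.range n, Integrable (fun V : LZ d → G => sz L i0 S h (s : ℤ) V) ν :=
        fun s hs => cont_integrable (hc1 s hs)
      have e5 : m = ∑ s ∈ Finset.range n, ∑ x ∈ S, h x * u := by
        rw [hm, integral_finsetSum _ hi1]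
        refine Finset.sum_congr rfl fun s _ => ?_
        have hi2 : ∀ x ∈ S, Integrable (fun V : LZ d → G =>
            h x * cz L V (x + Pi.single i0 (s : ℤ))) ν := fun x _ =>
          cont_integrable (continuous_const.mul (cz_cont _))
        unfold sz
        rw [integral_finsetSum _ hi2]
        refine Finset.sum_congr rfl fun x _ => ?_
        rw [integral_const_mul, hν.meanC μ hb, hu]
      refine integral_congr_ae (Filter.Eventually.of_forall fun V => ?_)
      simp only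
      rw [pow_two]
      have e6 : ∑ s ∈ Finset.range n, sz L i0 S h (s : ℤ) V - m = ∑ s ∈ Finset.range n, A s V := by
        rw [e5, ← Finset.sum_sub_distrib]
        refine Finset.sum_congr rfl fun s _ => ?_
        rw [hA]
        unfold sz
        rw [← Finset.sum_sub_distrib]
        exact Finset.sum_congr rfl fun x _ => by ring
      rw [e6]
    rw [← e4, e3]
    have h1 : ∀ s ∈ Finset.range n, (n : ℝ) * cz2 L ν i0 S h n ≤
        ∑ s' ∈ Finset.range n, cz2 L ν i0 S h ((s : ℤ) - s').natAbs := by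
      intro s hs
      have h2 : ∑ _s' ∈ Finset.range n, cz2 L ν i0 S h n ≤
          ∑ s' ∈ Finset.range n, cz2 L ν i0 S h ((s : ℤ) - s').natAbs := by
        refine Finset.sum_le_sum fun s' hs' => hanti ?_
        rw [Finset.mem_range] at hs hs'
        omega
      rwa [Finset.sum_const, Finset.card_range, nsmul_eq_mul] at h2
    have h3 := Finset.sum_le_sum h1
    rw [Finset.sum_const, Finset.card_range, nsmul_eq_mul] at h3
    refine le_trans (le_of_eq (by ring)) h3
  -- exponential moments of the sum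
  have hexpm : ∀ δ, 0 < δ → ∃ η > 0, ∀ t, |t| ≤ η → ∀ n : ℕ,
      ∫ V, Real.exp (t * ∑ s ∈ Finset.range n, A s V) ∂ν ≤ Real.exp (n * (δ * |t| * H)) := by
    intro δ hδ
    obtain ⟨η, hη, hexp⟩ := cvx_first (prZ_convex μ (L := L) (d := d)) hr hδ
    refine ⟨η / (H + 1), by positivity, fun t ht n => ?_⟩
    rw [le_div_iff₀ (by positivity)] at ht
    obtain ⟨S', hS'⟩ : ∃ S' : Finset (Fin d → ℤ), S' = (S ×ˢ Finset.range n).image
      fun p => p.1 + Pi.single i0 (p.2 : ℤ) := ⟨_, rfl⟩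
    obtain ⟨h', hh'⟩ : ∃ h' : (Fin d → ℤ) → ℝ, h' = fun x => t * h (Function.update x i0 a) :=
      ⟨_, rfl⟩
    have hinj : Set.InjOn (fun p : (Fin d → ℤ) × ℕ => p.1 + Pi.single i0 (p.2 : ℤ))
        ((S ×ˢ Finset.range n : Finset ((Fin d → ℤ) × ℕ)) : Set ((Fin d → ℤ) × ℕ)) := by
      rintro ⟨x, s⟩ hx ⟨y, t⟩ hy hxy
      rw [Finset.mem_coe, Finset.mem_product] at hx hy
      simp only at hx hy hxy
      have h1 : s = t := by
        have h2 := congrFun hxy i0
        simp only [Pi.add_apply, Pi.single_eq_same] at h2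
        rw [hS x hx.1, hS y hy.1] at h2
        omega
      subst h1
      have h2 : x = y := add_right_cancel hxy
      rw [h2]
    have hval : ∀ x ∈ S, ∀ s : ℕ, h' (x + Pi.single i0 (s : ℤ)) = t * h x := by
      intro x hx s
      rw [hh']
      simp only
      congr 2
      funext k
      by_cases hk : k = i0
      · subst hk; simp [hS x hx]
      · simp [hk]
    have h1 := hν.exp μ S' h'
    have e1 : ∀ V : LZ d → G, ∑ x ∈ S', h' x * cz L V x =
        t * (∑ s ∈ Finset.range n, A s V) + n * (t * (u * ∑ x ∈ S, h x)) := by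
      intro V
      rw [hS', Finset.sum_image hinj, Finset.sum_product_right]
      have e2 : ∀ s ∈ Finset.range n, ∑ x ∈ S, h' (x + Pi.single i0 (s : ℤ)) *
          cz L V (x + Pi.single i0 (s : ℤ)) = t * A s V + t * (u * ∑ x ∈ S, h x) := by
        intro s _
        rw [hA]
        simp only
        rw [← mul_add, Finset.mul_sum, ← Finset.sum_add_distrib, Finset.mul_sum]
        refine Finset.sum_congr rfl fun x hx => ?_
        rw [hval x hx]; ring
      rw [Finset.sum_congr rfl e2, Finset.sum_add_distrib, ← Finset.mul_sum, Finset.sum_const,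
        Finset.card_range, nsmul_eq_mul]
    have e2 : ∑ x ∈ S', (prZ μ L d (b - h' x) - prZ μ L d b) =
        n * ∑ x ∈ S, (prZ μ L d (b - t * h x) - prZ μ L d b) := by
      rw [hS', Finset.sum_image hinj, Finset.sum_product_right]
      have h3 : ∀ s ∈ Finset.range n, ∑ x ∈ S, (prZ μ L d (b - h' (x + Pi.single i0 (s : ℤ))) -
          prZ μ L d b) = ∑ x ∈ S, (prZ μ L d (b - t * h x) - prZ μ L d b) := fun s _ =>
        Finset.sum_congr rfl fun x hx => by rw [hval x hx]
      rw [Finset.sum_congr rfl h3, Finset.sum_const, Finset.card_range, nsmul_eq_mul]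
    simp only [e1, Real.exp_add] at h1
    rw [integral_mul_const, e2] at h1
    have h4 : ∑ x ∈ S, (prZ μ L d (b - t * h x) - prZ μ L d b) ≤
        t * (u * ∑ x ∈ S, h x) + δ * |t| * H := by
      rw [hH, Finset.mul_sum, Finset.mul_sum, Finset.mul_sum, ← Finset.sum_add_distrib]
      refine Finset.sum_le_sum fun x hx => ?_
      have h5 := hexp (-(t * h x)) (by
        rw [abs_neg, abs_mul]
        have h6 := mul_le_mul_of_nonneg_left (hhx x hx) (abs_nonneg t)
        have h7 : |t| * H ≤ |t| * (H + 1) := mul_le_mul_of_nonneg_left (by linarith) (abs_nonneg t)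
        linarith)
      rw [← sub_eq_add_neg, abs_neg, abs_mul] at h5
      have hu' : rd (prZ μ L d) b = -u := by rw [hu]; simp [uu]
      rw [hu'] at h5
      linarith
    have h6 : Real.exp (n * ∑ x ∈ S, (prZ μ L d (b - t * h x) - prZ μ L d b)) ≤
        Real.exp (n * (δ * |t| * H)) * Real.exp (n * (t * (u * ∑ x ∈ S, h x))) := by
      rw [← Real.exp_add]
      refine Real.exp_le_exp.2 ?_
      have := mul_le_mul_of_nonneg_left h4 (Nat.cast_nonneg n : (0 : ℝ) ≤ n)
      linarith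
    exact le_of_mul_le_mul_right (h1.trans h6) (Real.exp_pos _)
  -- conclusion
  have main : ∀ ε, 0 < ε → ∃ κ > 0, ∀ n : ℕ, 1 ≤ n →
      cz2 L ν i0 S h n ≤ ε ^ 2 + 2 * B ^ 2 * Real.exp (-(κ * n)) := by
    intro ε hε
    obtain ⟨η, hη, he⟩ := hexpm (ε / (2 * (H + 1))) (by positivity)
    refine ⟨η * ε / 2, by positivity, fun n hn => ?_⟩
    have hn0 : (0 : ℝ) < n := by exact_mod_cast hn
    obtain ⟨Y, hY⟩ : ∃ Y : (LZ d → G) → ℝ, Y = fun V => ∑ s ∈ Finset.range n, A s V := ⟨_, rfl⟩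
    have hYc : Continuous Y := by rw [hY]; exact continuous_finsetSum _ fun s _ => hAc s
    have hYB : ∀ V, |Y V| ≤ n * B := fun V => by
      rw [hY]
      refine (Finset.abs_sum_le_sum_abs _ _).trans ((Finset.sum_le_sum fun s _ => hAB s V).trans ?_)
      rw [Finset.sum_const, Finset.card_range, nsmul_eq_mul]
    have h1 := he η (by rw [abs_of_pos hη]) n
    have h2 := he (-η) (by rw [abs_neg, abs_of_pos hη]) n
    rw [abs_neg] at h2
    rw [abs_of_pos hη] at h1 h2
    have hv := hvar n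
    have e0 : ∀ V, ∑ s ∈ Finset.range n, A s V = Y V := fun V => by rw [hY]
    simp only [e0] at h1 h2 hv
    have hpt : ∀ V, Y V ^ 2 ≤ n ^ 2 * ε ^ 2 + n ^ 2 * B ^ 2 * Real.exp (-(η * (ε * n))) *
        (Real.exp (η * Y V) + Real.exp (-η * Y V)) := by
      intro V
      have hp : 0 ≤ n ^ 2 * B ^ 2 * Real.exp (-(η * (ε * n))) *
        (Real.exp (η * Y V) + Real.exp (-η * Y V)) := by positivity
      rcases le_total (|Y V|) (ε * n) with hc | hc
      · have h3 : Y V ^ 2 ≤ (ε * n) ^ 2 := by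
          rw [← sq_abs]; exact pow_le_pow_left₀ (abs_nonneg _) hc 2
        nlinarith
      · have h3 : Y V ^ 2 ≤ (n * B) ^ 2 := by
          rw [← sq_abs]; exact pow_le_pow_left₀ (abs_nonneg _) (hYB V) 2
        have h4 : 1 ≤ Real.exp (-(η * (ε * n))) * (Real.exp (η * Y V) + Real.exp (-η * Y V)) := by
          have h5 : Real.exp (η * |Y V|) ≤ Real.exp (η * Y V) + Real.exp (-η * Y V) := by
            rcases abs_cases (Y V) with ⟨h6, _⟩ | ⟨h6, _⟩
            · rw [h6]; linarith [Real.exp_pos (-η * Y V)]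
            · rw [h6]
              have : η * -Y V = -η * Y V := by ring
              rw [this]; linarith [Real.exp_pos (η * Y V)]
          have h7 : Real.exp (η * (ε * n)) ≤ Real.exp (η * |Y V|) :=
            Real.exp_le_exp.2 (mul_le_mul_of_nonneg_left hc hη.le)
          have h8 : Real.exp (-(η * (ε * n))) * Real.exp (η * (ε * n)) = 1 := by
            rw [← Real.exp_add]; simp
          rw [← h8]
          exact mul_le_mul_of_nonneg_left (h7.trans h5) (Real.exp_pos _).le
        have h9 : (n * B) ^ 2 ≤ (n * B) ^ 2 * (Real.exp (-(η * (ε * n))) *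
            (Real.exp (η * Y V) + Real.exp (-η * Y V))) := le_mul_of_one_le_right (by positivity) h4
        have h10 : 0 ≤ (n : ℝ) ^ 2 * ε ^ 2 := by positivity
        refine h3.trans (h9.trans ?_)
        linarith
    have c1 : Continuous fun V : LZ d → G => Real.exp (η * Y V) :=
      Real.continuous_exp.comp (continuous_const.mul hYc)
    have c2 : Continuous fun V : LZ d → G => Real.exp (-η * Y V) :=
      Real.continuous_exp.comp (continuous_const.mul hYc)
    have c3 : Continuous fun V : LZ d → G => Real.exp (η * Y V) + Real.exp (-η * Y V) := c1.add c2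
    have c4 : Continuous fun V : LZ d → G => n ^ 2 * B ^ 2 * Real.exp (-(η * (ε * n))) *
        (Real.exp (η * Y V) + Real.exp (-η * Y V)) := continuous_const.mul c3
    have h3 : ∫ V, Y V ^ 2 ∂ν ≤ n ^ 2 * ε ^ 2 + n ^ 2 * B ^ 2 * Real.exp (-(η * (ε * n))) *
        (∫ V, Real.exp (η * Y V) ∂ν + ∫ V, Real.exp (-η * Y V) ∂ν) := by
      have h4 : ∫ V, Y V ^ 2 ∂ν ≤ ∫ V, (n ^ 2 * ε ^ 2 + n ^ 2 * B ^ 2 *
          Real.exp (-(η * (ε * n))) * (Real.exp (η * Y V) + Real.exp (-η * Y V))) ∂ν :=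
        integral_mono (cont_integrable (hYc.pow 2))
          (cont_integrable (continuous_const.add c4)) hpt
      have e5 : ∫ V, n ^ 2 * B ^ 2 * Real.exp (-(η * (ε * n))) *
          (Real.exp (η * Y V) + Real.exp (-η * Y V)) ∂ν =
          n ^ 2 * B ^ 2 * Real.exp (-(η * (ε * n))) *
          (∫ V, Real.exp (η * Y V) ∂ν + ∫ V, Real.exp (-η * Y V) ∂ν) := by
        rw [integral_const_mul, integral_add (cont_integrable c1) (cont_integrable c2)]
      rw [integral_add (integrable_const _) (cont_integrable c4), e5, integral_const] at h4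
      simpa using h4
    have h4 : ∫ V, Y V ^ 2 ∂ν ≤ n ^ 2 * (ε ^ 2 + 2 * B ^ 2 * Real.exp (-(η * ε / 2 * n))) := by
      refine h3.trans ?_
      have hQ : ε / (2 * (H + 1)) * η * H ≤ ε * η / 2 := by
        have : ε / (2 * (H + 1)) * η * H = ε * η / 2 * (H / (H + 1)) := by field_simp
        rw [this]
        have h5 : H / (H + 1) ≤ 1 := by rw [div_le_one (by positivity)]; linarith
        exact mul_le_of_le_one_right (by positivity) h5
      have h5 : Real.exp (n * (ε / (2 * (H + 1)) * η * H)) ≤ Real.exp (n * (ε * η / 2)) :=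
        Real.exp_le_exp.2 (mul_le_mul_of_nonneg_left hQ hn0.le)
      have h6 : ∫ V, Real.exp (η * Y V) ∂ν + ∫ V, Real.exp (-η * Y V) ∂ν ≤
          2 * Real.exp (n * (ε * η / 2)) := by linarith
      have h7 : Real.exp (-(η * (ε * n))) * (2 * Real.exp (n * (ε * η / 2))) =
          2 * Real.exp (-(η * ε / 2 * n)) := by
        rw [mul_left_comm, ← Real.exp_add]
        congr 2; ring
      have h8 := mul_le_mul_of_nonneg_left h6
        (show 0 ≤ n ^ 2 * B ^ 2 * Real.exp (-(η * (ε * n))) by positivity)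
      have h9 : (n : ℝ) ^ 2 * B ^ 2 * Real.exp (-(η * (ε * n))) *
          (2 * Real.exp (n * (ε * η / 2))) = n ^ 2 * (2 * B ^ 2 * Real.exp (-(η * ε / 2 * n))) := by
        rw [mul_assoc, h7]; ring
      rw [h9] at h8
      linarith
    exact le_of_mul_le_mul_left (hv.trans h4) (by positivity)
  -- the limit
  rw [Metric.tendsto_atTop]
  intro ε hε
  obtain ⟨κ, hκ, hm⟩ := main (Real.sqrt (ε / 2)) (by positivity)
  have h1 : Tendsto (fun n : ℕ => 2 * B ^ 2 * Real.exp (-(κ * n))) atTop (𝓝 (2 * B ^ 2 * 0)) := by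
    refine Tendsto.const_mul _ ?_
    have h2 : Tendsto (fun n : ℕ => κ * (n : ℝ)) atTop atTop :=
      tendsto_natCast_atTop_atTop.const_mul_atTop hκ
    exact Real.tendsto_exp_neg_atTop_nhds_zero.comp h2
  rw [mul_zero] at h1
  have h2 := h1.eventually_lt_const (show (0 : ℝ) < ε / 2 by positivity)
  obtain ⟨n0, hn0⟩ := eventually_atTop.1 (h2.and (eventually_ge_atTop 1))
  refine ⟨n0, fun n hn => ?_⟩
  obtain ⟨h3, h4⟩ := hn0 n hn
  have h5 := hm n h4
  rw [Real.sq_sqrt (by positivity)] at h5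
  rw [Real.dist_eq, sub_zero, abs_of_nonneg (hnn n)]
  linarith

/-- clustering of the slab energies and the local observables -/
theorem IV.localC (hν : IV μ L b ν) (hb : ContinuousAt (uu μ L d) b) (hb0 : 0 ≤ b)
    (hS : ∀ x ∈ S, x i0 = a) {F : (LZ d → G) → ℝ} (hF : Continuous F) {T : Finset (LZ d)}
    (hFT : ∀ V V' : LZ d → G, (∀ e ∈ T, V e = V' e) → F V = F V') :
    Tendsto (fun t : ℕ => cov ν F (sz L i0 S h (t : ℤ))) atTop (𝓝 0) ∧
    Tendsto (fun t : ℕ => cov ν F (sz L i0 S h (-(t : ℤ)))) atTop (𝓝 0) := by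
  have := hν.prob
  have hcl := hν.clusterC μ hb hb0 hS (h := h)
  obtain ⟨R, hR⟩ : ∃ R : ℕ, ∀ e ∈ T, |e.1 i0| + |a| + 2 ≤ R := by
    refine ⟨(∑ e ∈ T, (e.1 i0).natAbs) + a.natAbs + 2, fun e he => ?_⟩
    have h1 : (e.1 i0).natAbs ≤ ∑ e ∈ T, (e.1 i0).natAbs :=
      Finset.single_le_sum (f := fun e : LZ d => (e.1 i0).natAbs) (fun _ _ => Nat.zero_le _) he
    rw [Int.abs_eq_natAbs, Int.abs_eq_natAbs]
    push_cast
    have : ((e.1 i0).natAbs : ℤ) ≤ ((∑ e ∈ T, (e.1 i0).natAbs : ℕ) : ℤ) := by exact_mod_cast h1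
    push_cast at this
    linarith
  have hR0 : |a| ≤ R + |a| := by omega
  obtain ⟨K, hK⟩ : ∃ K : ℕ, K = R + a.natAbs := ⟨_, rfl⟩
  have key : ∀ r : ℕ → ℤ, (∀ t : ℕ, K ≤ t →
      cov ν F (sz L i0 S h (r t)) ^ 2 ≤ cov ν F F * cz2 L ν i0 S h (2 * (t - K) + 1)) →
      Tendsto (fun t : ℕ => cov ν F (sz L i0 S h (r t))) atTop (𝓝 0) := by
    intro r hr
    have h1 : Tendsto (fun t : ℕ => 2 * (t - K) + 1) atTop atTop := by
      refine tendsto_atTop.2 fun n => ?_
      filter_upwards [eventually_ge_atTop (n + K)] with t ht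
      omega
    have h2 := ((hcl.comp h1).const_mul (cov ν F F))
    rw [mul_zero] at h2
    have h3 : Tendsto (fun t : ℕ => cov ν F (sz L i0 S h (r t)) ^ 2) atTop (𝓝 0) := by
      refine tendsto_of_tendsto_of_tendsto_of_le_of_le' tendsto_const_nhds h2
        (Filter.Eventually.of_forall fun t => sq_nonneg _) ?_
      filter_upwards [eventually_ge_atTop K] with t ht
      exact hr t ht
    have h4 := h3.sqrt
    rw [Real.sqrt_zero] at h4
    have h5 : ∀ t, Real.sqrt (cov ν F (sz L i0 S h (r t)) ^ 2) = |cov ν F (sz L i0 S h (r t))| :=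
      fun t => Real.sqrt_sq_eq_abs _
    simp only [h5] at h4
    exact (tendsto_zero_iff_abs_tendsto_zero _).2 h4
  constructor
  · refine key (fun t => (t : ℤ)) fun t ht => ?_
    refine cov_half' μ hν hS hF (T := T) (c := a + K) (fun e he => ?_) hFT ?_
    · have h1 := hR e he
      have h2 := le_abs_self (e.1 i0)
      have h3 := neg_abs_le a
      have h4 := abs_nonneg a
      rw [hK]
      push_cast
      split_ifs <;> linarith
    · omega
  · refine key (fun t => -(t : ℤ)) fun t ht => ?_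
    refine cov_half μ hν hS hF (T := T) (c := a + 1 - K) (fun e he => ?_) hFT ?_
    · have h1 := hR e he
      have h2 := neg_abs_le (e.1 i0)
      have h3 := le_abs_self a
      have h4 := abs_nonneg a
      rw [hK]
      push_cast
      linarith
    · omega

end cont

end

end Pool.Agent.T2H01.YM
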