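import Mathlib
import Pool.Agent.T2H01.YM.Fin

/-!
# The energy fluctuations on the periodic lattice are largest at zero momentum
-/

open MeasureTheory Matrix Filter
open scoped Matrix.Norms.Frobenius ContDiff Topology
open Pool.Agent.H906R3.YM hiding Pl
open Pool.Agent.W793.YM Pool.Agent.TH618.YM

namespace Pool.Agent.T2H01.YM

set_option linter.unusedSectionVars false
set_option linter.unusedVariables false

noncomputable section

lemma exp_third {y : ℝ} (hy : |y| ≤ 1) : Real.exp y ≤ 1 + y + y ^ 2 / 2 + |y| ^ 3 := by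
  have h := Real.exp_bound hy (n := 3) (by norm_num)
  have h2 := (abs_le.1 h).2
  simp only [Finset.sum_range_succ, Finset.sum_range_zero, Nat.factorial, pow_zero, pow_one] at h2
  norm_num at h2
  have h3 : 0 ≤ |y| ^ 3 := by positivity
  linarith

/-- comparison of second order terms -/
lemma second_order {A B C : ℝ} (h : ∃ ε₀ > 0, ∀ t, 0 < t → t ≤ ε₀ → t ^ 2 * A ≤ t ^ 2 * B + C * t ^ 3) :
    A ≤ B := by
  obtain ⟨ε₀, hε, h⟩ := h
  have h1 : Tendsto (fun t : ℝ => B + C * t) (𝓝[>] 0) (𝓝 (B + C * 0)) := by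
    have hc : Continuous fun t : ℝ => B + C * t := by fun_prop
    exact (hc.tendsto 0).mono_left nhdsWithin_le_nhds
  rw [mul_zero, add_zero] at h1
  refine ge_of_tendsto h1 ?_
  filter_upwards [Ioc_mem_nhdsGT hε] with t ht
  have h2 := h t ht.1 ht.2
  have h3 : t ^ 2 * A ≤ t ^ 2 * (B + C * t) := by linarith
  exact le_of_mul_le_mul_left h3 (by have := ht.1; positivity)

variable {G : Type*} [Group G] [TopologicalSpace G] [IsTopologicalGroup G] [CompactSpace G]
  [SecondCountableTopology G] [MeasurableSpace G] [BorelSpace G] (μ : Measure G)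
  [IsProbabilityMeasure μ] [μ.IsMulLeftInvariant] [μ.IsMulRightInvariant] [μ.IsInvInvariant]
  {N n : ℕ} {L : LD G N n} {d m : ℕ} [NeZero m]

/-- differences of pressures are exponential moments of the action -/
lemma pr_diff (b s : ℝ) : ((2 * m : ℕ) : ℝ) ^ d * (pr μ L d (2 * m) (b - s) - pr μ L d (2 * m) b) =
    Real.log (EX μ L b (fun U : Ed d (2 * m) → G => Real.exp (s * act L U))) := by
  have e1 : Zt μ L b (fun U : Ed d (2 * m) → G => Real.exp (s * act L U)) =
      Zt μ L (b - s) (fun _ : Ed d (2 * m) → G => 1) := by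
    unfold Zt
    refine integral_congr_ae (Filter.Eventually.of_forall fun U => ?_)
    simp only
    rw [one_mul, ← Real.exp_add]
    congr 1; ring
  unfold EX
  rw [e1, Real.log_div (Zt_pos μ _).ne' (Zt_pos μ _).ne', ← Zh_const, ← Zh_const, log_Zh, log_Zh]
  ring

set_option maxHeartbeats 1000000 in
/-- **The energy fluctuations are largest at zero momentum**, at every coupling. -/
theorem tor_var (hm : 2 ≤ m) (b : ℝ) (h : (Fin d → ZMod (2 * m)) → ℝ) :
    CV μ L b (fun U => ∑ x, h x * ce L U x) (fun U => ∑ x, h x * ce L U x) ≤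
      CV μ L b (act L : (Ed d (2 * m) → G) → ℝ) (act L) / ((2 * m : ℕ) : ℝ) ^ d *
        ∑ x, h x ^ 2 := by
  obtain ⟨l, hl⟩ : ∃ l : ℝ, l = ((2 * m : ℕ) : ℝ) ^ d := ⟨_, rfl⟩
  have hl0 : 0 < l := by
    have : (0 : ℝ) < ((2 * m : ℕ) : ℝ) := by
      exact_mod_cast Nat.pos_of_ne_zero (NeZero.ne (2 * m))
    rw [hl]; positivity
  obtain ⟨u, hu⟩ : ∃ u, u = en μ L d (2 * m) b := ⟨_, rfl⟩
  obtain ⟨Y, hY⟩ : ∃ Y : (Ed d (2 * m) → G) → ℝ, Y = fun U => act L U - l * u := ⟨_, rfl⟩
  have hYc : Continuous Y := by rw [hY]; exact act_cont.sub continuous_const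
  have hEa : EX μ L b (fun U : Ed d (2 * m) → G => act L U) = l * u := by rw [EX_act, hl, hu]
  have hEa' : EX μ L b (act L : (Ed d (2 * m) → G) → ℝ) = l * u := hEa
  have hEY : EX μ L b Y = 0 := by
    rw [hY, EX_sub μ act_cont continuous_const, EX_const, hEa]; ring
  obtain ⟨V, hV⟩ : ∃ V, V = CV μ L b (act L : (Ed d (2 * m) → G) → ℝ) (act L) := ⟨_, rfl⟩
  have hEY2 : EX μ L b (fun U => Y U ^ 2) = V := by
    rw [hV, ← CV_centre μ act_cont act_cont, hY, hEa']
    congr 1
    funext U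
    ring
  obtain ⟨B, hB⟩ := bdd_cont hYc
  have hB0 : 0 ≤ B := (abs_nonneg _).trans (hB 1)
  obtain ⟨X, hX⟩ : ∃ X : (Ed d (2 * m) → G) → ℝ, X = fun U => ∑ x, h x * (ce L U x - u) := ⟨_, rfl⟩
  have hXc : Continuous X := by
    rw [hX]
    exact continuous_finsetSum _ fun x _ => continuous_const.mul ((ce_cont x).sub continuous_const)
  have hsum : ∀ U : Ed d (2 * m) → G, ∑ x, h x * ce L U x = X U + u * ∑ x, h x := by
    intro U
    rw [hX]
    simp only [mul_sub, Finset.sum_sub_distrib, Finset.mul_sum]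
    rw [sub_add_eq_add_sub, add_sub_assoc]
    have : ∑ x, u * h x - ∑ x, h x * u = 0 := by
      rw [← Finset.sum_sub_distrib]
      exact Finset.sum_eq_zero fun x _ => by ring
    rw [this, add_zero]
  obtain ⟨H, hH⟩ : ∃ H, H = ∑ x, h x ^ 2 := ⟨_, rfl⟩
  obtain ⟨H1, hH1⟩ : ∃ H1, H1 = ∑ x, |h x| := ⟨_, rfl⟩
  obtain ⟨H3, hH3⟩ : ∃ H3, H3 = ∑ x, |h x| ^ 3 := ⟨_, rfl⟩
  have hH0 : 0 ≤ H := by rw [hH]; exact Finset.sum_nonneg fun x _ => sq_nonneg _
  have hH10 : 0 ≤ H1 := by rw [hH1]; exact Finset.sum_nonneg fun x _ => abs_nonneg _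
  have hH30 : 0 ≤ H3 := by rw [hH3]; exact Finset.sum_nonneg fun x _ => by positivity
  have hhx : ∀ x, |h x| ≤ H1 := fun x => by
    rw [hH1]
    exact Finset.single_le_sum (f := fun x => |h x|) (fun _ _ => abs_nonneg _) (Finset.mem_univ x)
  -- the second order bound of the pressure
  have hD : ∀ s : ℝ, |s| * B ≤ 1 → l * (pr μ L d (2 * m) (b - s) - pr μ L d (2 * m) b - s * u) ≤
      s ^ 2 / 2 * V + |s| ^ 3 * B ^ 3 := by
    intro s hs
    have c1 : Continuous fun U : Ed d (2 * m) → G => Real.exp (s * Y U) :=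
      Real.continuous_exp.comp (continuous_const.mul hYc)
    have c2 : Continuous fun U : Ed d (2 * m) → G => s * Y U := continuous_const.mul hYc
    have c3 : Continuous fun U : Ed d (2 * m) → G => s ^ 2 / 2 * Y U ^ 2 :=
      continuous_const.mul (hYc.pow 2)
    have c4 : Continuous fun U : Ed d (2 * m) → G => 1 + s * Y U := continuous_const.add c2
    have c5 : Continuous fun U : Ed d (2 * m) → G => 1 + s * Y U + s ^ 2 / 2 * Y U ^ 2 := c4.add c3
    have c6 : Continuous fun U : Ed d (2 * m) → G =>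
        1 + s * Y U + s ^ 2 / 2 * Y U ^ 2 + |s| ^ 3 * B ^ 3 := c5.add continuous_const
    have h1 : ∀ U : Ed d (2 * m) → G, Real.exp (s * Y U) ≤
        1 + s * Y U + s ^ 2 / 2 * Y U ^ 2 + |s| ^ 3 * B ^ 3 := by
      intro U
      have e1 : |s * Y U| ≤ |s| * B := by
        rw [abs_mul]; exact mul_le_mul_of_nonneg_left (hB U) (abs_nonneg s)
      have e2 := exp_third (e1.trans hs)
      have e3 : |s * Y U| ^ 3 ≤ |s| ^ 3 * B ^ 3 := by
        rw [← mul_pow]
        exact pow_le_pow_left₀ (abs_nonneg _) e1 3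
      refine e2.trans ?_
      have e4 : (s * Y U) ^ 2 / 2 = s ^ 2 / 2 * Y U ^ 2 := by ring
      rw [e4]
      linarith
    have h2 := EX_mono μ (L := L) (β := b) c1 c6 h1
    rw [EX_add μ c5 continuous_const, EX_add μ c4 c3, EX_add μ continuous_const c2, EX_const,
      EX_const, EX_smul, EX_smul, hEY, hEY2] at h2
    have hpos : 0 < EX μ L b (fun U : Ed d (2 * m) → G => Real.exp (s * Y U)) := by
      have h3 := exp_third (y := 0) (by simp)
      have hB' : ∀ U : Ed d (2 * m) → G, Real.exp (-(|s| * B)) ≤ Real.exp (s * Y U) := fun U => by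
        refine Real.exp_le_exp.2 ?_
        have e1 : |s * Y U| ≤ |s| * B := by
          rw [abs_mul]; exact mul_le_mul_of_nonneg_left (hB U) (abs_nonneg s)
        exact (abs_le.1 e1).1
      have h4 := EX_mono μ (L := L) (β := b) continuous_const c1 hB'
      rw [EX_const] at h4
      exact (Real.exp_pos _).trans_le h4
    have h5 := Real.log_le_sub_one_of_pos hpos
    have h6 := pr_diff μ (L := L) (d := d) (m := m) b s
    have h7 : EX μ L b (fun U : Ed d (2 * m) → G => Real.exp (s * act L U)) =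
        Real.exp (s * (l * u)) * EX μ L b (fun U : Ed d (2 * m) → G => Real.exp (s * Y U)) := by
      rw [← EX_smul]
      congr 1
      funext U
      rw [hY, ← Real.exp_add]
      congr 1; ring
    rw [h7, Real.log_mul (Real.exp_pos _).ne' hpos.ne', Real.log_exp, ← hl] at h6
    have h8 : l * (pr μ L d (2 * m) (b - s) - pr μ L d (2 * m) b - s * u) =
        l * (pr μ L d (2 * m) (b - s) - pr μ L d (2 * m) b) - s * (l * u) := by ring
    rw [h8, h6]
    linarith
  -- the exponential moments of `X`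
  have hE : ∀ t : ℝ, |t| * H1 * B ≤ 1 → EX μ L b (fun U => Real.exp (t * X U)) ≤
      Real.exp (t ^ 2 * (V / l * H / 2) + |t| ^ 3 * (B ^ 3 / l * H3)) := by
    intro t ht
    have h1 := EX_chess μ (L := L) hm b (fun x : Fin d → ZMod (2 * m) => t * h x)
    have h2 : EX μ L b (fun U => Real.exp (t * X U)) = Real.exp (-(t * (u * ∑ x, h x))) *
        EX μ L b (fun U : Ed d (2 * m) → G => Real.exp (∑ x, t * h x * ce L U x)) := by
      rw [← EX_smul]
      congr 1
      funext U
      rw [← Real.exp_add]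
      congr 1
      have h3 : ∑ x, t * h x * ce L U x = t * (X U + u * ∑ x, h x) := by
        rw [← hsum, Finset.mul_sum]
        exact Finset.sum_congr rfl fun x _ => by ring
      rw [h3]; ring
    rw [h2]
    refine (mul_le_mul_of_nonneg_left h1 (Real.exp_pos _).le).trans ?_
    rw [← Real.exp_add]
    refine Real.exp_le_exp.2 ?_
    have h4 : -(t * (u * ∑ x, h x)) + ∑ x, (pr μ L d (2 * m) (b - t * h x) - pr μ L d (2 * m) b) =
        ∑ x, (pr μ L d (2 * m) (b - t * h x) - pr μ L d (2 * m) b - t * h x * u) := by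
      rw [Finset.sum_sub_distrib (f := fun x => pr μ L d (2 * m) (b - t * h x) - pr μ L d (2 * m) b)]
      have : ∑ x, t * h x * u = t * (u * ∑ x, h x) := by
        rw [Finset.mul_sum, Finset.mul_sum]
        exact Finset.sum_congr rfl fun x _ => by ring
      rw [this]; ring
    rw [h4]
    have h5 : ∀ x, pr μ L d (2 * m) (b - t * h x) - pr μ L d (2 * m) b - t * h x * u ≤
        (t ^ 2 * (V / l / 2)) * h x ^ 2 + (|t| ^ 3 * (B ^ 3 / l)) * |h x| ^ 3 := by
      intro x
      have h6 := hD (t * h x) (by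
        rw [abs_mul]
        refine le_trans ?_ ht
        exact mul_le_mul_of_nonneg_right (mul_le_mul_of_nonneg_left (hhx x) (abs_nonneg t)) hB0)
      have h7 : (t ^ 2 * (V / l / 2)) * h x ^ 2 + (|t| ^ 3 * (B ^ 3 / l)) * |h x| ^ 3 =
          ((t * h x) ^ 2 / 2 * V + |t * h x| ^ 3 * B ^ 3) / l := by
        rw [abs_mul]; field_simp
      rw [h7, le_div_iff₀ hl0]
      linarith
    refine (Finset.sum_le_sum fun x _ => h5 x).trans (le_of_eq ?_)
    rw [Finset.sum_add_distrib, ← Finset.mul_sum, ← Finset.mul_sum, ← hH, ← hH3]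
    ring
  -- the second moment
  have hV0 : 0 ≤ V := by rw [← hEY2]; exact EX_nonneg μ fun U => sq_nonneg _
  obtain ⟨P, hP⟩ : ∃ P, P = V / l * H / 2 := ⟨_, rfl⟩
  obtain ⟨Q, hQ⟩ : ∃ Q, Q = B ^ 3 / l * H3 := ⟨_, rfl⟩
  have hP0 : 0 ≤ P := by rw [hP]; positivity
  have hQ0 : 0 ≤ Q := by rw [hQ]; positivity
  rw [← hP, ← hQ] at hE
  have hmain : EX μ L b (fun U => X U ^ 2) ≤ 2 * P := by
    refine second_order (C := 2 * Q + 2 * (P + Q) ^ 2) ⟨min 1 (min (1 / (H1 * B + 1)) (1 / (P + Q + 1))), by positivity, ?_⟩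
    intro t ht0 ht
    have ht1 : t ≤ 1 := ht.trans (min_le_left _ _)
    have ht2 : t ≤ 1 / (H1 * B + 1) := ht.trans ((min_le_right _ _).trans (min_le_left _ _))
    have ht3 : t ≤ 1 / (P + Q + 1) := ht.trans ((min_le_right _ _).trans (min_le_right _ _))
    rw [le_div_iff₀ (by positivity)] at ht2 ht3
    have hc : |t| * H1 * B ≤ 1 := by
      rw [abs_of_pos ht0]
      nlinarith [mul_nonneg hH10 hB0]
    have h1 := hE t hc
    have h2 := hE (-t) (by rwa [abs_neg])
    rw [abs_neg, neg_sq] at h2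
    rw [abs_of_pos ht0] at h1 h2
    obtain ⟨w, hw⟩ : ∃ w, w = t ^ 2 * P + t ^ 3 * Q := ⟨_, rfl⟩
    rw [← hw] at h1 h2
    have hw0 : 0 ≤ w := by rw [hw]; positivity
    have ht23 : t ^ 3 ≤ t ^ 2 := by
      have : t ^ 3 = t ^ 2 * t := by ring
      rw [this]
      nlinarith [sq_nonneg t]
    have hwle : w ≤ t ^ 2 * (P + Q) := by
      rw [hw, mul_add]
      have := mul_le_mul_of_nonneg_right ht23 hQ0
      linarith
    have hw1 : w ≤ 1 := by
      refine hwle.trans ?_
      have h3 : t ^ 2 * (P + Q) = t * (t * (P + Q)) := by ring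
      rw [h3]
      have h4 : t * (P + Q) ≤ 1 := by nlinarith
      nlinarith [mul_nonneg ht0.le (show 0 ≤ P + Q by linarith)]
    have hexpw : Real.exp w ≤ 1 + w + w ^ 2 := by
      have := Real.abs_exp_sub_one_sub_id_le (x := w) (by rwa [abs_of_nonneg hw0])
      have := (abs_le.1 this).2
      linarith
    have c1 : Continuous fun U : Ed d (2 * m) → G => 2 + t ^ 2 * X U ^ 2 :=
      continuous_const.add (continuous_const.mul (hXc.pow 2))
    have c1' : Continuous fun U : Ed d (2 * m) → G => t ^ 2 * X U ^ 2 :=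
      continuous_const.mul (hXc.pow 2)
    have c2 : Continuous fun U : Ed d (2 * m) → G => Real.exp (t * X U) :=
      Real.continuous_exp.comp (continuous_const.mul hXc)
    have c3 : Continuous fun U : Ed d (2 * m) → G => Real.exp (-t * X U) :=
      Real.continuous_exp.comp (continuous_const.mul hXc)
    have h4 : EX μ L b (fun U : Ed d (2 * m) → G => 2 + t ^ 2 * X U ^ 2) ≤
        EX μ L b (fun U => Real.exp (t * X U) + Real.exp (-t * X U)) := by
      refine EX_mono μ c1 (c2.add c3) fun U => ?_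
      have := two_add_sq_le (t * X U)
      rw [neg_mul]
      have e : (t * X U) ^ 2 = t ^ 2 * X U ^ 2 := by ring
      rw [e] at this
      exact this
    rw [EX_add μ continuous_const c1', EX_const, EX_smul, EX_add μ c2 c3] at h4
    have hw2 : w ^ 2 ≤ t ^ 3 * (P + Q) ^ 2 := by
      have h5 : w ^ 2 ≤ (t ^ 2 * (P + Q)) ^ 2 := pow_le_pow_left₀ hw0 hwle 2
      have h6 : (t ^ 2 * (P + Q)) ^ 2 = t ^ 3 * (P + Q) ^ 2 * t := by ring
      rw [h6] at h5
      refine h5.trans ?_
      have : 0 ≤ t ^ 3 * (P + Q) ^ 2 := by positivity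
      nlinarith
    have h7 : t ^ 2 * (2 * P) + (2 * Q + 2 * (P + Q) ^ 2) * t ^ 3 =
        2 * w + 2 * (t ^ 3 * (P + Q) ^ 2) := by rw [hw]; ring
    rw [h7]
    linarith
  have hcv : CV μ L b (fun U => ∑ x, h x * ce L U x) (fun U => ∑ x, h x * ce L U x) =
      EX μ L b (fun U => X U ^ 2) := by
    have c1 : Continuous fun U : Ed d (2 * m) → G => ∑ x, h x * ce L U x :=
      continuous_finsetSum _ fun x _ => continuous_const.mul (ce_cont x)
    rw [← CV_centre μ c1 c1]
    have e1 : EX μ L b (fun U : Ed d (2 * m) → G => ∑ x, h x * ce L U x) = u * ∑ x, h x := by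
      have c2 : ∀ x ∈ (Finset.univ : Finset (Fin d → ZMod (2 * m))),
          Continuous fun U : Ed d (2 * m) → G => h x * ce L U x := fun x _ =>
        continuous_const.mul (ce_cont x)
      rw [EX_sum μ _ c2, Finset.mul_sum]
      refine Finset.sum_congr rfl fun x _ => ?_
      rw [EX_smul, EX_ce, ← hu]; ring
    rw [e1]
    congr 1
    funext U
    rw [hsum]
    ring
  rw [hcv, ← hV, ← hl, ← hH]
  refine hmain.trans (le_of_eq ?_)
  rw [hP]; ring

end

end Pool.Agent.T2H01.YM
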